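import Pool.Agent.Q96.ME.ASL
import Pool.Agent.Q285.ME.Constr
import Pool.Agent.Q224.ME.ENM

/-!
# Deleting random blocks of a random set: the cost in information
-/

set_option autoImplicit false

namespace Pool.Agent.Q106.WG

open Finset MeasureTheory Filter Pool.Agent.Q120.ET Pool.Agent.Q120.ME Pool.Agent.Q96.ME
open scoped Topology

variable {U : Set ℕ} {p d : ℕ → ℝ}

open Classical in
/-- The cost of the blocks. -/
theorem del_cost {y : ℕ → ℕ} (hy : StrictMono y) {q Λ : ℕ → ℝ} (hq01 : ∀ j, 0 ≤ q j ∧ q j ≤ 1) (hq0 : q 0 = 0)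
    (hp : ∀ n ∈ U, 0 < p n ∧ p n < 1) (hd : Monotone d) (hd0 : ∀ n, 0 ≤ d n)
    (hΛ : ∀ j, q j ≠ 0 → ∑ n ∈ Ico (y j) (y (j + 1)), (if n ∈ U then -Real.log (1 - p n) else 0) ≤ Λ j)
    (hs : ∀ j, ∑ i ∈ range (j + 1), q i * Λ i ≤ d (y j)) (x : ℕ) :
    ∑ n ∈ ind U x, q (bl y n) * -Real.log (1 - p n) ≤ d x := by
  obtain ⟨g, hg⟩ : ∃ g : ℕ → ℝ, g = fun n => if n ∈ U then q (bl y n) * -Real.log (1 - p n) else 0 := ⟨_, rfl⟩
  have hlog : ∀ n ∈ U, 0 ≤ -Real.log (1 - p n) := by
    intro n hn
    have := Real.log_nonpos (show 0 ≤ 1 - p n by linarith [(hp n hn).2]) (by linarith [(hp n hn).1])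
    linarith
  have hg0 : ∀ n, 0 ≤ g n := fun n => by
    rw [hg]
    simp only
    split_ifs with hn
    · exact mul_nonneg (hq01 _).1 (hlog n hn)
    · exact le_rfl
  rw [sum_ind]
  have hA0 : ∑ n ∈ range (y 1), g n = 0 := by
    refine sum_eq_zero (fun n hn => ?_)
    rw [mem_range] at hn
    have h1 : bl y n = 0 := bl_eq hy (fun h => absurd rfl h) (by simpa using hn)
    rw [hg]
    simp only [h1, hq0]
    simp
  have hA : ∀ j : ℕ, ∑ n ∈ range (y (j + 1)), g n ≤ ∑ i ∈ range (j + 1), q i * Λ i := by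
    intro j
    induction j with
    | zero =>
      rw [zero_add, hA0]
      simp [hq0]
    | succ j ih =>
      rw [← sum_range_add_sum_Ico _ (hy (Nat.lt_succ_self (j + 1))).le, sum_range_succ _ (j + 1)]
      have h1 : ∀ n ∈ Ico (y (j + 1)) (y (j + 1 + 1)),
          g n = q (j + 1) * (if n ∈ U then -Real.log (1 - p n) else 0) := by
        intro n hn
        rw [mem_Ico] at hn
        have h2 : bl y n = j + 1 := bl_eq hy (fun _ => hn.1) hn.2
        rw [hg]
        simp only [h2]
        split_ifs <;> simp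
      have h3 : ∑ n ∈ Ico (y (j + 1)) (y (j + 1).succ), g n ≤ q (j + 1) * Λ (j + 1) := by
        rw [Nat.succ_eq_add_one, sum_congr rfl h1, ← mul_sum]
        by_cases h0 : q (j + 1) = 0
        · rw [h0, zero_mul, zero_mul]
        · exact mul_le_mul_of_nonneg_left (hΛ (j + 1) h0) (hq01 _).1
      linarith
  have hle : ∑ n ∈ range x, g n ≤ ∑ n ∈ range (y (bl y x + 1)), g n :=
    sum_le_sum_of_subset_of_nonneg (range_mono (lt_bl hy x).le) (fun n _ _ => hg0 n)
  have hfin : ∑ n ∈ range x, g n ≤ d x := by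
    by_cases h0 : bl y x = 0
    · rw [h0, zero_add, hA0] at hle
      exact hle.trans (hd0 x)
    · exact hle.trans ((hA _).trans ((hs _).trans (hd (bl_le h0))))
  rw [hg] at hfin
  exact hfin

/-- **Random blocks without elements, at the prescribed cost.** -/
theorem deletion {y : ℕ → ℕ} (hy : StrictMono y) {q Λ : ℕ → ℝ} (hq01 : ∀ j, 0 ≤ q j ∧ q j ≤ 1) (hq0 : q 0 = 0)
    (hqs : ¬ Summable q) (hp : ∀ n ∈ U, 0 < p n ∧ p n < 1) (hd : Monotone d) (hd0 : ∀ n, 0 ≤ d n)
    (hΛ : ∀ j, q j ≠ 0 → (by classical exact ∑ n ∈ Ico (y j) (y (j + 1)), (if n ∈ U then -Real.log (1 - p n) else 0) : ℝ) ≤ Λ j)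
    (hs : ∀ j, ∑ i ∈ range (j + 1), q i * Λ i ≤ d (y j)) :
    ∃ (Ω : Type) (_ : MeasurableSpace Ω) (μ : Measure Ω) (_ : IsProbabilityMeasure μ) (A : Ω → Set ℕ), IsRandomSet A ∧
      (∀ x, relEnt p μ A (ind U x) ≤ d x) ∧ (∀ᵐ ω ∂μ, A ω ⊆ U) ∧
      ∀ᵐ ω ∂μ, ∃ᶠ j : ℕ in atTop, ∀ n ∈ A ω, ¬ (y j ≤ n ∧ n < y (j + 1)) := by
  classical
  have hcost := del_cost hy hq01 hq0 hp hd hd0 hΛ hs
  -- the random set of free blocks
  obtain ⟨X, _, ν, _, Ξ, π', hX⟩ := Pool.Agent.Q285.ME.t_CON Unit (Measure.dirac ()) (fun _ => q)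
    (fun n => measurable_const) (fun _ n => hq01 n)
  have hΞlaw : ∀ F T : Finset ℕ, ν.real {x | ∀ n ∈ F, (n ∈ Ξ x ↔ n ∈ T)} = bern q F T := by
    intro F T
    have h1 := hX.law F T Set.univ MeasurableSet.univ
    simpa using h1
  have hΞ1 : ∀ j, ν.real {x | j ∈ Ξ x} = q j := by
    intro j
    have h1 := hΞlaw {j} {j}
    simpa [bern] using h1
  -- the mixture
  obtain ⟨r, hr⟩ : ∃ r : X → ℕ → ℝ, r = fun x n => if n ∈ U ∧ bl y n ∉ Ξ x then p n else 0 := ⟨_, rfl⟩
  have hrm : ∀ n, Measurable (fun x => r x n) := by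
    intro n
    by_cases hn : n ∈ U
    · have h1 : (fun x => r x n) = fun x => if bl y n ∈ Ξ x then 0 else p n := by
        ext x
        simp only [hr]
        by_cases h : bl y n ∈ Ξ x
        · rw [if_neg (fun h' => h'.2 h), if_pos h]
        · rw [if_pos ⟨hn, h⟩, if_neg h]
      rw [h1]
      exact Measurable.ite (hX.rand _) measurable_const measurable_const
    · have h1 : (fun x => r x n) = fun _ => 0 := by
        ext x
        simp only [hr]
        rw [if_neg (fun h' => hn h'.1)]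
      rw [h1]
      exact measurable_const
  have hr01 : ∀ x n, 0 ≤ r x n ∧ r x n ≤ 1 := by
    intro x n
    simp only [hr]
    split_ifs with h
    · exact ⟨(hp n h.1).1.le, (hp n h.1).2.le⟩
    · exact ⟨le_rfl, zero_le_one⟩
  obtain ⟨Ω, _, μ, _, A, π, hM⟩ := Pool.Agent.Q285.ME.t_CON X ν r hrm hr01
  have hmem : ∀ {n x}, n ∈ ind U x → n ∈ U := by
    intro n x hn
    simp only [ind, mem_filter] at hn
    exact hn.2
  refine ⟨Ω, inferInstance, μ, inferInstance, A, hM.rand, fun x => ?_, ?_, ?_⟩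
  · -- the entropy
    obtain ⟨-, h1⟩ := Pool.Agent.Q224.ME.t_ENM X ν r hrm hr01 Ω μ A π hM p (ind U x) (fun n hn => hp n (hmem hn))
    refine h1.trans (le_trans (le_of_eq ?_) (hcost x))
    have h2 : ∀ n ∈ ind U x, ∀ z : X, kl (r z n) (p n) =
        ({z | bl y n ∈ Ξ z} : Set X).indicator (fun _ => -Real.log (1 - p n)) z := by
      intro n hn z
      have hnU : n ∈ U := hmem hn
      by_cases h : bl y n ∈ Ξ z
      · rw [Set.indicator_of_mem (show z ∈ {z | bl y n ∈ Ξ z} from h)]
        have : r z n = 0 := by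
          simp only [hr]
          rw [if_neg (fun h' => h'.2 h)]
        rw [this, kl_zero]
      · rw [Set.indicator_of_notMem (show z ∉ {z | bl y n ∈ Ξ z} from h)]
        have : r z n = p n := by
          simp only [hr]
          rw [if_pos ⟨hnU, h⟩]
        rw [this, kl_self (hp n hnU).1 (hp n hnU).2]
    have h4 : ∀ z, ∑ n ∈ ind U x, kl (r z n) (p n) = ∑ n ∈ ind U x,
        ({z | bl y n ∈ Ξ z} : Set X).indicator (fun _ => -Real.log (1 - p n)) z := fun z =>
      sum_congr rfl (fun n hn => h2 n hn z)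
    simp only [h4]
    rw [integral_finsetSum _ (fun n _ => (integrable_const _).indicator (hX.rand _))]
    refine sum_congr rfl (fun n _ => ?_)
    rw [integral_indicator (hX.rand _), setIntegral_const, hΞ1, smul_eq_mul]
  · -- the support
    rw [Filter.eventually_iff]
    have h1 : ∀ᵐ ω ∂μ, ∀ n, n ∈ A ω → n ∈ U := by
      rw [ae_all_iff]
      intro n
      by_cases hn : n ∈ U
      · exact Eventually.of_forall (fun _ _ => hn)
      · have h1 := law_one hM n Set.univ MeasurableSet.univ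
        have h2 : ∫ x in Set.univ, r x n ∂ν = 0 := by
          rw [setIntegral_congr_fun (g := fun _ => (0 : ℝ)) MeasurableSet.univ]
          · simp
          · intro x _
            simp only [hr]
            exact if_neg (fun h' => hn h'.1)
        rw [h2, measureReal_eq_zero_iff] at h1
        rw [ae_iff]
        refine measure_mono_null (fun ω hω => ?_) h1
        simp only [Set.mem_ofPred_eq, Classical.not_imp] at hω
        exact ⟨hω.1, trivial⟩
    filter_upwards [h1] with ω hω n hn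
    exact hω n hn
  · -- infinitely many blocks are free
    have hinf : ∀ᵐ x ∂ν, ∃ᶠ j : ℕ in atTop, j ∈ Ξ x := by
      have h1 : ProbabilityTheory.iIndepSet (fun j => {x | j ∈ Ξ x}) ν := by
        rw [ProbabilityTheory.iIndepSet_iff_meas_biInter (fun j => hX.rand j)]
        intro S
        have h2 := hΞlaw S S
        have h3 : {x | ∀ n ∈ S, (n ∈ Ξ x ↔ n ∈ S)} = ⋂ i ∈ S, {x | i ∈ Ξ x} := by
          ext x
          simp only [Set.mem_ofPred_eq, Set.mem_iInter]
          exact forall₂_congr (fun n hn => by simp [hn])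
        rw [h3] at h2
        have h4 : bern q S S = ∏ i ∈ S, ν.real {x | i ∈ Ξ x} := by
          unfold bern
          refine prod_congr rfl (fun n hn => ?_)
          rw [if_pos hn, hΞ1]
        rw [h4] at h2
        have h5 := congrArg ENNReal.ofReal h2
        rw [Measure.real, ENNReal.ofReal_toReal (measure_ne_top _ _),
          ENNReal.ofReal_prod_of_nonneg (fun i _ => measureReal_nonneg)] at h5
        rw [h5]
        refine prod_congr rfl (fun i _ => ?_)
        rw [Measure.real, ENNReal.ofReal_toReal (measure_ne_top _ _)]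
      have h2 : ∑' j : ℕ, ν {x | j ∈ Ξ x} = ⊤ := by
        by_contra hcon
        apply hqs
        have h3 := ENNReal.summable_toReal hcon
        refine h3.congr (fun j => ?_)
        exact hΞ1 j
      have h3 := ProbabilityTheory.measure_limsup_eq_one (fun j => hX.rand j) h1 h2
      have h4 : MeasurableSet (limsup (fun j => {x | j ∈ Ξ x}) atTop) :=
        MeasurableSet.measurableSet_limsup (fun j => hX.rand j)
      have h5 := (mem_ae_iff_prob_eq_one h4).2 h3
      filter_upwards [h5] with x hx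
      rw [mem_limsup_iff_frequently_mem] at hx
      exact hx
    have hinf' : ∀ᵐ ω ∂μ, ∃ᶠ j : ℕ in atTop, j ∈ Ξ (π ω) := by
      have h : ∀ᵐ x ∂(μ.map π), ∃ᶠ j : ℕ in atTop, j ∈ Ξ x := by
        rw [hM.map]
        exact hinf
      exact ae_of_ae_map hM.meas.aemeasurable h
    have hnull : ∀ᵐ ω ∂μ, ∀ n, n ∈ A ω → bl y n ∉ Ξ (π ω) := by
      rw [ae_all_iff]
      intro n
      have h1 := law_one hM n {x | bl y n ∈ Ξ x} (hX.rand _)
      have h2 : ∫ x in {x | bl y n ∈ Ξ x}, r x n ∂ν = 0 := by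
        rw [setIntegral_congr_fun (g := fun _ => (0 : ℝ)) (hX.rand _)]
        · simp
        · intro x hx
          simp only [hr]
          exact if_neg (fun h' => h'.2 hx)
      rw [h2, measureReal_eq_zero_iff] at h1
      rw [ae_iff]
      refine measure_mono_null (fun ω hω => ?_) h1
      simp only [Set.mem_ofPred_eq, Classical.not_imp, not_not] at hω
      exact hω
    filter_upwards [hinf', hnull] with ω h1 h2
    refine h1.mono (fun j hj n hn h => ?_)
    have h3 : bl y n = j := bl_eq hy (fun _ => h.1) h.2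
    exact h2 n hn (h3 ▸ hj)

end Pool.Agent.Q106.WG
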