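import Mathlib

/-!
# Chowla's theorem, and sums of `k`-th powers modulo prime powers
-/

set_option autoImplicit false

namespace Pool.Agent.Q106.WG

open Finset
open scoped Pointwise

/-- **Chowla's theorem** -/
theorem chowla {n : ℕ} [NeZero n] : ∀ (b : ℕ) (A B : Finset (ZMod n)), B.card = b → A.Nonempty → 0 ∈ B →
    (∀ x ∈ B, x ≠ 0 → IsUnit x) → min n (A.card + B.card - 1) ≤ (A + B).card := by
  intro b
  induction b using Nat.strong_induction_on with
  | _ b ih =>
  intro A B hb hA h0 hu
  have hsub : A ⊆ A + B := fun a ha => by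
    rw [Finset.mem_add]
    exact ⟨a, ha, 0, h0, add_zero a⟩
  by_cases hB : ∃ x ∈ B, x ≠ 0
  · obtain ⟨x, hx, hx0⟩ := hB
    by_cases hc : ∃ c ∈ A, c + x ∉ A
    · obtain ⟨c, hc, hcx⟩ := hc
      obtain ⟨B', hB'⟩ : ∃ B', B' = B.filter (fun y => c + y ∈ A) := ⟨_, rfl⟩
      obtain ⟨B'', hB''⟩ : ∃ B'', B'' = B.filter (fun y => c + y ∉ A) := ⟨_, rfl⟩
      obtain ⟨A', hA'⟩ : ∃ A', A' = A ∪ B''.image (fun y => c + y) := ⟨_, rfl⟩
      have e1 : B'.card + B''.card = B.card := by
        rw [hB', hB'']
        exact Finset.card_filter_add_card_filter_not _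
      have e2 : A'.card = A.card + B''.card := by
        rw [hA', card_union_of_disjoint, card_image_of_injective _ (fun y z h => add_left_cancel h)]
        rw [Finset.disjoint_right]
        intro z hz
        rw [mem_image] at hz
        obtain ⟨y, hy, rfl⟩ := hz
        rw [hB'', mem_filter] at hy
        exact hy.2
      have e3 : B'.card < b := by
        have : x ∈ B'' := by rw [hB'', mem_filter]; exact ⟨hx, hcx⟩
        have := card_pos.2 ⟨x, this⟩
        omega
      have h0' : (0 : ZMod n) ∈ B' := by rw [hB', mem_filter, add_zero]; exact ⟨h0, hc⟩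
      have e4 := ih B'.card e3 A' B' rfl (hA.mono (by rw [hA']; exact subset_union_left)) h0'
        (fun y hy => hu y (by rw [hB', mem_filter] at hy; exact hy.1))
      have e5 : A' + B' ⊆ A + B := by
        intro z hz
        rw [Finset.mem_add] at hz ⊢
        obtain ⟨a, ha, y, hy, rfl⟩ := hz
        rw [hB', mem_filter] at hy
        rw [hA', mem_union, mem_image] at ha
        rcases ha with ha | ⟨w, hw, rfl⟩
        · exact ⟨a, ha, y, hy.1, rfl⟩
        · rw [hB'', mem_filter] at hw
          exact ⟨c + y, hy.2, w, hw.1, by ring⟩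
      have e6 := card_le_card e5
      have e7 : A.card + B.card - 1 = A'.card + B'.card - 1 := by omega
      rw [e7]
      exact e4.trans e6
    · push Not at hc
      have h1 : ∀ a ∈ A, ∀ m : ℕ, a + m * x ∈ A := by
        intro a ha m
        induction m with
        | zero => simpa using ha
        | succ m ihm =>
          have := hc _ ihm
          push_cast
          rw [show a + ((m : ZMod n) + 1) * x = a + m * x + x by ring]
          exact this
      have h2 : A = univ := by
        rw [Finset.eq_univ_iff_forall]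
        intro z
        obtain ⟨a, ha⟩ := hA
        obtain ⟨u, hu'⟩ := hu x hx hx0
        have := h1 a ha ((z - a) * ((u⁻¹ : (ZMod n)ˣ) : ZMod n)).val
        rw [ZMod.natCast_zmod_val, ← hu', mul_assoc, Units.inv_mul, mul_one, add_sub_cancel] at this
        exact this
      have h3 := card_le_card hsub
      rw [h2, card_univ, ZMod.card] at h3
      have h4 : A.card = n := by rw [h2, card_univ, ZMod.card]
      rw [h2] at h4 ⊢
      exact (min_le_left _ _).trans h3
  · push Not at hB
    have h1 : B = {0} := by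
      ext y
      rw [mem_singleton]
      exact ⟨fun h => hB y h, fun h => h ▸ h0⟩
    rw [h1, card_singleton, Nat.add_sub_cancel]
    exact (min_le_right _ _).trans (by rw [← h1]; exact card_le_card hsub)

/-- The sums of `s` elements. -/
def ms {n : ℕ} (B : Finset (ZMod n)) : ℕ → Finset (ZMod n)
  | 0 => {0}
  | s + 1 => ms B s + B

theorem ms_card {n : ℕ} [NeZero n] {B : Finset (ZMod n)} (h0 : 0 ∈ B) (hu : ∀ x ∈ B, x ≠ 0 → IsUnit x) (s : ℕ) :
    min n (s * (B.card - 1) + 1) ≤ (ms B s).card := by
  have hB : 1 ≤ B.card := card_pos.2 ⟨0, h0⟩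
  induction s with
  | zero =>
    simp [ms]
  | succ s ih =>
    have hne : (ms B s).Nonempty := by
      rw [← card_pos]
      have : 1 ≤ n := Nat.one_le_iff_ne_zero.2 (NeZero.ne n)
      omega
    have h1 := chowla B.card (ms B s) B rfl hne h0 hu
    show _ ≤ (ms B s + B).card
    have h2 : (s + 1) * (B.card - 1) + 1 = s * (B.card - 1) + 1 + B.card - 1 := by
      obtain ⟨c, hc⟩ : ∃ c, c = B.card - 1 := ⟨_, rfl⟩
      have : B.card = c + 1 := by omega
      rw [← hc, this]
      ring_nf
      omega
    refine le_trans ?_ h1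
    rw [h2]
    rcases le_total n (s * (B.card - 1) + 1) with h | h
    · rw [min_eq_left h] at ih
      have : n ≤ (ms B s).card + B.card - 1 := by omega
      rw [min_eq_left this]
      exact min_le_left _ _
    · rw [min_eq_right h] at ih
      exact min_le_min le_rfl (by omega)

theorem ms_univ {n : ℕ} [NeZero n] {B : Finset (ZMod n)} (h0 : 0 ∈ B) (hu : ∀ x ∈ B, x ≠ 0 → IsUnit x) {s : ℕ}
    (hs : n ≤ s * (B.card - 1) + 1) : ms B s = univ := by
  have h1 := ms_card h0 hu s
  rw [min_eq_left hs] at h1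
  rw [← card_eq_iff_eq_univ, ZMod.card]
  exact le_antisymm (by have := card_le_univ (ms B s); rwa [ZMod.card] at this) h1

/-- The number `n` is a sum of `s` `k`-th powers modulo `q`. -/
def SumMod (k q s n : ℕ) : Prop := ∃ x : Fin s → ℕ, ∑ i, x i ^ k ≡ n [MOD q]

theorem sumMod_iff {k q s n : ℕ} : SumMod k q s n ↔ ∃ x : Fin s → ℕ, ∑ i, ((x i : ZMod q)) ^ k = n := by
  unfold SumMod
  refine exists_congr (fun x => ?_)
  rw [← ZMod.natCast_eq_natCast_iff]
  push_cast
  rfl

theorem mem_ms {k n : ℕ} [NeZero n] {B : Finset (ZMod n)} (hB : ∀ b ∈ B, ∃ x : ℕ, b = (x : ZMod n) ^ k) (s : ℕ) :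
    ∀ z ∈ ms B s, ∃ x : Fin s → ℕ, ∑ i, ((x i : ZMod n)) ^ k = z := by
  induction s with
  | zero =>
    intro z hz
    simp only [ms, mem_singleton] at hz
    exact ⟨fun _ => 0, by simp [hz]⟩
  | succ s ih =>
    intro z hz
    simp only [ms, Finset.mem_add] at hz
    obtain ⟨a, ha, b, hb, rfl⟩ := hz
    obtain ⟨x, hx⟩ := ih a ha
    obtain ⟨y, hy⟩ := hB b hb
    refine ⟨Fin.snoc x y, ?_⟩
    rw [Fin.sum_univ_castSucc]
    simp only [Fin.snoc_castSucc, Fin.snoc_last]
    rw [hx, hy]

end Pool.Agent.Q106.WG
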