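import Pool.Agent.Q106.WG.Size

/-!
# Few elements, and the sums of at most `k` elements
-/

set_option autoImplicit false

namespace Pool.Agent.Q106.WG

open Finset MeasureTheory ProbabilityTheory Filter Pool.Agent.Q120.GM
open scoped Topology
open Pool.Agent.Q106.UR (ind nm oc mem_oc pT cf pT_nonneg pT_le_one ind_zero_or ind_nonneg ind_le_one)

variable {k q : ℕ}

/-- The number `n` is a sum of at most `s` elements of `S`. -/
def SumOf (S : Set ℕ) (s n : ℕ) : Prop := ∃ a : Fin s → ℕ, (∀ i, a i = 0 ∨ a i ∈ S) ∧ ∑ i, a i = n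

theorem SumOf.mono {S : Set ℕ} {s t n : ℕ} (h : SumOf S s n) (hst : s ≤ t) : SumOf S t n := by
  obtain ⟨x, hx, hx'⟩ := h
  obtain ⟨d, rfl⟩ := Nat.exists_eq_add_of_le hst
  refine ⟨Fin.append x (fun _ => 0), ?_, ?_⟩
  · intro i
    induction i using Fin.addCases with
    | left i => rw [Fin.append_left]; exact hx i
    | right i => rw [Fin.append_right]; left; rfl
  · rw [Fin.sum_univ_add]
    simp only [Fin.append_left, Fin.append_right]
    simpa using hx'

/-- The sum over a block. -/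
theorem block (k q J : ℕ) : ∑ n ∈ Ioc (J * q) ((J + 1) * q), pw k q n ≤ q := by
  unfold pw
  have h1 : ∑ n ∈ Ioc (J * q) ((J + 1) * q), ((range q).filter (fun x => x ^ k ≡ n [MOD q])).card =
      ∑ x ∈ range q, ((Ioc (J * q) ((J + 1) * q)).filter (fun n => x ^ k ≡ n [MOD q])).card := by
    simp_rw [card_filter]
    rw [sum_comm]
  rw [h1]
  refine (sum_le_sum (g := fun _ => 1) (fun x _ => ?_)).trans (by simp)
  rw [card_le_one]
  intro a ha b hb
  rw [mem_filter, mem_Ioc] at ha hb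
  have h2 : a ≡ b [MOD q] := ha.2.symm.trans hb.2
  have e : (J + 1) * q = J * q + q := by ring
  rw [e] at ha hb
  rcases le_total a b with h | h
  · have h3 := (Nat.modEq_iff_dvd' h).1 h2
    rcases Nat.eq_zero_or_pos (b - a) with h4 | h4
    · omega
    · have := Nat.le_of_dvd h4 h3
      omega
  · have h3 := (Nat.modEq_iff_dvd' h).1 h2.symm
    rcases Nat.eq_zero_or_pos (a - b) with h4 | h4
    · omega
    · have := Nat.le_of_dvd h4 h3
      omega

theorem blocks (hk : 2 ≤ k) (hq : 1 ≤ q) (J : ℕ) : ∑ n ∈ Ioc 0 ((J + 1) * q), prob k q n ≤ q + ((J * q : ℕ) : ℝ) ^ (1 / (k : ℝ)) := by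
  have hk0 : (0 : ℝ) < k := by positivity
  have hk1 : (1 : ℝ) ≤ k := by exact_mod_cast (by omega : 1 ≤ k)
  have hq0 : (0 : ℝ) < q := by positivity
  have hex : 1 / (k : ℝ) - 1 ≤ 0 := by
    rw [sub_nonpos, div_le_one hk0]
    exact hk1
  have h1k : 1 / (k : ℝ) ≤ 1 := by rw [div_le_one hk0]; exact hk1
  induction J with
  | zero =>
    have h1 : ∑ n ∈ Ioc 0 ((0 + 1) * q), prob k q n ≤ q := by
      refine (sum_le_sum (g := fun _ => (1 : ℝ)) (fun n _ => prob_le_one k q n)).trans ?_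
      rw [sum_const, Nat.card_Ioc, nsmul_eq_mul]
      simp
    have h2 : (0 : ℝ) ≤ ((0 * q : ℕ) : ℝ) ^ (1 / (k : ℝ)) := by positivity
    linarith
  | succ J ih =>
    have e1 : Ioc 0 ((J + 1 + 1) * q) = Ioc 0 ((J + 1) * q) ∪ Ioc ((J + 1) * q) ((J + 1 + 1) * q) := by
      rw [Ioc_union_Ioc_eq_Ioc (Nat.zero_le _) (Nat.mul_le_mul_right _ (by omega))]
    have e2 : Disjoint (Ioc 0 ((J + 1) * q)) (Ioc ((J + 1) * q) ((J + 1 + 1) * q)) := by
      rw [Finset.disjoint_left]
      intro a ha hb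
      rw [mem_Ioc] at ha hb
      omega
    rw [e1, sum_union e2]
    obtain ⟨m, hm⟩ : ∃ m : ℕ, m = (J + 1) * q := ⟨_, rfl⟩
    have hm1 : 1 ≤ m := by rw [hm]; exact Nat.mul_pos (by omega) hq
    have hm0 : (0 : ℝ) < m := by exact_mod_cast hm1
    have h3 : ∑ n ∈ Ioc ((J + 1) * q) ((J + 1 + 1) * q), prob k q n ≤ q * (1 / k * (m : ℝ) ^ (1 / (k : ℝ) - 1)) := by
      calc ∑ n ∈ Ioc ((J + 1) * q) ((J + 1 + 1) * q), prob k q n ≤
          ∑ n ∈ Ioc ((J + 1) * q) ((J + 1 + 1) * q), (pw k q n : ℝ) * (1 / k * (m : ℝ) ^ (1 / (k : ℝ) - 1)) := by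
            refine sum_le_sum (fun n hn => ?_)
            rw [mem_Ioc, ← hm] at hn
            unfold prob
            refine (min_le_right _ _).trans (mul_le_mul_of_nonneg_left (mul_le_mul_of_nonneg_left ?_ (by positivity)) (by positivity))
            exact Real.rpow_le_rpow_of_nonpos hm0 (by exact_mod_cast hn.1.le) hex
        _ = ((∑ n ∈ Ioc ((J + 1) * q) ((J + 1 + 1) * q), pw k q n : ℕ) : ℝ) * (1 / k * (m : ℝ) ^ (1 / (k : ℝ) - 1)) := by
            rw [← sum_mul]
            push_cast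
            rfl
        _ ≤ _ := by
            refine mul_le_mul_of_nonneg_right ?_ (by positivity)
            exact_mod_cast block k q (J + 1)
    -- Bernoulli
    have h4 : ((J * q : ℕ) : ℝ) ^ (1 / (k : ℝ)) ≤ (m : ℝ) ^ (1 / (k : ℝ)) - q * (1 / k * (m : ℝ) ^ (1 / (k : ℝ) - 1)) := by
      have h5 : ((J * q : ℕ) : ℝ) = m * (1 + (-(q : ℝ) / m)) := by
        have : (m : ℝ) = ((J * q : ℕ) : ℝ) + q := by rw [hm]; push_cast; ring
        field_simp
        linarith
      have h6 : (-1 : ℝ) ≤ -(q : ℝ) / m := by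
        rw [neg_div, neg_le_neg_iff, div_le_one hm0]
        have : q ≤ m := by rw [hm]; exact Nat.le_mul_of_pos_left _ (by omega)
        exact_mod_cast this
      have h7 := rpow_one_add_le_one_add_mul_self h6 (p := 1 / (k : ℝ)) (by positivity) h1k
      rw [h5, Real.mul_rpow hm0.le (by linarith)]
      have h8 : (m : ℝ) ^ (1 / (k : ℝ) - 1) = (m : ℝ) ^ (1 / (k : ℝ)) / m := by
        rw [Real.rpow_sub_one hm0.ne']
      rw [h8]
      calc (m : ℝ) ^ (1 / (k : ℝ)) * (1 + -(q : ℝ) / m) ^ (1 / (k : ℝ)) ≤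
          (m : ℝ) ^ (1 / (k : ℝ)) * (1 + 1 / (k : ℝ) * (-(q : ℝ) / m)) := mul_le_mul_of_nonneg_left h7 (by positivity)
        _ = _ := by ring
    rw [← hm]
    rw [← hm] at h3 ih
    linarith

theorem mean_le (hk : 2 ≤ k) (hq : 1 ≤ q) (N : ℕ) : ∑ n ∈ Icc 1 N, prob k q n ≤ q + (N : ℝ) ^ (1 / (k : ℝ)) := by
  have hk0 : (0 : ℝ) < k := by positivity
  obtain ⟨J, hJ⟩ : ∃ J, J = N / q := ⟨_, rfl⟩
  have h1 : J * q ≤ N := by rw [hJ]; exact Nat.div_mul_le_self _ _
  have h2 : N < (J + 1) * q := by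
    rw [hJ]
    have := Nat.lt_div_mul_add (a := N) (b := q) hq
    linarith [this, show (N / q + 1) * q = N / q * q + q by ring]
  refine le_trans (sum_le_sum_of_subset_of_nonneg (t := Ioc 0 ((J + 1) * q)) ?_ (fun n _ _ => prob_nonneg k q n))
    ((blocks hk hq J).trans ?_)
  · intro n hn
    rw [mem_Icc] at hn
    rw [mem_Ioc]
    omega
  · have : ((J * q : ℕ) : ℝ) ^ (1 / (k : ℝ)) ≤ (N : ℝ) ^ (1 / (k : ℝ)) :=
      Real.rpow_le_rpow (by positivity) (by exact_mod_cast h1) (by positivity)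
    linarith

/-- The number of the elements up to `N`. -/
noncomputable def cntA (S : Set ℕ) (N : ℕ) : ℕ := by
  classical
  exact ((Icc 1 N).filter (fun n => n ∈ S)).card

/-- **Almost surely the number of the elements is at most `(6/5) N^(1/k)`.** -/
theorem few {Ω : Type*} [MeasurableSpace Ω] {μ : Measure Ω} [IsProbabilityMeasure μ] {A : Ω → Set ℕ}
    (hA : IsModel μ (prob k q) A) (hk : 2 ≤ k) (hq : 1 ≤ q) : ∀ᵐ ω ∂μ, ∀ᶠ N : ℕ in atTop,
      (cntA (A ω) N : ℝ) ≤ 6 / 5 * (N : ℝ) ^ (1 / (k : ℝ)) := by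
  classical
  have hk0 : (0 : ℝ) < k := by positivity
  -- one length
  have h1 : ∀ N : ℕ, μ.real {ω | 6 / 5 * (N : ℝ) ^ (1 / (k : ℝ)) < (cntA (A ω) N : ℝ)} ≤
      Real.exp (1 / 10 * (q + (N : ℝ) ^ (1 / (k : ℝ))) - 1 / 11 * (6 / 5 * (N : ℝ) ^ (1 / (k : ℝ)))) := by
    intro N
    obtain ⟨y, hy⟩ : ∃ y : ℝ, y = 6 / 5 * (N : ℝ) ^ (1 / (k : ℝ)) := ⟨_, rfl⟩
    have hy0 : 0 ≤ y := by rw [hy]; positivity
    have h2 := Pool.Agent.Q106.UR.fam hA (Icc 1 N) (fun n => ({n} : Finset ℕ)) (m := q + (N : ℝ) ^ (1 / (k : ℝ))) (z := 11 / 10)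
      (by
        refine le_trans (le_of_eq ?_) (mean_le hk hq N)
        refine sum_congr rfl (fun n _ => ?_)
        unfold pT
        rw [prod_singleton]) (by norm_num) ⌈y⌉₊
    rw [← hy]
    refine le_trans (measureReal_mono ?_ (measure_ne_top _ _)) (h2.trans ?_)
    · intro ω hω
      refine ⟨oc A (Icc 1 N) (fun n => ({n} : Finset ℕ)) ω, subset_rfl, ?_, ?_⟩
      · have h3 : (oc A (Icc 1 N) (fun n => ({n} : Finset ℕ)) ω).card = cntA (A ω) N := by
          unfold cntA
          congr 1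
          ext n
          rw [mem_oc, mem_filter]
          refine and_congr_right (fun _ => ?_)
          exact ⟨fun h => h n (mem_singleton_self n), fun h i hi => by rw [mem_singleton.1 hi]; exact h⟩
        rw [h3]
        exact Nat.ceil_le.2 (le_of_lt hω)
      · intro i _ j _ hij
        rw [disjoint_singleton]
        exact hij
    · have h3 : Real.exp (1 / 11 * y) ≤ (11 / 10 : ℝ) ^ ⌈y⌉₊ := by
        have h4 : Real.exp (1 / 11) ≤ 11 / 10 := by
          have h5 : (1 : ℝ) - 1 / 11 ≤ Real.exp (-(1 / 11)) := by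
            have := Real.add_one_le_exp (-(1 / 11 : ℝ))
            linarith
          rw [Real.exp_neg] at h5
          have h6 : (0 : ℝ) < Real.exp (1 / 11) := Real.exp_pos _
          rw [le_inv_comm₀ (by norm_num) h6] at h5
          refine h5.trans (by norm_num)
        calc Real.exp (1 / 11 * y) ≤ Real.exp (1 / 11 * (⌈y⌉₊ : ℝ)) :=
              Real.exp_le_exp.2 (mul_le_mul_of_nonneg_left (Nat.le_ceil y) (by norm_num))
          _ = Real.exp (1 / 11) ^ ⌈y⌉₊ := by rw [← Real.exp_nat_mul]; congr 1; ring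
          _ ≤ _ := pow_le_pow_left₀ (Real.exp_pos _).le h4 _
      rw [div_le_iff₀ (by positivity), Real.exp_sub]
      have h5 : (0 : ℝ) < Real.exp (1 / 11 * y) := Real.exp_pos _
      rw [div_mul_eq_mul_div, le_div_iff₀ h5]
      have h6 : ((11 : ℝ) / 10 - 1) = 1 / 10 := by norm_num
      rw [h6]
      exact mul_le_mul_of_nonneg_left h3 (Real.exp_pos _).le
  -- summable
  have hlog : ∀ᶠ n : ℕ in atTop, Real.exp (1 / 10 * (q + (n : ℝ) ^ (1 / (k : ℝ))) - 1 / 11 * (6 / 5 * (n : ℝ) ^ (1 / (k : ℝ)))) ≤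
      ((n : ℝ) ^ 2)⁻¹ := by
    have g1 := (isLittleO_log_rpow_atTop (r := 1 / (k : ℝ)) (by positivity)).def (c := 1 / 1000) (by norm_num)
    have g2 := tendsto_natCast_atTop_atTop (R := ℝ) |>.eventually g1
    have g3 : Tendsto (fun n : ℕ => (n : ℝ) ^ (1 / (k : ℝ))) atTop atTop :=
      (tendsto_rpow_atTop (by positivity)).comp tendsto_natCast_atTop_atTop
    filter_upwards [g2, eventually_ge_atTop 1, g3.eventually_ge_atTop (1000 * q)] with n h3 h4 h5
    have hn0 : (0 : ℝ) < n := by exact_mod_cast h4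
    have hn1 : (1 : ℝ) ≤ n := by exact_mod_cast h4
    rw [Real.norm_of_nonneg (Real.log_nonneg hn1), Real.norm_of_nonneg (by positivity)] at h3
    rw [← Real.exp_log (show 0 < ((n : ℝ) ^ 2)⁻¹ by positivity), Real.log_inv, Real.log_pow]
    refine Real.exp_le_exp.2 ?_
    push_cast
    linarith
  obtain ⟨N₀, hN⟩ := eventually_atTop.1 hlog
  obtain ⟨E, hE⟩ : ∃ E : ℕ → Set Ω, E = fun n => {ω | N₀ ≤ n ∧ 6 / 5 * (n : ℝ) ^ (1 / (k : ℝ)) < (cntA (A ω) n : ℝ)} := ⟨_, rfl⟩
  have hsum : ∑' n, μ (E n) ≠ ⊤ := by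
    have hb : ∀ n, μ (E n) ≤ ENNReal.ofReal (((n : ℝ) ^ 2)⁻¹) := by
      intro n
      by_cases hn : N₀ ≤ n
      · have h2 : μ.real (E n) ≤ ((n : ℝ) ^ 2)⁻¹ := by
          refine le_trans (measureReal_mono ?_ (measure_ne_top _ _)) ((h1 n).trans (hN n hn))
          intro ω hω
          rw [hE] at hω
          exact hω.2
        rw [← ENNReal.ofReal_toReal (measure_ne_top μ (E n))]
        exact ENNReal.ofReal_le_ofReal h2
      · have : E n = ∅ := by
          rw [hE]
          ext ω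
          simp only [Set.mem_ofPred_eq, Set.mem_empty_iff_false, iff_false]
          exact fun h => hn h.1
        rw [this, measure_empty]
        exact zero_le
    have hs2 : Summable (fun n : ℕ => ((n : ℝ) ^ 2)⁻¹) := by simp
    refine ne_top_of_le_ne_top ?_ (ENNReal.tsum_le_tsum hb)
    exact hs2.tsum_ofReal_ne_top
  filter_upwards [ae_eventually_notMem hsum] with ω hω
  filter_upwards [hω, eventually_ge_atTop N₀] with n g1 g2
  by_contra hcon
  push Not at hcon
  refine g1 ?_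
  rw [hE]
  exact ⟨g2, hcon⟩

/-- The number of the sums of at most `k` elements. -/
theorem sums_le (S : Set ℕ) (k N : ℕ) : (by classical exact ((Icc 1 N).filter (fun n => SumOf S k n)).card : ℕ) ≤
    (cntA S N + k).choose k := by
  classical
  obtain ⟨B, hB⟩ : ∃ B : Finset ℕ, B = insert 0 ((Icc 1 N).filter (fun n => n ∈ S)) := ⟨_, rfl⟩
  have hc : B.card ≤ cntA S N + 1 := by
    rw [hB]
    refine (card_insert_le _ _).trans ?_
    unfold cntA
    exact le_refl _
  have h1 : ((Icc 1 N).filter (fun n => SumOf S k n)).card ≤ Fintype.card (Sym B k) := by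
    rw [← card_univ]
    refine le_trans (card_le_card (t := (univ : Finset (Sym B k)).image (fun m : Sym B k => (m.1.map (fun b => b.1)).sum)) ?_)
      card_image_le
    intro n hn
    rw [mem_filter, mem_Icc] at hn
    obtain ⟨a, ha, ha'⟩ := hn.2
    have hmem : ∀ i, a i ∈ B := by
      intro i
      rw [hB, mem_insert, mem_filter, mem_Icc]
      have hle := single_le_sum (f := a) (fun j _ => Nat.zero_le _) (mem_univ i)
      rcases ha i with h | h
      · left; exact h
      · rcases Nat.eq_zero_or_pos (a i) with h0 | h0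
        · left; exact h0
        · right
          exact ⟨⟨h0, by omega⟩, h⟩
    rw [mem_image]
    refine ⟨⟨Multiset.map (fun i : Fin k => (⟨a i, hmem i⟩ : B)) univ.val, by simp⟩, mem_univ _, ?_⟩
    simp only [Multiset.map_map, Function.comp]
    exact ha'
  refine h1.trans ?_
  rw [Sym.card_sym_eq_multichoose, Nat.multichoose_eq, Fintype.card_coe]
  exact Nat.choose_le_choose k (by omega)

end Pool.Agent.Q106.WG
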