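import Pool.Agent.Q106.WG.Jan

/-!
# The families of the representations
-/

set_option autoImplicit false

namespace Pool.Agent.Q106.WG

open Finset
open Pool.Agent.Q106.UR (pT cf sum_cf)

variable {r L q n : ℕ} {c : Fin r → ℕ}

/-- The first `r` summands. -/
def av (L q : ℕ) (c : Fin r → ℕ) (t : Fin r → ℕ) (i : Fin r) : ℕ := c i + q * (L * (i.1 + 1) + t i)

/-- All summands. -/
def vv (L q n : ℕ) (c : Fin r → ℕ) (t : Fin r → ℕ) : Fin (r + 1) → ℕ :=
  Fin.snoc (α := fun _ => ℕ) (av L q c t) (n - ∑ i, av L q c t i)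

/-- The set of the summands. -/
def TT (L q n : ℕ) (c : Fin r → ℕ) (t : Fin r → ℕ) : Finset ℕ := univ.image (vv L q n c t)

/-- The index set. -/
def JJ (r L : ℕ) : Finset (Fin r → ℕ) := Fintype.piFinset (fun _ => range L)

theorem mem_JJ {t : Fin r → ℕ} : t ∈ JJ r L ↔ ∀ i, t i < L := by
  unfold JJ
  rw [Fintype.mem_piFinset]
  simp only [mem_range]

theorem card_JJ : (JJ r L).card = L ^ r := by
  unfold JJ
  rw [Fintype.card_piFinset]
  simp

theorem vv_cast (t : Fin r → ℕ) (i : Fin r) : vv L q n c t i.castSucc = av L q c t i := by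
  unfold vv
  rw [Fin.snoc_castSucc]

theorem vv_last (t : Fin r → ℕ) : vv L q n c t (Fin.last r) = n - ∑ i, av L q c t i := by
  unfold vv
  rw [Fin.snoc_last]

/-- The hypotheses. -/
structure Ok (L q n : ℕ) (c : Fin r → ℕ) : Prop where
  hc : ∀ i, c i < q
  hL : 2 * (q * L * (r + 1) ^ 2) ≤ n
  hL1 : 1 ≤ L

theorem Ok.av_lt (h : Ok L q n c) {t : Fin r → ℕ} (ht : t ∈ JJ r L) (i : Fin r) : av L q c t i < q * L * (i.1 + 2) := by
  have h1 := h.hc i
  have h2 := mem_JJ.1 ht i
  unfold av
  have h3 : q * (t i + 1) ≤ q * L := Nat.mul_le_mul_left _ h2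
  calc c i + q * (L * (i.1 + 1) + t i) < q + q * (L * (i.1 + 1) + t i) := by omega
    _ = q * L * (i.1 + 1) + q * (t i + 1) := by ring
    _ ≤ q * L * (i.1 + 1) + q * L := by omega
    _ = _ := by ring

theorem le_av (t : Fin r → ℕ) (i : Fin r) : q * L * (i.1 + 1) ≤ av L q c t i := by
  unfold av
  have : q * (L * (i.1 + 1) + t i) = q * L * (i.1 + 1) + q * t i := by ring
  omega

theorem Ok.av_lt' (h : Ok L q n c) {t : Fin r → ℕ} (ht : t ∈ JJ r L) (i : Fin r) : av L q c t i < q * L * (r + 1) := by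
  have h1 := h.av_lt ht i
  have h2 : q * L * (i.1 + 2) ≤ q * L * (r + 1) := Nat.mul_le_mul_left _ (by have := i.2; omega)
  omega

theorem Ok.sum_le (h : Ok L q n c) {t : Fin r → ℕ} (ht : t ∈ JJ r L) : 2 * ∑ i, av L q c t i + 2 * (q * L * (r + 1)) ≤ n := by
  have h1 : ∑ i, av L q c t i ≤ r * (q * L * (r + 1)) := by
    calc ∑ i, av L q c t i ≤ ∑ _i : Fin r, q * L * (r + 1) := sum_le_sum (fun i _ => (h.av_lt' ht i).le)
      _ = r * (q * L * (r + 1)) := by rw [sum_const, card_univ, Fintype.card_fin, smul_eq_mul]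
  have h2 := h.hL
  have h3 : q * L * (r + 1) ^ 2 = r * (q * L * (r + 1)) + q * L * (r + 1) := by ring
  omega

theorem Ok.sum_vv (h : Ok L q n c) {t : Fin r → ℕ} (ht : t ∈ JJ r L) : ∑ i, vv L q n c t i = n := by
  rw [Fin.sum_univ_castSucc, vv_last]
  simp only [vv_cast]
  have := h.sum_le ht
  omega

theorem Ok.le_last (h : Ok L q n c) {t : Fin r → ℕ} (ht : t ∈ JJ r L) : q * L * (r + 1) ≤ vv L q n c t (Fin.last r) := by
  rw [vv_last]
  have := h.sum_le ht
  omega

theorem Ok.inj (h : Ok L q n c) {t t' : Fin r → ℕ} (ht : t ∈ JJ r L) (ht' : t' ∈ JJ r L) {i j : Fin (r + 1)}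
    (e : vv L q n c t i = vv L q n c t' j) : i = j := by
  induction i using Fin.lastCases with
  | last =>
    induction j using Fin.lastCases with
    | last => rfl
    | cast j =>
      exfalso
      have h1 := h.le_last ht
      rw [e, vv_cast] at h1
      have h2 := h.av_lt' ht' j
      omega
  | cast i =>
    induction j using Fin.lastCases with
    | last =>
      exfalso
      have h1 := h.le_last ht'
      rw [← e, vv_cast] at h1
      have h2 := h.av_lt' ht i
      omega
    | cast j =>
      rw [vv_cast, vv_cast] at e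
      have h1 := h.av_lt ht i
      have h2 := h.av_lt ht' j
      have h3 := le_av (L := L) (q := q) (c := c) t i
      have h4 := le_av (L := L) (q := q) (c := c) t' j
      rcases Nat.lt_trichotomy i.1 j.1 with h5 | h5 | h5
      · exfalso
        have : q * L * (i.1 + 2) ≤ q * L * (j.1 + 1) := Nat.mul_le_mul_left _ (by omega)
        omega
      · congr 1
        exact Fin.ext h5
      · exfalso
        have : q * L * (j.1 + 2) ≤ q * L * (i.1 + 1) := Nat.mul_le_mul_left _ (by omega)
        omega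

theorem Ok.q_pos (h : Ok L q n c) (hr : 1 ≤ r) : 1 ≤ q := by
  have := h.hc ⟨0, hr⟩
  omega

theorem av_inj (hq : 1 ≤ q) {t t' : Fin r → ℕ} {i : Fin r} (e : av L q c t i = av L q c t' i) : t i = t' i := by
  unfold av at e
  have h1 : q * (L * (i.1 + 1) + t i) = q * (L * (i.1 + 1) + t' i) := by omega
  have h2 := Nat.eq_of_mul_eq_mul_left (show 0 < q by omega) h1
  omega

/-- The positions at which two elements of the family agree. -/
def eqs (L q n : ℕ) (c : Fin r → ℕ) (t t' : Fin r → ℕ) : Finset (Fin (r + 1)) :=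
  univ.filter (fun i => vv L q n c t i = vv L q n c t' i)

theorem mem_eqs {t t' : Fin r → ℕ} {i : Fin (r + 1)} : i ∈ eqs L q n c t t' ↔ vv L q n c t i = vv L q n c t' i := by
  unfold eqs
  rw [mem_filter]
  exact ⟨fun h => h.2, fun h => ⟨mem_univ _, h⟩⟩

theorem Ok.eq_of_card (h : Ok L q n c) (hr : 1 ≤ r) {t t' : Fin r → ℕ} (ht : t ∈ JJ r L) (ht' : t' ∈ JJ r L)
    (hc : r ≤ (eqs L q n c t t').card) : t = t' := by
  have hall : ∀ i, vv L q n c t i = vv L q n c t' i := by
    by_contra hcon
    push Not at hcon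
    obtain ⟨i, hi⟩ := hcon
    have h1 : eqs L q n c t t' = univ.erase i := by
      refine eq_of_subset_of_card_le ?_ ?_
      · intro j hj
        rw [mem_erase]
        refine ⟨?_, mem_univ _⟩
        rintro rfl
        exact hi (mem_eqs.1 hj)
      · rw [card_erase_of_mem (mem_univ _), card_univ, Fintype.card_fin]
        omega
    have h2 := h.sum_vv ht
    have h3 := h.sum_vv ht'
    rw [← add_sum_erase _ _ (mem_univ i), ← h1] at h2 h3
    have h4 : ∑ j ∈ eqs L q n c t t', vv L q n c t j = ∑ j ∈ eqs L q n c t t', vv L q n c t' j :=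
      sum_congr rfl (fun j hj => mem_eqs.1 hj)
    omega
  funext i
  have := hall i.castSucc
  rw [vv_cast, vv_cast] at this
  exact av_inj (h.q_pos hr) this

theorem Ok.card_TT (h : Ok L q n c) {t : Fin r → ℕ} (ht : t ∈ JJ r L) : (TT L q n c t).card = r + 1 := by
  unfold TT
  rw [card_image_of_injective, card_univ, Fintype.card_fin]
  intro i j e
  exact h.inj ht ht e

theorem Ok.card_inter (h : Ok L q n c) {t t' : Fin r → ℕ} (ht : t ∈ JJ r L) (ht' : t' ∈ JJ r L) :
    (TT L q n c t ∩ TT L q n c t').card ≤ (eqs L q n c t t').card := by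
  refine le_trans (card_le_card (t := (eqs L q n c t t').image (vv L q n c t)) ?_) card_image_le
  intro a ha
  rw [mem_inter] at ha
  unfold TT at ha
  rw [mem_image, mem_image] at ha
  obtain ⟨⟨i, _, hi⟩, ⟨j, _, hj⟩⟩ := ha
  have h1 : i = j := h.inj ht ht' (hi.trans hj.symm)
  subst h1
  rw [mem_image]
  exact ⟨i, mem_eqs.2 (hi.trans hj.symm), hi⟩

/-- The number of the elements which agree with `t` at the positions of `F`. -/
theorem Ok.count (h : Ok L q n c) (hr : 1 ≤ r) {t : Fin r → ℕ} (ht : t ∈ JJ r L) {F : Finset (Fin (r + 1))} (hF : F.card < r) :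
    ((JJ r L).filter (fun t' => F ⊆ eqs L q n c t t')).card ≤ L ^ (r - F.card) := by
  classical
  obtain ⟨F₀, hF₀⟩ : ∃ F₀ : Finset (Fin r), F₀ = univ.filter (fun i => i.castSucc ∈ F) := ⟨_, rfl⟩
  have hmem : ∀ i, i ∈ F₀ ↔ i.castSucc ∈ F := fun i => by rw [hF₀, mem_filter]; simp
  have hcast : (F₀.map Fin.castSuccEmb) ⊆ F := by
    intro a ha
    rw [mem_map] at ha
    obtain ⟨i, hi, rfl⟩ := ha
    exact (hmem i).1 hi
  have agree : ∀ t', F ⊆ eqs L q n c t t' → ∀ i ∈ F₀, t' i = t i := by
    intro t' ht' i hi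
    have h1 := mem_eqs.1 (ht' ((hmem i).1 hi))
    rw [vv_cast, vv_cast] at h1
    exact (av_inj (h.q_pos hr) h1).symm
  -- the general bound for a set `W` of free coordinates
  have gen : ∀ W : Finset (Fin r), (∀ t₁ ∈ JJ r L, ∀ t₂ ∈ JJ r L, F ⊆ eqs L q n c t t₁ → F ⊆ eqs L q n c t t₂ →
      (∀ i ∈ W, t₁ i = t₂ i) → t₁ = t₂) → ((JJ r L).filter (fun t' => F ⊆ eqs L q n c t t')).card ≤ L ^ W.card := by
    intro W hW
    have h1 : (Fintype.piFinset (fun _ : W => range L)).card = L ^ W.card := by
      rw [Fintype.card_piFinset]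
      simp
    rw [← h1]
    refine card_le_card_of_injOn (fun t' (i : W) => t' i.1) ?_ ?_
    · intro t' ht'
      rw [mem_coe, mem_filter] at ht'
      rw [mem_coe, Fintype.mem_piFinset]
      intro i
      rw [mem_range]
      exact mem_JJ.1 ht'.1 _
    · intro t₁ h1 t₂ h2 e
      rw [mem_coe, mem_filter] at h1 h2
      refine hW t₁ h1.1 t₂ h2.1 h1.2 h2.2 (fun i hi => ?_)
      exact congrFun e ⟨i, hi⟩
  by_cases hl : Fin.last r ∈ F
  · -- one free coordinate is determined by the sum
    have hF1 : F₀.card + 1 ≤ F.card := by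
      have h1 : (F₀.map Fin.castSuccEmb) ⊆ F.erase (Fin.last r) := by
        intro a ha
        rw [mem_erase]
        refine ⟨?_, hcast ha⟩
        rw [mem_map] at ha
        obtain ⟨i, _, rfl⟩ := ha
        exact (Fin.castSucc_lt_last i).ne
      have h2 := card_le_card h1
      rw [card_map, card_erase_of_mem hl] at h2
      have := card_pos.2 ⟨_, hl⟩
      omega
    have hF2 : F.card ≤ F₀.card + 1 := by
      have h1 : F ⊆ insert (Fin.last r) (F₀.map Fin.castSuccEmb) := by
        intro a ha
        rw [mem_insert]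
        induction a using Fin.lastCases with
        | last => left; rfl
        | cast i =>
          right
          rw [mem_map]
          exact ⟨i, (hmem i).2 ha, rfl⟩
      refine (card_le_card h1).trans ((card_insert_le _ _).trans ?_)
      rw [card_map]
    obtain ⟨i₀, hi₀⟩ : ∃ i₀, i₀ ∉ F₀ := by
      by_contra hcon
      push Not at hcon
      have : F₀ = univ := eq_univ_iff_forall.2 hcon
      rw [this, card_univ, Fintype.card_fin] at hF1
      omega
    have hW := gen ((univ \ F₀).erase i₀) ?_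
    · refine hW.trans (le_of_eq ?_)
      congr 1
      rw [card_erase_of_mem (by rw [mem_sdiff]; exact ⟨mem_univ _, hi₀⟩), card_sdiff_of_subset (subset_univ _), card_univ,
        Fintype.card_fin]
      omega
    · intro t₁ h1 t₂ h2 g1 g2 e
      have e' : ∀ i, i ≠ i₀ → t₁ i = t₂ i := by
        intro i hi
        by_cases h3 : i ∈ F₀
        · rw [agree t₁ g1 i h3, agree t₂ g2 i h3]
        · exact e i (by rw [mem_erase, mem_sdiff]; exact ⟨hi, mem_univ _, h3⟩)
      have k1 := mem_eqs.1 (g1 hl)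
      have k2 := mem_eqs.1 (g2 hl)
      rw [vv_last, vv_last] at k1 k2
      have s0 := h.sum_le ht
      have s1 := h.sum_le h1
      have s2 := h.sum_le h2
      have k3 : ∑ i, av L q c t₁ i = ∑ i, av L q c t₂ i := by omega
      have k4 : av L q c t₁ i₀ = av L q c t₂ i₀ := by
        rw [← add_sum_erase _ _ (mem_univ i₀), ← add_sum_erase _ (fun i => av L q c t₂ i) (mem_univ i₀)] at k3
        have k5 : ∑ i ∈ univ.erase i₀, av L q c t₁ i = ∑ i ∈ univ.erase i₀, av L q c t₂ i := by
          refine sum_congr rfl (fun i hi => ?_)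
          rw [mem_erase] at hi
          unfold av
          rw [e' i hi.1]
        omega
      funext i
      rcases eq_or_ne i i₀ with rfl | hi
      · exact av_inj (h.q_pos hr) k4
      · exact e' i hi
  · have hF1 : F.card ≤ F₀.card := by
      have h1 : F ⊆ F₀.map Fin.castSuccEmb := by
        intro a ha
        induction a using Fin.lastCases with
        | last => exact absurd ha hl
        | cast i =>
          rw [mem_map]
          exact ⟨i, (hmem i).2 ha, rfl⟩
      have := card_le_card h1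
      rwa [card_map] at this
    have hF2 : F₀.card ≤ F.card := by
      have := card_le_card hcast
      rwa [card_map] at this
    have hW := gen (univ \ F₀) ?_
    · refine hW.trans (le_of_eq ?_)
      congr 1
      rw [card_sdiff_of_subset (subset_univ _), card_univ, Fintype.card_fin]
      omega
    · intro t₁ _ t₂ _ g1 g2 e
      funext i
      by_cases h3 : i ∈ F₀
      · rw [agree t₁ g1 i h3, agree t₂ g2 i h3]
      · exact e i (by rw [mem_sdiff]; exact ⟨mem_univ _, h3⟩)

variable {p : ℕ → ℝ}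

theorem Ok.pT_TT (h : Ok L q n c) {t : Fin r → ℕ} (ht : t ∈ JJ r L) : pT p (TT L q n c t) = ∏ i, p (vv L q n c t i) := by
  unfold pT TT
  rw [prod_image (fun i _ j _ e => h.inj ht ht e)]

/-- The lower bound of the mean. -/
theorem Ok.mean (h : Ok L q n c) {lo : ℝ} (hlo : 0 ≤ lo) (hp : ∀ t ∈ JJ r L, ∀ i, lo ≤ p (vv L q n c t i)) :
    (L : ℝ) ^ r * lo ^ (r + 1) ≤ ∑ t ∈ JJ r L, pT p (TT L q n c t) := by
  calc (L : ℝ) ^ r * lo ^ (r + 1) = ∑ _t ∈ JJ r L, lo ^ (r + 1) := by
        rw [sum_const, card_JJ, nsmul_eq_mul]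
        push_cast
        ring
    _ ≤ _ := by
        refine sum_le_sum (fun t ht => ?_)
        rw [h.pT_TT ht]
        calc lo ^ (r + 1) = ∏ _i : Fin (r + 1), lo := by rw [prod_const, card_univ, Fintype.card_fin]
          _ ≤ _ := prod_le_prod (fun _ _ => hlo) (fun i _ => hp t ht i)

/-- The bound for the pairs. -/
theorem Ok.pairs (h : Ok L q n c) (hr : 2 ≤ r) {P : ℝ} (hp0 : ∀ m, 0 ≤ p m) (hP1 : P ≤ 1)
    (hp : ∀ t ∈ JJ r L, ∀ i, p (vv L q n c t i) ≤ P) (hLP : 1 ≤ L * P) :
    ∑ e ∈ cf (JJ r L) (TT L q n c), pT p (TT L q n c e.1 ∪ TT L q n c e.2) ≤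
      (2 ^ (r + 1) * (P * (L * P) ^ (r - 1))) * ∑ t ∈ JJ r L, pT p (TT L q n c t) := by
  classical
  have hL1 : (0 : ℝ) < L := by have := h.hL1; positivity
  have hP0 : 0 < P := by
    by_contra hcon
    push Not at hcon
    have : (L : ℝ) * P ≤ 0 := mul_nonpos_of_nonneg_of_nonpos hL1.le hcon
    linarith
  have hpT : ∀ T : Finset ℕ, 0 ≤ pT p T := fun T => prod_nonneg (fun i _ => hp0 i)
  rw [sum_cf, mul_sum]
  refine sum_le_sum (fun t ht => ?_)
  -- one element
  have h1 : ∀ t' ∈ (JJ r L).filter (fun t' => t ≠ t' ∧ ¬ Disjoint (TT L q n c t) (TT L q n c t')),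
      pT p (TT L q n c t ∪ TT L q n c t') ≤ pT p (TT L q n c t) * P ^ (r + 1 - (eqs L q n c t t').card) := by
    intro t' ht'
    rw [mem_filter] at ht'
    have e1 : TT L q n c t ∪ TT L q n c t' = TT L q n c t ∪ (TT L q n c t' \ TT L q n c t) := by
      rw [union_sdiff_self_eq_union]
    rw [e1]
    unfold pT
    rw [prod_union disjoint_sdiff]
    refine mul_le_mul_of_nonneg_left ?_ (hpT _)
    have e2 : r + 1 - (eqs L q n c t t').card ≤ (TT L q n c t' \ TT L q n c t).card := by
      rw [card_sdiff, h.card_TT ht'.1]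
      have := h.card_inter ht ht'.1
      omega
    calc ∏ i ∈ TT L q n c t' \ TT L q n c t, p i ≤ ∏ _i ∈ TT L q n c t' \ TT L q n c t, P := by
          refine prod_le_prod (fun i _ => hp0 i) (fun i hi => ?_)
          rw [mem_sdiff] at hi
          have h3 := hi.1
          unfold TT at h3
          rw [mem_image] at h3
          obtain ⟨j, _, rfl⟩ := h3
          exact hp t' ht'.1 j
      _ = P ^ (TT L q n c t' \ TT L q n c t).card := by rw [prod_const]
      _ ≤ _ := pow_le_pow_of_le_one hP0.le hP1 e2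
  refine (sum_le_sum h1).trans ?_
  rw [← mul_sum, mul_comm]
  refine mul_le_mul_of_nonneg_right ?_ (hpT _)
  -- sum over the sets of positions
  obtain ⟨FF, hFF⟩ : ∃ FF : Finset (Finset (Fin (r + 1))), FF = univ.filter (fun F => 1 ≤ F.card ∧ F.card < r) := ⟨_, rfl⟩
  have h2 : ∑ t' ∈ (JJ r L).filter (fun t' => t ≠ t' ∧ ¬ Disjoint (TT L q n c t) (TT L q n c t')),
      P ^ (r + 1 - (eqs L q n c t t').card) ≤
      ∑ F ∈ FF, ∑ t' ∈ (JJ r L).filter (fun t' => F ⊆ eqs L q n c t t'), P ^ (r + 1 - F.card) := by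
    rw [← sum_fiberwise_of_maps_to (s := (JJ r L).filter (fun t' => t ≠ t' ∧ ¬ Disjoint (TT L q n c t) (TT L q n c t')))
      (t := FF) (g := fun t' => eqs L q n c t t')]
    · refine sum_le_sum (fun F _ => ?_)
      refine le_trans (sum_le_sum_of_subset_of_nonneg (t := (JJ r L).filter (fun t' => F = eqs L q n c t t')) ?_ ?_) ?_
      · intro t' ht'
        rw [mem_filter, mem_filter] at ht'
        rw [mem_filter]
        exact ⟨ht'.1.1, ht'.2.symm⟩
      · intro t' _ _
        positivity
      · calc ∑ t' ∈ (JJ r L).filter (fun t' => F = eqs L q n c t t'), P ^ (r + 1 - (eqs L q n c t t').card) =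
            ∑ t' ∈ (JJ r L).filter (fun t' => F = eqs L q n c t t'), P ^ (r + 1 - F.card) := by
              refine sum_congr rfl (fun t' ht' => ?_)
              rw [mem_filter] at ht'
              rw [← ht'.2]
          _ ≤ _ := by
              refine sum_le_sum_of_subset_of_nonneg ?_ (fun _ _ _ => by positivity)
              intro t' ht'
              rw [mem_filter] at ht' ⊢
              exact ⟨ht'.1, ht'.2.subset⟩
    · intro t' ht'
      rw [mem_filter] at ht'
      rw [hFF, mem_filter]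
      refine ⟨mem_univ _, ?_, ?_⟩
      · have h3 := h.card_inter ht ht'.1
        have h4 : 0 < (TT L q n c t ∩ TT L q n c t').card := by
          rw [card_pos]
          exact Finset.not_disjoint_iff_nonempty_inter.1 ht'.2.2
        omega
      · by_contra hcon
        push Not at hcon
        exact ht'.2.1 (h.eq_of_card (by omega) ht ht'.1 hcon)
  refine h2.trans ?_
  calc ∑ F ∈ FF, ∑ t' ∈ (JJ r L).filter (fun t' => F ⊆ eqs L q n c t t'), P ^ (r + 1 - F.card) ≤
      ∑ _F ∈ FF, P * (L * P) ^ (r - 1) := by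
        refine sum_le_sum (fun F hF => ?_)
        rw [hFF, mem_filter] at hF
        rw [sum_const, nsmul_eq_mul]
        have h3 := h.count (by omega) ht hF.2.2
        calc (((JJ r L).filter (fun t' => F ⊆ eqs L q n c t t')).card : ℝ) * P ^ (r + 1 - F.card) ≤
            ((L : ℝ) ^ (r - F.card)) * P ^ (r + 1 - F.card) := by
              refine mul_le_mul_of_nonneg_right ?_ (by positivity)
              exact_mod_cast h3
          _ = P * (L * P) ^ (r - F.card) := by
              rw [show r + 1 - F.card = (r - F.card) + 1 by omega, pow_succ, mul_pow]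
              ring
          _ ≤ P * (L * P) ^ (r - 1) := by
              refine mul_le_mul_of_nonneg_left ?_ hP0.le
              exact pow_le_pow_right₀ hLP (by omega)
    _ = FF.card * (P * (L * P) ^ (r - 1)) := by rw [sum_const, nsmul_eq_mul]
    _ ≤ 2 ^ (r + 1) * (P * (L * P) ^ (r - 1)) := by
        refine mul_le_mul_of_nonneg_right ?_ (by positivity)
        have h4 : FF.card ≤ 2 ^ (r + 1) := by
          refine (card_le_univ FF).trans ?_
          rw [Fintype.card_finset, Fintype.card_fin]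
        exact_mod_cast h4

end Pool.Agent.Q106.WG
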