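import Pool.Agent.Q106.WG.Cnt

/-!
# Few representations are improbable, for all probabilities of the right size
-/

set_option autoImplicit false

namespace Pool.Agent.Q106.WG

open Finset MeasureTheory ProbabilityTheory Filter Pool.Agent.Q120.GM
open scoped Topology
open Pool.Agent.Q106.UR (ind nm pT cf pT_nonneg pT_le_one ind_zero_or ind_nonneg ind_le_one)

/-- The elements of `S` of size comparable with `n`. -/
def big (r n : ℕ) (S : Set ℕ) : Set ℕ := {a | a ∈ S ∧ n ≤ 4 * (r + 1) ^ 2 * a}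

theorem nm_le_big {Ω : Type*} {A : Ω → Set ℕ} {r L q n : ℕ} {c : Fin r → ℕ} (h : Ok L q n c) (hr : 1 ≤ r)
    (hb : ∀ t ∈ JJ r L, ∀ i, n ≤ 4 * (r + 1) ^ 2 * vv L q n c t i) (ω : Ω) :
    nm A (JJ r L) (TT L q n c) ω ≤ reps (big r n (A ω)) (r + 1) n := by
  classical
  refine le_trans ?_ (nm_le_reps (A := fun ω => big r n (A ω)) h hr ω)
  unfold nm
  refine sum_le_sum (fun t ht => ?_)
  rcases ind_zero_or (A := A) (TT L q n c t) ω with h1 | h1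
  · rw [h1.1]
    rcases ind_zero_or (A := fun ω => big r n (A ω)) (TT L q n c t) ω with h2 | h2
    · rw [h2.1]
    · rw [h2.1]
      norm_num
  · rcases ind_zero_or (A := fun ω => big r n (A ω)) (TT L q n c t) ω with h2 | h2
    · exfalso
      refine h2.2 (fun i hi => ⟨h1.2 i hi, ?_⟩)
      unfold TT at hi
      rw [mem_image] at hi
      obtain ⟨j, _, rfl⟩ := hi
      exact hb t ht j
    · rw [h1.1, h2.1]

variable {k q r : ℕ}

theorem sizes' (hq : 1 ≤ q) {n : ℕ} (hn : 4 * (q * (r + 1) ^ 2) ≤ n) {x : Fin (r + 1) → ℕ}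
    (hx : ∑ i, x i ^ k ≡ n [MOD q]) : ∃ L : ℕ, Ok L q n (fun i : Fin r => x i.castSucc ^ k % q) ∧ (L : ℝ) ≤ n ∧
      (n : ℝ) / (4 * (q * (r + 1) ^ 2)) ≤ L ∧ ∀ t ∈ JJ r L, ∀ i,
        n ≤ 4 * (r + 1) ^ 2 * vv L q n (fun i : Fin r => x i.castSucc ^ k % q) t i ∧
        vv L q n (fun i : Fin r => x i.castSucc ^ k % q) t i ≤ n ∧
        1 ≤ pw k q (vv L q n (fun i : Fin r => x i.castSucc ^ k % q) t i) := by
  have hM : 0 < 2 * (q * (r + 1) ^ 2) := by positivity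
  obtain ⟨L, hL⟩ : ∃ L, L = n / (2 * (q * (r + 1) ^ 2)) := ⟨_, rfl⟩
  have h1 : L * (2 * (q * (r + 1) ^ 2)) ≤ n := by rw [hL]; exact Nat.div_mul_le_self _ _
  have h2 : n < L * (2 * (q * (r + 1) ^ 2)) + 2 * (q * (r + 1) ^ 2) := by
    rw [hL]
    exact Nat.lt_div_mul_add hM
  have hL1 : 1 ≤ L := by
    by_contra hcon
    have : L = 0 := by omega
    rw [this] at h2
    omega
  have hok : Ok L q n (fun i : Fin r => x i.castSucc ^ k % q) := by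
    refine ⟨fun i => Nat.mod_lt _ hq, ?_, hL1⟩
    calc 2 * (q * L * (r + 1) ^ 2) = L * (2 * (q * (r + 1) ^ 2)) := by ring
      _ ≤ n := h1
  have h3 : n ≤ L * (4 * (q * (r + 1) ^ 2)) := by
    have : 2 * (q * (r + 1) ^ 2) ≤ L * (2 * (q * (r + 1) ^ 2)) := Nat.le_mul_of_pos_left _ hL1
    have e : L * (4 * (q * (r + 1) ^ 2)) = L * (2 * (q * (r + 1) ^ 2)) + L * (2 * (q * (r + 1) ^ 2)) := by ring
    omega
  have hLn : (n : ℝ) / (4 * (q * (r + 1) ^ 2)) ≤ L := by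
    rw [div_le_iff₀ (by positivity)]
    exact_mod_cast h3
  refine ⟨L, hok, ?_, hLn, ?_⟩
  · have : L ≤ n := by
      calc L ≤ L * (2 * (q * (r + 1) ^ 2)) := Nat.le_mul_of_pos_right _ hM
        _ ≤ n := h1
    exact_mod_cast this
  · intro t ht i
    obtain ⟨a, ha⟩ : ∃ a, a = vv L q n (fun i : Fin r => x i.castSucc ^ k % q) t i := ⟨_, rfl⟩
    have ha1 : q * L ≤ a := by
      rw [ha]
      induction i using Fin.lastCases with
      | last =>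
        have := hok.le_last ht
        have e : q * L ≤ q * L * (r + 1) := Nat.le_mul_of_pos_right _ (by omega)
        omega
      | cast i =>
        rw [vv_cast]
        have := le_av (L := L) (q := q) (c := fun i : Fin r => x i.castSucc ^ k % q) t i
        have e : q * L ≤ q * L * (i.1 + 1) := Nat.le_mul_of_pos_right _ (by omega)
        omega
    have ha2 : a ≤ n := by
      rw [ha]
      have h3 := hok.sum_vv ht
      have := single_le_sum (f := vv L q n (fun i : Fin r => x i.castSucc ^ k % q) t) (fun j _ => Nat.zero_le _) (mem_univ i)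
      omega
    have hpw : 1 ≤ pw k q a := by
      have := residues hq hx hok ht i
      rw [← ha] at this
      exact pw_pos hq this
    rw [← ha]
    refine ⟨?_, ha2, hpw⟩
    calc n ≤ L * (4 * (q * (r + 1) ^ 2)) := h3
      _ = 4 * (r + 1) ^ 2 * (q * L) := by ring
      _ ≤ 4 * (r + 1) ^ 2 * a := Nat.mul_le_mul_left _ ha1

/-- The constants. -/
noncomputable def d2 (k q r : ℕ) : ℝ := (1 / (4 * ((q : ℝ) * ((r : ℝ) + 1) ^ 2))) ^ r * (1 / (k : ℝ)) ^ (r + 1)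

theorem d2_pos (hk : 2 ≤ k) (hq : 1 ≤ q) : 0 < d2 k q r := by
  unfold d2
  have : (0 : ℝ) < k := by positivity
  have : (0 : ℝ) < q := by positivity
  positivity

/-- The constants. -/
noncomputable def d3 (r : ℕ) (c₁ : ℝ) : ℝ := 2 ^ (r + 1) * (c₁ * c₁ ^ (r - 1))

/-- **The probability of few representations by large elements.** -/
theorem gen_bound {Ω : Type*} [MeasurableSpace Ω] {μ : Measure Ω} [IsProbabilityMeasure μ] {A : Ω → Set ℕ} {p : ℕ → ℝ}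
    (hA : IsModel μ p A) (hk : 2 ≤ k) (hq : 1 ≤ q) (hr : k ≤ r) {n : ℕ} (hn : 4 * (q * (r + 1) ^ 2) ≤ n)
    (hs : SumMod k q (r + 1) n) {c₁ : ℝ} (hc₁0 : 0 < c₁)
    (hp : ∀ a, n ≤ 4 * (r + 1) ^ 2 * a → a ≤ n → 1 ≤ pw k q a →
      1 / k * (n : ℝ) ^ (1 / (k : ℝ) - 1) ≤ p a ∧ p a ≤ c₁ * (n : ℝ) ^ (1 / (k : ℝ) - 1))
    (h1 : c₁ * (n : ℝ) ^ (1 / (k : ℝ) - 1) ≤ 1) (h2 : 1 ≤ 1 / (4 * ((q : ℝ) * ((r : ℝ) + 1) ^ 2)) * c₁ * (n : ℝ) ^ (1 / (k : ℝ))) :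
    μ.real {ω | (reps (big r n (A ω)) (r + 1) n : ℝ) < d2 k q r / 2 * (n : ℝ) ^ (((r : ℝ) + 1) / k - 1)} ≤
      Real.exp (-(d2 k q r / (8 * (2 * d3 r c₁ + 1)) * (n : ℝ) ^ (1 / (k : ℝ)))) := by
  have hk0 : (0 : ℝ) < k := by positivity
  have hk1 : (1 : ℝ) < k := by exact_mod_cast (by omega : 1 < k)
  have hq0 : (0 : ℝ) < q := by positivity
  obtain ⟨M, hM⟩ : ∃ M : ℝ, M = 4 * (q * ((r : ℝ) + 1) ^ 2) := ⟨_, rfl⟩
  have hM0 : 0 < M := by rw [hM]; positivity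
  obtain ⟨c₂, hc₂⟩ : ∃ c₂ : ℝ, c₂ = d2 k q r := ⟨_, rfl⟩
  have hc₂0 : 0 < c₂ := by rw [hc₂]; exact d2_pos hk hq
  obtain ⟨c₃, hc₃⟩ : ∃ c₃ : ℝ, c₃ = d3 r c₁ := ⟨_, rfl⟩
  have hc₃0 : 0 < c₃ := by rw [hc₃]; unfold d3; positivity
  rw [← hc₂, ← hc₃]
  unfold d2 at hc₂
  unfold d3 at hc₃
  rw [← hM] at hc₂ h2
  have h4 : 1 ≤ n := by
    have : 0 < 4 * (q * (r + 1) ^ 2) := by positivity
    omega
  have hn0 : (0 : ℝ) < n := by exact_mod_cast h4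
  have hn1 : (1 : ℝ) ≤ n := by exact_mod_cast h4
  obtain ⟨x, hx⟩ := hs
  obtain ⟨L, hok, hLn, hL, hsz⟩ := sizes' hq hn hx
  obtain ⟨c, hc⟩ : ∃ c : Fin r → ℕ, c = fun i : Fin r => x i.castSucc ^ k % q := ⟨_, rfl⟩
  rw [← hc] at hok hsz
  have hp' : ∀ t ∈ JJ r L, ∀ i, 1 / k * (n : ℝ) ^ (1 / (k : ℝ) - 1) ≤ p (vv L q n c t i) ∧
      p (vv L q n c t i) ≤ c₁ * (n : ℝ) ^ (1 / (k : ℝ) - 1) := by
    intro t ht i
    obtain ⟨g1, g2, g3⟩ := hsz t ht i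
    exact hp _ g1 g2 g3
  obtain ⟨P, hP⟩ : ∃ P, P = c₁ * (n : ℝ) ^ (1 / (k : ℝ) - 1) := ⟨_, rfl⟩
  rw [← hP] at hp' h1
  have hP0 : 0 < P := by rw [hP]; positivity
  rw [← hM] at hL
  have hL0 : (0 : ℝ) < L := lt_of_lt_of_le (by positivity) hL
  have hnn : (n : ℝ) * (n : ℝ) ^ (1 / (k : ℝ) - 1) = (n : ℝ) ^ (1 / (k : ℝ)) := by
    rw [← Real.rpow_one_add' hn0.le]
    · congr 1
      ring
    · have : (0 : ℝ) < 1 / k := by positivity
      linarith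
  have hLP : 1 ≤ L * P := by
    refine h2.trans ?_
    calc 1 / M * c₁ * (n : ℝ) ^ (1 / (k : ℝ)) = (n / M) * P := by rw [← hnn, hP]; ring
      _ ≤ L * P := mul_le_mul_of_nonneg_right hL hP0.le
  have hpair := hok.pairs (by omega) (fun m => by rw [← hA.prob m]; exact measureReal_nonneg) h1
    (fun t ht i => (hp' t ht i).2) hLP
  have hmean := hok.mean (lo := 1 / k * (n : ℝ) ^ (1 / (k : ℝ) - 1)) (by positivity) (fun t ht i => (hp' t ht i).1)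
  obtain ⟨m, hm⟩ : ∃ m, m = ∑ t ∈ JJ r L, pT p (TT L q n c t) := ⟨_, rfl⟩
  rw [← hm] at hpair hmean
  -- the mean
  have hm1 : c₂ * (n : ℝ) ^ (((r : ℝ) + 1) / k - 1) ≤ m := by
    refine le_trans (le_of_eq ?_) ((mul_le_mul_of_nonneg_right (pow_le_pow_left₀ (by positivity) hL r) (by positivity)).trans hmean)
    have e0 : ((n : ℝ) / M) ^ r = (1 / M) ^ r * (n : ℝ) ^ (r : ℝ) := by
      rw [Real.rpow_natCast, ← mul_pow]
      congr 1
      ring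
    rw [hc₂, mul_pow, e0, ← Real.rpow_natCast ((n : ℝ) ^ (1 / (k : ℝ) - 1)), ← Real.rpow_mul hn0.le]
    have e1 : (n : ℝ) ^ (((r : ℝ) + 1) / k - 1) = (n : ℝ) ^ (r : ℝ) * (n : ℝ) ^ ((1 / (k : ℝ) - 1) * ((r + 1 : ℕ) : ℝ)) := by
      rw [← Real.rpow_add hn0]
      congr 1
      push_cast
      field_simp
      ring
    rw [e1]
    ring
  -- the ratio
  obtain ⟨R, hR⟩ : ∃ R, R = 2 ^ (r + 1) * (P * (L * P) ^ (r - 1)) := ⟨_, rfl⟩
  rw [← hR] at hpair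
  have hR0 : 0 ≤ R := by rw [hR]; positivity
  have hRn : R ≤ c₃ * (n : ℝ) ^ ((r : ℝ) / k - 1) := by
    have e1 : L * P ≤ c₁ * (n : ℝ) ^ (1 / (k : ℝ)) := by
      calc L * P ≤ n * P := mul_le_mul_of_nonneg_right hLn hP0.le
        _ = c₁ * (n : ℝ) ^ (1 / (k : ℝ)) := by rw [← hnn, hP]; ring
    have e2 : (L * P) ^ (r - 1) ≤ (c₁ * (n : ℝ) ^ (1 / (k : ℝ))) ^ (r - 1) := pow_le_pow_left₀ (by positivity) e1 _
    rw [hR]
    refine (mul_le_mul_of_nonneg_left (mul_le_mul_of_nonneg_left e2 hP0.le) (by positivity)).trans (le_of_eq ?_)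
    rw [hP, hc₃, mul_pow, ← Real.rpow_natCast ((n : ℝ) ^ (1 / (k : ℝ))), ← Real.rpow_mul hn0.le]
    have e3 : (n : ℝ) ^ ((r : ℝ) / k - 1) = (n : ℝ) ^ (1 / (k : ℝ) - 1) * (n : ℝ) ^ (1 / (k : ℝ) * ((r - 1 : ℕ) : ℝ)) := by
      rw [← Real.rpow_add hn0, Nat.cast_sub (by omega)]
      congr 1
      push_cast
      field_simp
      ring
    rw [e3]
    ring
  have hone : 1 ≤ (n : ℝ) ^ ((r : ℝ) / k - 1) := by
    refine Real.one_le_rpow hn1 ?_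
    rw [sub_nonneg, one_le_div hk0]
    exact_mod_cast hr
  have h2R : 8 * (2 * R + 1) ≤ 8 * (2 * c₃ + 1) * (n : ℝ) ^ ((r : ℝ) / k - 1) := by nlinarith
  have hfin := lower_tail hA (JJ r L) (TT L q n c) (m := m) (R := R) hm hR0 hpair (v := c₂ / 2 * (n : ℝ) ^ (((r : ℝ) + 1) / k - 1))
    (by linarith)
  refine le_trans (measureReal_mono (fun ω hω => ?_) (measure_ne_top _ _)) (hfin.trans (Real.exp_le_exp.2 ?_))
  · exact (nm_le_big hok (by omega) (fun t ht i => (hsz t ht i).1) ω).trans (le_of_lt hω)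
  · rw [neg_le_neg_iff]
    have e4 : (n : ℝ) ^ (((r : ℝ) + 1) / k - 1) = (n : ℝ) ^ (1 / (k : ℝ)) * (n : ℝ) ^ ((r : ℝ) / k - 1) := by
      rw [← Real.rpow_add hn0]
      congr 1
      ring
    rw [le_div_iff₀ (by positivity)]
    calc c₂ / (8 * (2 * c₃ + 1)) * (n : ℝ) ^ (1 / (k : ℝ)) * (8 * (2 * R + 1)) ≤
        c₂ / (8 * (2 * c₃ + 1)) * (n : ℝ) ^ (1 / (k : ℝ)) * (8 * (2 * c₃ + 1) * (n : ℝ) ^ ((r : ℝ) / k - 1)) :=
          mul_le_mul_of_nonneg_left h2R (by positivity)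
      _ = c₂ * (n : ℝ) ^ (((r : ℝ) + 1) / k - 1) := by
          rw [e4]
          field_simp
      _ ≤ m := hm1

end Pool.Agent.Q106.WG
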