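import Pool.Agent.Q106.WG.Cnt

/-!
# The number `G` in the sieved model of the `k`-th powers
-/

set_option autoImplicit false

namespace Pool.Agent.Q106.WG

open Finset MeasureTheory ProbabilityTheory Filter Pool.Agent.Q120.GM
open scoped Topology

variable {k q : ℕ}

/-- The least `s` such that all large integers are sums of at most `s` elements of `S`. -/
noncomputable def gnum (S : Set ℕ) : ℕ := sInf {s | ∀ᶠ n in atTop, SumOf S s n}

/-- The least `s` such that every class modulo `q` contains a sum of `s` `k`-th powers. -/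
noncomputable def gam (k q : ℕ) : ℕ := sInf {s | ∀ n, SumMod k q s n}

theorem gam_le {s : ℕ} (h : ∀ n, SumMod k q s n) : gam k q ≤ s := Nat.sInf_le h

theorem gam_spec (hk : 1 ≤ k) (hq : 1 ≤ q) (n : ℕ) : SumMod k q (gam k q) n := by
  have : gam k q ∈ {s | ∀ n, SumMod k q s n} := Nat.sInf_mem ⟨4 * k, fun n => sumMod_four_mul hk hq n⟩
  exact this n

theorem gam_le_four_mul (hk : 1 ≤ k) (hq : 1 ≤ q) : gam k q ≤ 4 * k := gam_le (fun n => sumMod_four_mul hk hq n)

theorem gam_le_two_mul (hk : 2 ≤ k) (hk2 : ∀ m, 2 ≤ m → k ≠ 2 ^ m) (hq : 1 ≤ q) : gam k q ≤ 2 * k :=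
  gam_le (fun n => sumMod_two_mul hk hk2 hq n)

theorem gam_eq {m : ℕ} (hm : 3 ≤ m) (hq : 1 ≤ q) (h : 8 * 2 ^ m ∣ q) : gam (2 ^ m) q = 4 * 2 ^ m := by
  have h1 : 1 ≤ 2 ^ m := Nat.one_le_pow _ _ (by norm_num)
  refine le_antisymm (gam_le_four_mul h1 hq) ?_
  exact not_sumMod hm rfl h (gam_spec h1 hq _)

theorem sumMod_of_sumOf {S : Set ℕ} {s n : ℕ} (hk : k ≠ 0) (hS : ∀ m ∈ S, 1 ≤ pw k q m) (h : SumOf S s n) :
    SumMod k q s n := by
  obtain ⟨a, ha, hn⟩ := h
  have h1 : ∀ i, ∃ x : ℕ, x ^ k ≡ a i [MOD q] := by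
    intro i
    rcases ha i with h | h
    · exact ⟨0, by rw [h, zero_pow hk]⟩
    · have h2 := hS _ h
      unfold pw at h2
      obtain ⟨x, hx⟩ := card_pos.1 h2
      rw [mem_filter] at hx
      exact ⟨x, hx.2⟩
  choose x hx using h1
  refine ⟨x, ?_⟩
  rw [← hn]
  exact Nat.ModEq.sum (fun i _ => hx i)

variable {Ω : Type*} [MeasurableSpace Ω] {μ : Measure Ω} [IsProbabilityMeasure μ] {A : Ω → Set ℕ}

/-- Almost surely all elements are `k`-th power residues. -/
theorem ae_residues (hA : IsModel μ (prob k q) A) : ∀ᵐ ω ∂μ, ∀ m ∈ A ω, 1 ≤ pw k q m := by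
  rw [ae_all_iff]
  intro m
  by_cases h : 1 ≤ pw k q m
  · exact Eventually.of_forall (fun _ _ => h)
  · have h1 : pw k q m = 0 := by omega
    have h2 : μ.real {ω | m ∈ A ω} = 0 := by
      rw [hA.prob m]
      unfold prob
      rw [h1]
      simp
    have h3 : μ {ω | m ∈ A ω} = 0 := by
      rw [measureReal_def, ENNReal.toReal_eq_zero_iff] at h2
      exact h2.resolve_right (measure_ne_top _ _)
    rw [← compl_mem_ae_iff] at h3
    filter_upwards [h3] with ω hω hm
    exact absurd hm hω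

/-- **Almost surely a positive proportion of the integers are not sums of at most `k` elements.** -/
theorem nonsums (hA : IsModel μ (prob k q) A) (hk : 2 ≤ k) (hq : 1 ≤ q) : ∀ᵐ ω ∂μ, ∀ᶠ N : ℕ in atTop,
    (N : ℝ) / 5 ≤ ({n : ℕ | 1 ≤ n ∧ n ≤ N ∧ ¬ SumOf (A ω) k n}.ncard : ℝ) := by
  classical
  have hk0 : (0 : ℝ) < k := by positivity
  have hfac : ∀ j : ℕ, 2 ≤ j → (5 / 4 : ℝ) ^ j / j.factorial ≤ 25 / 32 := by
    intro j hj
    induction j, hj using Nat.le_induction with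
    | base => norm_num [Nat.factorial]
    | succ j hj ih =>
      rw [pow_succ, Nat.factorial_succ]
      push_cast
      have h1 : (0 : ℝ) < j.factorial := by exact_mod_cast Nat.factorial_pos j
      have h2 : (2 : ℝ) ≤ j := by exact_mod_cast hj
      calc (5 / 4 : ℝ) ^ j * (5 / 4) / (((j : ℝ) + 1) * j.factorial) = (5 / 4 : ℝ) ^ j / j.factorial * ((5 / 4) / (j + 1)) := by
            field_simp
        _ ≤ 25 / 32 * 1 := by
            refine mul_le_mul ih ?_ (by positivity) (by norm_num)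
            rw [div_le_one (by positivity)]
            linarith
        _ = 25 / 32 := by ring
  have g3 : Tendsto (fun n : ℕ => (n : ℝ) ^ (1 / (k : ℝ))) atTop atTop :=
    (tendsto_rpow_atTop (by positivity)).comp tendsto_natCast_atTop_atTop
  filter_upwards [few hA hk hq] with ω hω
  filter_upwards [hω, g3.eventually_ge_atTop (20 * k), eventually_ge_atTop 1] with N h1 h2 h3
  have hN0 : (0 : ℝ) < N := by exact_mod_cast h3
  obtain ⟨y, hy⟩ : ∃ y, y = (N : ℝ) ^ (1 / (k : ℝ)) := ⟨_, rfl⟩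
  rw [← hy] at h1 h2
  have hyk : y ^ k = N := by
    rw [hy, ← Real.rpow_natCast, ← Real.rpow_mul hN0.le]
    rw [one_div, inv_mul_cancel₀ hk0.ne', Real.rpow_one]
  have hy0 : 0 < y := by rw [hy]; positivity
  have h4 : ((((Icc 1 N).filter (fun n => SumOf (A ω) k n)).card : ℕ) : ℝ) ≤ 25 / 32 * N := by
    have h5 := sums_le (A ω) k N
    have h6 : (((cntA (A ω) N + k).choose k : ℕ) : ℝ) ≤ (((cntA (A ω) N + k : ℕ) : ℝ)) ^ k / k.factorial :=
      Nat.choose_le_pow_div k _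
    calc ((((Icc 1 N).filter (fun n => SumOf (A ω) k n)).card : ℕ) : ℝ) ≤ (((cntA (A ω) N + k).choose k : ℕ) : ℝ) := by
          exact_mod_cast h5
      _ ≤ _ := h6
      _ ≤ (5 / 4 * y) ^ k / k.factorial := by
          refine div_le_div_of_nonneg_right (pow_le_pow_left₀ (by positivity) ?_ k) (by positivity)
          push_cast
          linarith
      _ = (5 / 4 : ℝ) ^ k / k.factorial * N := by rw [mul_pow, hyk]; ring
      _ ≤ _ := mul_le_mul_of_nonneg_right (hfac k hk) hN0.le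
  have h5 : {n : ℕ | 1 ≤ n ∧ n ≤ N ∧ ¬ SumOf (A ω) k n} = (((Icc 1 N).filter (fun n => ¬ SumOf (A ω) k n) : Finset ℕ) : Set ℕ) := by
    ext n
    rw [mem_coe, mem_filter, mem_Icc]
    simp only [Set.mem_ofPred_eq]
    tauto
  rw [h5, Set.ncard_coe_finset]
  have h6 := Finset.card_filter_add_card_filter_not (s := Icc 1 N) (fun n => SumOf (A ω) k n)
  rw [Nat.card_Icc, Nat.add_sub_cancel] at h6
  have h7 : ((((Icc 1 N).filter (fun n => SumOf (A ω) k n)).card : ℕ) : ℝ) +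
      ((((Icc 1 N).filter (fun n => ¬ SumOf (A ω) k n)).card : ℕ) : ℝ) = N := by exact_mod_cast h6
  linarith

theorem sumOf_of_reps {S : Set ℕ} {s n : ℕ} (h : 0 < reps S s n) : SumOf S s n := by
  unfold reps at h
  obtain ⟨a, ha⟩ := Set.nonempty_of_ncard_ne_zero h.ne'
  exact ⟨a, fun i => Or.inr (ha.1 i), ha.2⟩

/-- **The number `G` in the model.** -/
theorem gnum_eq (hA : IsModel μ (prob k q) A) (hk : 2 ≤ k) (hq : 1 ≤ q) :
    ∀ᵐ ω ∂μ, gnum (A ω) = max (k + 1) (gam k q) := by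
  have hk0 : k ≠ 0 := by omega
  obtain ⟨c, hc, hmany⟩ := many hA hk hq (max (k + 1) (gam k q)) (le_max_left _ _)
  filter_upwards [hmany, nonsums hA hk hq, ae_residues hA] with ω h1 h2 h3
  have hmem : (max (k + 1) (gam k q)) ∈ {s | ∀ᶠ n in atTop, SumOf (A ω) s n} := by
    show ∀ᶠ n in atTop, SumOf (A ω) (max (k + 1) (gam k q)) n
    filter_upwards [h1, eventually_ge_atTop 1] with n h4 h5
    have h6 := h4 ((gam_spec (by omega) hq n).mono hk0 (le_max_right _ _))
    refine sumOf_of_reps ?_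
    have hn0 : (0 : ℝ) < n := by exact_mod_cast h5
    have h7 : (0 : ℝ) < reps (A ω) (max (k + 1) (gam k q)) n := lt_of_lt_of_le (by positivity) h6
    exact_mod_cast h7
  refine le_antisymm (Nat.sInf_le hmem) ?_
  have hg : ∀ᶠ n in atTop, SumOf (A ω) (gnum (A ω)) n := by
    have : gnum (A ω) ∈ {s | ∀ᶠ n in atTop, SumOf (A ω) s n} := Nat.sInf_mem ⟨_, hmem⟩
    exact this
  refine max_le ?_ ?_
  · by_contra hcon
    have hle : gnum (A ω) ≤ k := by omega
    obtain ⟨N₀, hN₀⟩ := eventually_atTop.1 hg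
    obtain ⟨N, hN1, hN2⟩ := (h2.and (eventually_ge_atTop (5 * N₀ + 5))).exists
    have h4 : {n : ℕ | 1 ≤ n ∧ n ≤ N ∧ ¬ SumOf (A ω) k n} ⊆ ((Finset.range N₀ : Finset ℕ) : Set ℕ) := by
      rintro n ⟨_, _, h5⟩
      rw [mem_coe, mem_range]
      by_contra h6
      push Not at h6
      exact h5 ((hN₀ n h6).mono hle)
    have h5 := Set.ncard_le_ncard h4 (Finset.finite_toSet _)
    rw [Set.ncard_coe_finset, card_range] at h5
    have h6 : ({n : ℕ | 1 ≤ n ∧ n ≤ N ∧ ¬ SumOf (A ω) k n}.ncard : ℝ) ≤ N₀ := by exact_mod_cast h5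
    have h7 : (5 * (N₀ : ℝ) + 5) ≤ N := by exact_mod_cast hN2
    linarith
  · refine gam_le (fun n => ?_)
    obtain ⟨N₀, hN₀⟩ := eventually_atTop.1 hg
    have h4 := hN₀ (n + q * N₀) (by
      have : N₀ ≤ q * N₀ := Nat.le_mul_of_pos_left _ hq
      omega)
    obtain ⟨x, hx⟩ := sumMod_of_sumOf (q := q) hk0 h3 h4
    refine ⟨x, hx.trans ?_⟩
    unfold Nat.ModEq
    rw [Nat.add_mul_mod_self_left]

end Pool.Agent.Q106.WG
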