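import Pool.Agent.Q106.WG.Lev
import Pool.Agent.Q106.WG.Del
import Pool.Agent.Q26.ME.DV
import Pool.Agent.Q184.ME.EVT
import Pool.Agent.Q111.GE.LAW
import Pool.Agent.Q120.GM.Exists

/-!
# Random sets of small information relative to the sieved model: upper bounds
-/

set_option autoImplicit false

namespace Pool.Agent.Q106.WG

open Finset MeasureTheory ProbabilityTheory Filter Pool.Agent.Q120.GM
open Pool.Agent.Q120.ET (IsRandomSet lawOn tr mem_tr real_event)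
open Pool.Agent.Q120.ME (bern relEnt ind)
open scoped Topology

/-- The integers whose probability is positive and less than `1`. -/
def UU (k q : ℕ) : Set ℕ := {n | 0 < prob k q n ∧ prob k q n < 1}

variable {k q r : ℕ}

theorem mem_ind {U : Set ℕ} {x n : ℕ} : n ∈ ind U x ↔ n < x ∧ n ∈ U := by
  simp only [ind, mem_filter, mem_range]

theorem levels_const (hq : 1 ≤ q) : Levels (fun _ => q) := by
  refine ⟨fun _ => hq, fun _ _ _ => dvd_refl _, fun ε hε => ?_⟩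
  have : Tendsto (fun n : ℕ => (n : ℝ) ^ ε) atTop atTop := (tendsto_rpow_atTop hε).comp tendsto_natCast_atTop_atTop
  exact this.eventually_ge_atTop (q : ℝ)

/-- The law of a model on a finite set. -/
theorem law_bern {Ω : Type} [MeasurableSpace Ω] {μ : Measure Ω} [IsProbabilityMeasure μ] {A : Ω → Set ℕ} {p p' : ℕ → ℝ}
    (hA : IsModel μ p' A) {F T : Finset ℕ} (hp : ∀ n ∈ F, p' n = p n) (hT : T ⊆ F) : lawOn μ A F T = bern p F T := by
  classical
  rw [Pool.Agent.Q111.GE.law_model hA F T hT]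
  unfold bern
  rw [← Finset.prod_sdiff hT, mul_comm]
  congr 1
  · refine Finset.prod_congr rfl (fun n hn => ?_)
    rw [if_neg (Finset.mem_sdiff.mp hn).2, hp n (Finset.mem_sdiff.mp hn).1]
  · refine Finset.prod_congr rfl (fun n hn => ?_)
    rw [if_pos hn, hp n (hT hn)]

theorem reps_mono {S S' : Set ℕ} {s n : ℕ} (h : ∀ a ∈ S, a ≤ n → a ∈ S') : reps S s n ≤ reps S' s n := by
  unfold reps
  refine Set.ncard_le_ncard ?_ (reps_finite _ _ _)
  rintro a ⟨ha, hs⟩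
  refine ⟨fun i => h _ (ha i) ?_, hs⟩
  have := single_le_sum (f := a) (fun j _ => Nat.zero_le _) (mem_univ i)
  omega

/-- The bad event of the block `j`. -/
def Bd (k q r : ℕ) (c : ℝ) (j : ℕ) (T : Finset ℕ) : Prop :=
  ∃ n ∈ Ico (2 ^ j) (2 ^ (j + 1)), SumMod k q (r + 1) n ∧
    (reps (T : Set ℕ) (r + 1) n : ℝ) < c * (n : ℝ) ^ (((r : ℝ) + 1) / k - 1)

open Classical in
/-- **The bad event is improbable in the model.** -/
theorem ref_bound (hk : 2 ≤ k) (hq : 1 ≤ q) (hr : k ≤ r) : ∃ c > 0, ∃ C > 0, ∀ᶠ j : ℕ in atTop,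
    ∑ T ∈ (ind (UU k q) (2 ^ (j + 1))).powerset with Bd k q r c j T, bern (prob k q) (ind (UU k q) (2 ^ (j + 1))) T ≤
      Real.exp (-(C * ((2 : ℝ) ^ j) ^ (1 / (k : ℝ)))) := by
  have hk0 : (0 : ℝ) < k := by positivity
  have hk1 : (1 : ℝ) < k := by exact_mod_cast (by omega : 1 < k)
  have hq0 : (0 : ℝ) < q := by positivity
  -- a model with the probabilities on `UU`
  obtain ⟨p', hp'⟩ : ∃ p' : ℕ → ℝ, p' = fun n => if n ∈ UU k q then prob k q n else 0 := ⟨_, rfl⟩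
  have hp0 : ∀ n, 0 ≤ p' n := by
    intro n
    rw [hp']
    simp only
    split_ifs with h
    · exact prob_nonneg k q n
    · exact le_rfl
  have hp1 : ∀ n, p' n ≤ 1 := by
    intro n
    rw [hp']
    simp only
    split_ifs with h
    · exact prob_le_one k q n
    · exact zero_le_one
  have hA := isModel p' hp0 hp1
  obtain ⟨A, hAd⟩ : ∃ A, A = trueSet (ι := ℕ) := ⟨_, rfl⟩
  obtain ⟨ν, hν⟩ : ∃ ν, ν = prodMeasure p' := ⟨_, rfl⟩
  haveI : IsProbabilityMeasure ν := by rw [hν]; infer_instance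
  rw [← hAd, ← hν] at hA
  have hsupp : ∀ᵐ ω ∂ν, ∀ n ∈ A ω, n ∈ UU k q := by
    rw [ae_all_iff]
    intro n
    by_cases h : n ∈ UU k q
    · exact Eventually.of_forall (fun _ _ => h)
    · have h2 : ν.real {ω | n ∈ A ω} = 0 := by
        rw [hA.prob n, hp']
        simp only
        rw [if_neg h]
      have h3 : ν {ω | n ∈ A ω} = 0 := by
        rw [measureReal_def, ENNReal.toReal_eq_zero_iff] at h2
        exact h2.resolve_right (measure_ne_top _ _)
      rw [← compl_mem_ae_iff] at h3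
      filter_upwards [h3] with ω hω hm
      exact absurd hm hω
  obtain ⟨c₁, hc₁⟩ : ∃ c₁, c₁ = c1 k q r := ⟨_, rfl⟩
  have hc₁0 : 0 < c₁ := by rw [hc₁]; exact c1_pos hk hq
  obtain ⟨c, hc⟩ : ∃ c, c = d2 k q r / 2 := ⟨_, rfl⟩
  have hc0 : 0 < c := by rw [hc]; have := d2_pos (r := r) hk hq; positivity
  obtain ⟨C₀, hC₀⟩ : ∃ C₀, C₀ = d2 k q r / (8 * (2 * d3 r c₁ + 1)) := ⟨_, rfl⟩
  have hC₀0 : 0 < C₀ := by
    rw [hC₀]
    have := d2_pos (r := r) hk hq
    unfold d3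
    positivity
  have hex : 1 / (k : ℝ) - 1 < 0 := by
    rw [sub_neg, div_lt_one hk0]
    exact hk1
  have t1 : Tendsto (fun n : ℕ => c₁ * (n : ℝ) ^ (1 / (k : ℝ) - 1)) atTop (𝓝 (c₁ * 0)) := by
    refine Tendsto.const_mul _ ?_
    have := (tendsto_rpow_neg_atTop (y := -(1 / (k : ℝ) - 1)) (by linarith)).comp tendsto_natCast_atTop_atTop
    rw [neg_neg] at this
    exact this
  rw [mul_zero] at t1
  have t2 : Tendsto (fun n : ℕ => (1 / (4 * ((q : ℝ) * ((r : ℝ) + 1) ^ 2)) * c₁) * (n : ℝ) ^ (1 / (k : ℝ))) atTop atTop :=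
    ((tendsto_rpow_atTop (by positivity)).comp tendsto_natCast_atTop_atTop).const_mul_atTop (by positivity)
  -- one integer
  have hone : ∀ᶠ n : ℕ in atTop, SumMod k q (r + 1) n →
      ν.real {ω | (reps (big r n (A ω)) (r + 1) n : ℝ) < c * (n : ℝ) ^ (((r : ℝ) + 1) / k - 1)} ≤
        Real.exp (-(C₀ * (n : ℝ) ^ (1 / (k : ℝ)))) := by
    filter_upwards [t1.eventually_lt_const zero_lt_one, t2.eventually_ge_atTop 1, eventually_ge_atTop (4 * (q * (r + 1) ^ 2)),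
      eventually_ge_atTop 1] with n h1 h2 h3 h4 hs
    rw [hc, hC₀]
    refine gen_bound hA hk hq hr h3 hs hc₁0 (fun a g1 g2 g3 => ?_) h1.le h2
    have hb := lprob_bounds (r := r) hk (levels_const hq) h4 g1 g2 g3
    have e1 : lprob k (fun _ => q) a = prob k q a := rfl
    rw [e1, ← hc₁] at hb
    have hn0 : (0 : ℝ) < n := by exact_mod_cast h4
    have hU : a ∈ UU k q := by
      refine ⟨lt_of_lt_of_le (by positivity) hb.1, lt_of_le_of_lt hb.2 h1⟩
    rw [hp']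
    simp only
    rw [if_pos hU]
    exact hb
  obtain ⟨N₀, hN₀⟩ := eventually_atTop.1 hone
  -- the block
  have hblock : ∀ᶠ j : ℕ in atTop, (2 : ℝ) ^ j * Real.exp (-(C₀ * ((2 : ℝ) ^ j) ^ (1 / (k : ℝ)))) ≤
      Real.exp (-(C₀ / 2 * ((2 : ℝ) ^ j) ^ (1 / (k : ℝ)))) := by
    have g1 := (isLittleO_log_rpow_atTop (r := 1 / (k : ℝ)) (by positivity)).def (c := C₀ / 2) (by positivity)
    have g2 := (tendsto_pow_atTop_atTop_of_one_lt (r := (2 : ℝ)) (by norm_num)).eventually g1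
    filter_upwards [g2] with j h3
    have hx1 : (1 : ℝ) ≤ 2 ^ j := one_le_pow₀ (by norm_num)
    have hx0 : (0 : ℝ) < 2 ^ j := by positivity
    rw [Real.norm_of_nonneg (Real.log_nonneg hx1), Real.norm_of_nonneg (by positivity)] at h3
    obtain ⟨X, hX⟩ : ∃ X : ℝ, X = 2 ^ j := ⟨_, rfl⟩
    rw [← hX] at h3 hx0 ⊢
    calc X * Real.exp (-(C₀ * X ^ (1 / (k : ℝ)))) = Real.exp (Real.log X) * Real.exp (-(C₀ * X ^ (1 / (k : ℝ)))) := by
          rw [Real.exp_log hx0]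
      _ = Real.exp (Real.log X + -(C₀ * X ^ (1 / (k : ℝ)))) := (Real.exp_add _ _).symm
      _ ≤ _ := Real.exp_le_exp.2 (by linarith)
  refine ⟨c, hc0, C₀ / 2, by positivity, ?_⟩
  filter_upwards [hblock, eventually_ge_atTop N₀] with j h1 h2
  obtain ⟨F, hF⟩ : ∃ F, F = ind (UU k q) (2 ^ (j + 1)) := ⟨_, rfl⟩
  rw [← hF]
  have hFU : ∀ n ∈ F, p' n = prob k q n := by
    intro n hn
    rw [hF, mem_ind] at hn
    rw [hp']
    simp only
    rw [if_pos hn.2]
  have hsum : ∑ T ∈ F.powerset with Bd k q r c j T, bern (prob k q) F T = ν.real {ω | Bd k q r c j (tr A F ω)} := by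
    rw [real_event (fun n => hA.meas n) F (Bd k q r c j)]
    refine sum_congr rfl (fun T hT => ?_)
    rw [mem_filter, mem_powerset] at hT
    exact (law_bern hA hFU hT.1).symm
  rw [hsum]
  obtain ⟨B, hB⟩ : ∃ B : ℕ → Set (ℕ → Bool), B = fun n => {ω | SumMod k q (r + 1) n ∧
      (reps (big r n (A ω)) (r + 1) n : ℝ) < c * (n : ℝ) ^ (((r : ℝ) + 1) / k - 1)} := ⟨_, rfl⟩
  have hincl : ν.real {ω | Bd k q r c j (tr A F ω)} ≤ ν.real (⋃ n ∈ Ico (2 ^ j) (2 ^ (j + 1)), B n) := by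
    refine ENNReal.toReal_mono (measure_ne_top _ _) (measure_mono_ae ?_)
    filter_upwards [hsupp] with ω hω h
    obtain ⟨n, hn, g1, g2⟩ := h
    show ω ∈ ⋃ n ∈ Ico (2 ^ j) (2 ^ (j + 1)), B n
    rw [Set.mem_iUnion₂]
    refine ⟨n, hn, ?_⟩
    rw [hB]
    refine ⟨g1, lt_of_le_of_lt ?_ g2⟩
    have h3 : reps (big r n (A ω)) (r + 1) n ≤ reps ((tr A F ω : Finset ℕ) : Set ℕ) (r + 1) n := by
      refine reps_mono (fun a ha han => ?_)
      rw [mem_coe, mem_tr, hF, mem_ind]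
      rw [mem_Ico] at hn
      exact ⟨⟨by omega, hω a ha.1⟩, ha.1⟩
    exact_mod_cast h3
  refine hincl.trans ((measureReal_biUnion_finset_le _ _).trans ?_)
  have hterm : ∀ n ∈ Ico (2 ^ j) (2 ^ (j + 1)), ν.real (B n) ≤ Real.exp (-(C₀ * ((2 : ℝ) ^ j) ^ (1 / (k : ℝ)))) := by
    intro n hn
    rw [mem_Ico] at hn
    have hnN : N₀ ≤ n := h2.trans (Nat.lt_two_pow_self.le.trans hn.1)
    by_cases hs : SumMod k q (r + 1) n
    · have g1 : ν.real (B n) ≤ Real.exp (-(C₀ * (n : ℝ) ^ (1 / (k : ℝ)))) := by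
        refine le_trans (measureReal_mono ?_ (measure_ne_top _ _)) (hN₀ n hnN hs)
        intro ω hω
        rw [hB] at hω
        exact hω.2
      refine g1.trans (Real.exp_le_exp.2 (neg_le_neg (mul_le_mul_of_nonneg_left ?_ hC₀0.le)))
      refine Real.rpow_le_rpow (by positivity) ?_ (by positivity)
      exact_mod_cast hn.1
    · have g1 : B n = ∅ := by
        rw [hB]
        ext ω
        simp only [Set.mem_ofPred_eq, Set.mem_empty_iff_false, iff_false]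
        exact fun h => hs h.1
      rw [g1, measureReal_empty]
      exact (Real.exp_pos _).le
  refine (sum_le_sum hterm).trans (le_trans (le_of_eq ?_) h1)
  rw [sum_const, Nat.card_Ico, nsmul_eq_mul, show 2 ^ (j + 1) - 2 ^ j = 2 ^ j by rw [pow_succ]; omega]
  push_cast
  rfl

/-- The condensed sum. -/
theorem cond_sum (hk : 2 ≤ k) {d : ℕ → ℝ} (hd : Monotone d) (hd0 : ∀ n, 0 ≤ d n)
    (hs : Summable (fun n : ℕ => d n / (n : ℝ) ^ (1 + 1 / (k : ℝ)))) :
    Summable (fun j : ℕ => d (2 ^ (j + 1)) / ((2 : ℝ) ^ j) ^ (1 / (k : ℝ))) := by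
  have hk0 : (0 : ℝ) < k := by positivity
  have hk2 : (2 : ℝ) ≤ k := by exact_mod_cast hk
  have hf0 : ∀ n : ℕ, 0 ≤ d n / (n : ℝ) ^ (1 + 1 / (k : ℝ)) := fun n => div_nonneg (hd0 n) (by positivity)
  refine summable_of_sum_range_le (c := 4 * ∑' n : ℕ, d n / (n : ℝ) ^ (1 + 1 / (k : ℝ)))
    (fun j => div_nonneg (hd0 _) (by positivity)) (fun J => ?_)
  have h1 : ∑ j ∈ range J, d (2 ^ (j + 1)) / ((2 : ℝ) ^ j) ^ (1 / (k : ℝ)) ≤
      4 * ∑ n ∈ range (2 ^ (J + 1)), d n / (n : ℝ) ^ (1 + 1 / (k : ℝ)) := by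
    induction J with
    | zero =>
      rw [range_zero, sum_empty]
      exact mul_nonneg (by norm_num) (sum_nonneg (fun n _ => hf0 n))
    | succ J ih =>
      have hle : 2 ^ (J + 1) ≤ 2 ^ (J + 1 + 1) := Nat.pow_le_pow_right (by norm_num) (by omega)
      rw [sum_range_succ, ← sum_range_add_sum_Ico _ hle, mul_add]
      refine add_le_add ih ?_
      obtain ⟨X, hX⟩ : ∃ X : ℝ, X = 2 ^ J := ⟨_, rfl⟩
      have hX0 : 0 < X := by rw [hX]; positivity
      have h4 : (4 : ℝ) ^ (1 / (k : ℝ)) ≤ 2 := by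
        calc (4 : ℝ) ^ (1 / (k : ℝ)) ≤ (4 : ℝ) ^ (1 / 2 : ℝ) := by
              refine Real.rpow_le_rpow_of_exponent_le (by norm_num) ?_
              exact one_div_le_one_div_of_le (by norm_num) hk2
          _ = 2 := by
              rw [show (4 : ℝ) = 2 ^ (2 : ℝ) by norm_num, ← Real.rpow_mul (by norm_num)]
              norm_num
      have h5 : ∀ n ∈ Ico (2 ^ (J + 1)) (2 ^ (J + 1 + 1)), d (2 ^ (J + 1)) / (8 * (X * X ^ (1 / (k : ℝ)))) ≤
          d n / (n : ℝ) ^ (1 + 1 / (k : ℝ)) := by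
        intro n hn
        rw [mem_Ico] at hn
        have hn0 : 0 < n := lt_of_lt_of_le (by positivity) hn.1
        have hn0' : (0 : ℝ) < n := by exact_mod_cast hn0
        refine div_le_div₀ (hd0 _) (hd hn.1) (by positivity) ?_
        have h6 : (n : ℝ) ≤ 4 * X := by
          have : n ≤ 2 ^ (J + 1 + 1) := hn.2.le
          calc (n : ℝ) ≤ ((2 ^ (J + 1 + 1) : ℕ) : ℝ) := by exact_mod_cast this
            _ = 4 * X := by rw [hX]; push_cast; ring
        calc (n : ℝ) ^ (1 + 1 / (k : ℝ)) ≤ (4 * X) ^ (1 + 1 / (k : ℝ)) := Real.rpow_le_rpow hn0'.le h6 (by positivity)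
          _ = (4 * X) * ((4 : ℝ) ^ (1 / (k : ℝ)) * X ^ (1 / (k : ℝ))) := by
              rw [Real.rpow_one_add' (by positivity) (by positivity), Real.mul_rpow (by norm_num) hX0.le]
          _ ≤ (4 * X) * (2 * X ^ (1 / (k : ℝ))) := by
              refine mul_le_mul_of_nonneg_left (mul_le_mul_of_nonneg_right h4 (by positivity)) (by positivity)
          _ = 8 * (X * X ^ (1 / (k : ℝ))) := by ring
      have h6 := sum_le_sum h5
      rw [sum_const, Nat.card_Ico, nsmul_eq_mul, show 2 ^ (J + 1 + 1) - 2 ^ (J + 1) = 2 ^ (J + 1) by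
        rw [pow_succ 2 (J + 1)]; omega] at h6
      refine le_trans (le_of_eq ?_) (mul_le_mul_of_nonneg_left h6 (by norm_num : (0 : ℝ) ≤ 4))
      obtain ⟨D, hD⟩ : ∃ D, D = d (2 ^ (J + 1)) := ⟨_, rfl⟩
      have hc2 : ((2 ^ (J + 1) : ℕ) : ℝ) = 2 * X := by rw [hX]; push_cast; ring
      rw [← hX, ← hD, hc2]
      field_simp
      ring
  refine h1.trans (mul_le_mul_of_nonneg_left ?_ (by norm_num))
  exact hs.sum_le_tsum _ (fun n _ => hf0 n)

/-- The first lemma of Borel and Cantelli. -/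
theorem bc_sum {Ω : Type*} [MeasurableSpace Ω] {μ : Measure Ω} [IsProbabilityMeasure μ] {E : ℕ → Set Ω} {g : ℕ → ℝ}
    (hg : Summable g) (h : ∀ᶠ n : ℕ in atTop, μ.real (E n) ≤ g n) : ∀ᵐ ω ∂μ, ∀ᶠ n : ℕ in atTop, ω ∉ E n := by
  obtain ⟨N₀, hN⟩ := eventually_atTop.1 h
  obtain ⟨E', hE'⟩ : ∃ E' : ℕ → Set Ω, E' = fun n => {ω | N₀ ≤ n ∧ ω ∈ E n} := ⟨_, rfl⟩
  have hsum : ∑' n, μ (E' n) ≠ ⊤ := by
    have hb : ∀ n, μ (E' n) ≤ ENNReal.ofReal |g n| := by
      intro n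
      by_cases hn : N₀ ≤ n
      · have h2 : μ.real (E' n) ≤ |g n| := by
          refine le_trans (measureReal_mono ?_ (measure_ne_top _ _)) ((hN n hn).trans (le_abs_self _))
          intro ω hω
          rw [hE'] at hω
          exact hω.2
        rw [← ENNReal.ofReal_toReal (measure_ne_top μ (E' n))]
        exact ENNReal.ofReal_le_ofReal h2
      · have : E' n = ∅ := by
          rw [hE']
          ext ω
          simp only [Set.mem_ofPred_eq, Set.mem_empty_iff_false, iff_false]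
          exact fun h => hn h.1
        rw [this, measure_empty]
        exact zero_le
    refine ne_top_of_le_ne_top ?_ (ENNReal.tsum_le_tsum hb)
    exact hg.abs.tsum_ofReal_ne_top
  filter_upwards [ae_eventually_notMem hsum] with ω hω
  filter_upwards [hω, eventually_ge_atTop N₀] with n g1 g2 g3
  refine g1 ?_
  rw [hE']
  exact ⟨g2, g3⟩

/-- **Many representations for all random sets of small information.** -/
theorem info_upper (hk : 2 ≤ k) (hq : 1 ≤ q) (hr : k ≤ r) : ∃ c > 0, ∀ d : ℕ → ℝ, Monotone d → (∀ n, 0 ≤ d n) →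
    Summable (fun n : ℕ => d n / (n : ℝ) ^ (1 + 1 / (k : ℝ))) →
    ∀ (Ω : Type) [MeasurableSpace Ω] (μ : Measure Ω) [IsProbabilityMeasure μ] (A : Ω → Set ℕ), IsRandomSet A →
      (∀ᶠ x : ℕ in atTop, relEnt (prob k q) μ A (ind (UU k q) x) ≤ d x) →
      ∀ᵐ ω ∂μ, ∀ᶠ n : ℕ in atTop, SumMod k q (r + 1) n → c * (n : ℝ) ^ (((r : ℝ) + 1) / k - 1) ≤ reps (A ω) (r + 1) n := by
  classical
  obtain ⟨c, hc, C, hC, href⟩ := ref_bound hk hq hr
  refine ⟨c, hc, ?_⟩
  intro d hd hd0 hs Ω _ μ _ A hA hent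
  have hk0 : (0 : ℝ) < k := by positivity
  have hx2 : Tendsto (fun j : ℕ => 2 ^ (j + 1)) atTop atTop :=
    (tendsto_pow_atTop_atTop_of_one_lt (by norm_num : 1 < 2)).comp (tendsto_add_atTop_nat 1)
  have hgeo : Summable (fun j : ℕ => (1 : ℝ) / ((2 : ℝ) ^ j) ^ (1 / (k : ℝ))) := by
    have h1 : (fun j : ℕ => (1 : ℝ) / ((2 : ℝ) ^ j) ^ (1 / (k : ℝ))) = fun j : ℕ => (((2 : ℝ) ^ (1 / (k : ℝ)))⁻¹) ^ j := by
      funext j
      rw [← Real.rpow_natCast, ← Real.rpow_mul (by norm_num), mul_comm, Real.rpow_mul (by norm_num), Real.rpow_natCast,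
        one_div, inv_pow]
    rw [h1]
    refine summable_geometric_of_lt_one (by positivity) ?_
    refine inv_lt_one_of_one_lt₀ ?_
    exact Real.one_lt_rpow (by norm_num) (by positivity)
  have hsum : Summable (fun j : ℕ => 1 / C * (d (2 ^ (j + 1)) / ((2 : ℝ) ^ j) ^ (1 / (k : ℝ))) +
      1 / C * (1 / ((2 : ℝ) ^ j) ^ (1 / (k : ℝ)))) := ((cond_sum hk hd hd0 hs).mul_left _).add (hgeo.mul_left _)
  have hbc := bc_sum (μ := μ) (E := fun j => {ω | Bd k q r c j (tr A (ind (UU k q) (2 ^ (j + 1))) ω)}) hsum (by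
    filter_upwards [href, hx2.eventually hent] with j h1 h2
    have h3 := (Pool.Agent.Q184.ME.t_EVT Pool.Agent.Q26.ME.t_DV (prob k q) (ind (UU k q) (2 ^ (j + 1)))
      (fun n hn => (mem_ind.1 hn).2) Ω μ A hA).2 (Bd k q r c j) (C * ((2 : ℝ) ^ j) ^ (1 / (k : ℝ))) h1
    have hlog : Real.log 2 ≤ 1 := by have := Real.log_two_lt_d9; linarith
    have hX : (0 : ℝ) < ((2 : ℝ) ^ j) ^ (1 / (k : ℝ)) := by positivity
    have h4 : μ.real {ω | Bd k q r c j (tr A (ind (UU k q) (2 ^ (j + 1))) ω)} * (C * ((2 : ℝ) ^ j) ^ (1 / (k : ℝ))) ≤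
        d (2 ^ (j + 1)) + 1 := by linarith
    rw [← le_div_iff₀ (by positivity)] at h4
    refine h4.trans (le_of_eq ?_)
    field_simp)
  filter_upwards [hbc] with ω hω
  obtain ⟨J, hJ⟩ := eventually_atTop.1 hω
  filter_upwards [eventually_ge_atTop (2 ^ J), eventually_ge_atTop 1] with n h1 h2 h3
  by_contra hcon
  push Not at hcon
  obtain ⟨j, hj⟩ : ∃ j, j = Nat.log 2 n := ⟨_, rfl⟩
  have hj1 : J ≤ j := by
    rw [hj]
    exact Nat.le_log_of_pow_le (by norm_num) h1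
  have hj2 : 2 ^ j ≤ n := by rw [hj]; exact Nat.pow_log_le_self 2 (by omega)
  have hj3 : n < 2 ^ (j + 1) := by rw [hj]; exact Nat.lt_pow_succ_log_self (by norm_num) n
  refine hJ j hj1 ⟨n, mem_Ico.2 ⟨hj2, hj3⟩, h3, lt_of_le_of_lt ?_ hcon⟩
  have h4 : reps ((tr A (ind (UU k q) (2 ^ (j + 1))) ω : Finset ℕ) : Set ℕ) (r + 1) n ≤ reps (A ω) (r + 1) n := by
    refine reps_mono (fun a ha _ => ?_)
    rw [mem_coe, mem_tr] at ha
    exact ha.2
  exact_mod_cast h4

end Pool.Agent.Q106.WG
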