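import Pool.Agent.Q106.WG.Info

/-!
# Random sets of small information relative to the sieved model: sharpness
-/

set_option autoImplicit false

namespace Pool.Agent.Q106.WG

open Finset MeasureTheory ProbabilityTheory Filter Pool.Agent.Q120.GM
open Pool.Agent.Q120.ET (IsRandomSet)
open Pool.Agent.Q120.ME (bern relEnt ind)
open scoped Topology

/-- A divergent sum, in blocks. -/
theorem div_blocks {k : ℕ} (hk : 2 ≤ k) {t : ℕ} (ht : 1 ≤ t) {d : ℕ → ℝ} (hd : Monotone d) (hd0 : ∀ n, 0 ≤ d n)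
    (h : Summable (fun j : ℕ => (d (2 ^ (t * (j + 1))) - d (2 ^ (t * j))) / ((2 : ℝ) ^ (t * j)) ^ (1 / (k : ℝ)))) :
    Summable (fun n : ℕ => d n / (n : ℝ) ^ (1 + 1 / (k : ℝ))) := by
  have hk0 : (0 : ℝ) < k := by positivity
  obtain ⟨R, hR⟩ : ∃ R : ℝ, R = ((2 : ℝ) ^ t) ^ (1 / (k : ℝ)) := ⟨_, rfl⟩
  have hR1 : 1 < R := by
    rw [hR]
    refine Real.one_lt_rpow ?_ (by positivity)
    exact one_lt_pow₀ (by norm_num) (by omega)
  have hR0 : 0 < R := by linarith
  have hRj : ∀ j : ℕ, ((2 : ℝ) ^ (t * j)) ^ (1 / (k : ℝ)) = R ^ j := by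
    intro j
    rw [hR, pow_mul, ← Real.rpow_natCast ((2 : ℝ) ^ t), ← Real.rpow_mul (by positivity), mul_comm, Real.rpow_mul (by positivity),
      Real.rpow_natCast]
  obtain ⟨D, hD⟩ : ∃ D : ℕ → ℝ, D = fun j => d (2 ^ (t * j)) := ⟨_, rfl⟩
  have hD0 : ∀ j, 0 ≤ D j := fun j => by rw [hD]; exact hd0 _
  have hDm : Monotone D := by
    intro i j hij
    rw [hD]
    exact hd (Nat.pow_le_pow_right (by norm_num) (Nat.mul_le_mul_left _ hij))
  have h' : Summable (fun j : ℕ => (D (j + 1) - D j) / R ^ j) := by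
    refine h.congr (fun j => ?_)
    rw [hRj, hD]
  -- the partial sums of `D j / R ^ j`
  have hS : ∃ M : ℝ, ∀ J : ℕ, ∑ j ∈ range J, D j / R ^ j ≤ M := by
    obtain ⟨E, hE⟩ : ∃ E : ℝ, E = ∑' j : ℕ, (D (j + 1) - D j) / R ^ j := ⟨_, rfl⟩
    have hE1 : ∀ J : ℕ, ∑ j ∈ range J, (D (j + 1) - D j) / R ^ j ≤ E := by
      intro J
      rw [hE]
      exact h'.sum_le_tsum _ (fun j _ => div_nonneg (sub_nonneg.2 (hDm (Nat.le_succ j))) (by positivity))
    refine ⟨(D 0 + E) * (R / (R - 1)), fun J => ?_⟩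
    obtain ⟨S, hSd⟩ : ∃ S, S = ∑ j ∈ range J, D j / R ^ j := ⟨_, rfl⟩
    have e1 : ∑ j ∈ range (J + 1), D j / R ^ j = D 0 + ∑ j ∈ range J, D (j + 1) / R ^ (j + 1) := by
      rw [sum_range_succ']
      simp only [pow_zero, div_one]
      ring
    have e2 : ∑ j ∈ range J, D (j + 1) / R ^ (j + 1) = (∑ j ∈ range J, (D (j + 1) - D j) / R ^ j + S) / R := by
      rw [hSd, ← sum_add_distrib, sum_div]
      refine sum_congr rfl (fun j _ => ?_)
      rw [pow_succ]
      field_simp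
      ring
    have e3 : S ≤ ∑ j ∈ range (J + 1), D j / R ^ j := by
      rw [sum_range_succ, ← hSd]
      have := div_nonneg (hD0 J) (pow_pos hR0 J).le
      linarith
    have e4 := hE1 J
    rw [e1, e2] at e3
    rw [← hSd]
    have e5 : S * R ≤ D 0 * R + (E + S) := by
      have e6 : S ≤ D 0 + (E + S) / R := by
        refine e3.trans ?_
        have : (∑ j ∈ range J, (D (j + 1) - D j) / R ^ j + S) / R ≤ (E + S) / R := div_le_div_of_nonneg_right (by linarith) hR0.le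
        linarith
      calc S * R ≤ (D 0 + (E + S) / R) * R := mul_le_mul_of_nonneg_right e6 hR0.le
        _ = D 0 * R + (E + S) := by field_simp
    have hE0 : 0 ≤ E := by
      have := hE1 0
      rw [range_zero, sum_empty] at this
      exact this
    have e7 : S * (R - 1) ≤ (D 0 + E) * R := by nlinarith [hD0 0]
    rw [← mul_div_assoc, le_div_iff₀ (by linarith)]
    exact e7
  obtain ⟨M, hM⟩ := hS
  -- the sum over the integers
  have hf0 : ∀ n : ℕ, 0 ≤ d n / (n : ℝ) ^ (1 + 1 / (k : ℝ)) := fun n => div_nonneg (hd0 n) (by positivity)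
  have hf1 : d 0 / ((0 : ℕ) : ℝ) ^ (1 + 1 / (k : ℝ)) = 0 := by
    rw [Nat.cast_zero, Real.zero_rpow (by positivity), div_zero]
  have hblk : ∀ J : ℕ, ∑ n ∈ range (2 ^ (t * J)), d n / (n : ℝ) ^ (1 + 1 / (k : ℝ)) ≤
      2 ^ t * R * ∑ j ∈ range J, D (j + 1) / R ^ (j + 1) := by
    intro J
    induction J with
    | zero =>
      rw [mul_zero, pow_zero, range_one, sum_singleton, hf1, range_zero, sum_empty, mul_zero]
    | succ J ih =>
      have hle : 2 ^ (t * J) ≤ 2 ^ (t * (J + 1)) := Nat.pow_le_pow_right (by norm_num) (Nat.mul_le_mul_left _ (by omega))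
      rw [← sum_range_add_sum_Ico _ hle, sum_range_succ, mul_add (2 ^ t * R)]
      refine add_le_add ih ?_
      have h5 : ∀ n ∈ Ico (2 ^ (t * J)) (2 ^ (t * (J + 1))), d n / (n : ℝ) ^ (1 + 1 / (k : ℝ)) ≤
          D (J + 1) / (2 ^ (t * J) * R ^ J) := by
        intro n hn
        rw [mem_Ico] at hn
        have hX0 : (0 : ℝ) < 2 ^ (t * J) := by positivity
        have hn1 : ((2 : ℝ) ^ (t * J)) ≤ n := by exact_mod_cast hn.1
        refine div_le_div₀ (hD0 _) ?_ (by positivity) ?_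
        · rw [hD]
          exact hd hn.2.le
        · rw [← hRj, ← Real.rpow_one_add' hX0.le (by positivity)]
          exact Real.rpow_le_rpow hX0.le hn1 (by positivity)
      refine (sum_le_sum h5).trans ?_
      rw [sum_const, Nat.card_Ico, nsmul_eq_mul]
      have h6 : ((2 ^ (t * (J + 1)) - 2 ^ (t * J) : ℕ) : ℝ) ≤ 2 ^ (t * (J + 1)) := by
        have : 2 ^ (t * (J + 1)) - 2 ^ (t * J) ≤ 2 ^ (t * (J + 1)) := Nat.sub_le _ _
        exact_mod_cast this
      refine (mul_le_mul_of_nonneg_right h6 (div_nonneg (hD0 _) (by positivity))).trans (le_of_eq ?_)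
      rw [mul_add, mul_one, pow_add, pow_succ R]
      field_simp
  refine summable_of_sum_range_le (c := 2 ^ t * R * M) hf0 (fun N => ?_)
  have h1 : N ≤ 2 ^ (t * N) := Nat.lt_two_pow_self.le.trans (Nat.pow_le_pow_right (by norm_num) (Nat.le_mul_of_pos_left _ ht))
  refine (sum_le_sum_of_subset_of_nonneg (range_mono h1) (fun n _ _ => hf0 n)).trans ((hblk N).trans ?_)
  refine mul_le_mul_of_nonneg_left ?_ (by positivity)
  have h2 := hM (N + 1)
  rw [sum_range_succ'] at h2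
  simp only [pow_zero, div_one] at h2
  have := hD0 0
  linarith

variable {k q : ℕ}

/-- **Random sets with the prescribed information and infinitely many exceptions in every class.** -/
theorem info_lower (hk : 2 ≤ k) (hq : 1 ≤ q) (s : ℕ) {d : ℕ → ℝ} (hd : Monotone d) (hd0 : ∀ n, 0 ≤ d n)
    (hns : ¬ Summable (fun n : ℕ => d n / (n : ℝ) ^ (1 + 1 / (k : ℝ)))) :
    ∃ (Ω : Type) (_ : MeasurableSpace Ω) (μ : Measure Ω) (_ : IsProbabilityMeasure μ) (A : Ω → Set ℕ), IsRandomSet A ∧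
      (∀ x, relEnt (prob k q) μ A (ind (UU k q) x) ≤ d x) ∧ (∀ᵐ ω ∂μ, A ω ⊆ UU k q) ∧
      ∀ᵐ ω ∂μ, ∀ c : ℕ, ∃ᶠ n : ℕ in atTop, n ≡ c [MOD q] ∧ ¬ SumOf (A ω) s n := by
  classical
  have hk0 : (0 : ℝ) < k := by positivity
  have hk1 : (1 : ℝ) < k := by exact_mod_cast (by omega : 1 < k)
  have hq0 : (0 : ℝ) < q := by positivity
  obtain ⟨t, ht⟩ : ∃ t, t = s + 1 := ⟨_, rfl⟩
  have ht1 : 1 ≤ t := by omega
  have hst : s + 2 ≤ 2 ^ t := by
    rw [ht]
    exact Nat.lt_two_pow_self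
  obtain ⟨y, hyd⟩ : ∃ y : ℕ → ℕ, y = fun j => 2 ^ (t * j) := ⟨_, rfl⟩
  have hy : StrictMono y := by
    rw [hyd]
    intro i j hij
    exact Nat.pow_lt_pow_right (by norm_num) (Nat.mul_lt_mul_of_pos_left hij ht1)
  -- small probabilities
  have hex : 1 / (k : ℝ) - 1 < 0 := by
    rw [sub_neg, div_lt_one hk0]
    exact hk1
  have hsmall : ∀ᶠ n : ℕ in atTop, prob k q n ≤ 1 / 2 := by
    have t1 : Tendsto (fun n : ℕ => (q : ℝ) * (1 / k * (n : ℝ) ^ (1 / (k : ℝ) - 1))) atTop (𝓝 (q * (1 / k * 0))) := by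
      refine (Tendsto.const_mul _ ?_).const_mul _
      have := (tendsto_rpow_neg_atTop (y := -(1 / (k : ℝ) - 1)) (by linarith)).comp tendsto_natCast_atTop_atTop
      rw [neg_neg] at this
      exact this
    rw [mul_zero, mul_zero] at t1
    filter_upwards [t1.eventually_le_const (show (0 : ℝ) < 1 / 2 by norm_num)] with n hn
    unfold prob
    refine (min_le_right _ _).trans (le_trans ?_ hn)
    refine mul_le_mul_of_nonneg_right ?_ (by positivity)
    exact_mod_cast pw_le k q n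
  obtain ⟨N₀, hN₀⟩ := eventually_atTop.1 hsmall
  obtain ⟨J, hJ⟩ : ∃ J, J = N₀ + 1 := ⟨_, rfl⟩
  have hyJ : ∀ j, J ≤ j → N₀ ≤ y j := by
    intro j hj
    have := hy.le_apply (x := j)
    omega
  -- the costs
  obtain ⟨Λ, hΛd⟩ : ∃ Λ : ℕ → ℝ, Λ = fun j => 2 * (q + ((2 ^ (t * (j + 1)) : ℕ) : ℝ) ^ (1 / (k : ℝ))) := ⟨_, rfl⟩
  have hΛ0 : ∀ j, 0 < Λ j := by
    intro j
    rw [hΛd]
    positivity
  obtain ⟨e, hed⟩ : ∃ e : ℕ → ℝ, e = fun j => d (y j) - d (y (j - 1)) := ⟨_, rfl⟩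
  have he0 : ∀ j, 0 ≤ e j := by
    intro j
    rw [hed]
    exact sub_nonneg.2 (hd (hy.monotone (Nat.sub_le _ _)))
  obtain ⟨w, hwd⟩ : ∃ w : ℕ → ℝ, w = fun j => if J ≤ j then min 1 (e j / Λ j) else 0 := ⟨_, rfl⟩
  have hw01 : ∀ j, 0 ≤ w j ∧ w j ≤ 1 := by
    intro j
    rw [hwd]
    simp only
    split_ifs
    · exact ⟨le_min zero_le_one (div_nonneg (he0 j) (hΛ0 j).le), min_le_left _ _⟩
    · exact ⟨le_rfl, zero_le_one⟩
  have hw0 : w 0 = 0 := by
    rw [hwd]
    simp only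
    rw [if_neg (by omega)]
  have hwe : ∀ j, w j * Λ j ≤ e j := by
    intro j
    rw [hwd]
    simp only
    split_ifs
    · calc min 1 (e j / Λ j) * Λ j ≤ e j / Λ j * Λ j := mul_le_mul_of_nonneg_right (min_le_right _ _) (hΛ0 j).le
        _ = e j := div_mul_cancel₀ _ (hΛ0 j).ne'
    · rw [zero_mul]
      exact he0 j
  have hsum : ∀ j, ∑ i ∈ range (j + 1), w i * Λ i ≤ d (y j) := by
    intro j
    induction j with
    | zero =>
      rw [zero_add, range_one, sum_singleton, hw0, zero_mul]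
      exact hd0 _
    | succ j ih =>
      rw [sum_range_succ]
      have h1 := hwe (j + 1)
      rw [hed] at h1
      simp only [Nat.add_sub_cancel] at h1
      linarith
  have hns' : ¬ Summable w := by
    intro hsw
    apply hns
    refine div_blocks hk ht1 hd hd0 ?_
    have h1 : ∀ᶠ j : ℕ in atTop, w j < 1 := hsw.tendsto_atTop_zero.eventually_lt_const zero_lt_one
    have h2 : Summable (fun j : ℕ => e j / Λ j) := by
      refine (summable_congr_atTop (f₁ := fun j : ℕ => e j / Λ j) (g₁ := w) ?_).2 hsw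
      · filter_upwards [h1, eventually_ge_atTop J] with j g1 g2
        rw [hwd] at g1 ⊢
        simp only at g1 ⊢
        rw [if_pos g2] at g1 ⊢
        rw [min_lt_iff] at g1
        rcases g1 with g1 | g1
        · exact absurd g1 (lt_irrefl _)
        · rw [min_eq_right g1.le]
    have h3 : Summable (fun j : ℕ => e (j + 1) / Λ (j + 1)) := (summable_nat_add_iff 1).2 h2
    have hR : ∀ j : ℕ, Λ (j + 1) ≤ 2 * (q + 1) * ((2 : ℝ) ^ (2 * t)) * ((2 : ℝ) ^ (t * j)) ^ (1 / (k : ℝ)) := by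
      intro j
      rw [hΛd]
      have e1 : (((2 ^ (t * (j + 1 + 1)) : ℕ) : ℝ)) ^ (1 / (k : ℝ)) ≤ ((2 : ℝ) ^ (2 * t)) * ((2 : ℝ) ^ (t * j)) ^ (1 / (k : ℝ)) := by
        have e2 : (((2 ^ (t * (j + 1 + 1)) : ℕ) : ℝ)) = (2 : ℝ) ^ (2 * t) * (2 : ℝ) ^ (t * j) := by
          push_cast
          rw [← pow_add]
          congr 1
          ring
        rw [e2, Real.mul_rpow (by positivity) (by positivity)]
        refine mul_le_mul_of_nonneg_right ?_ (by positivity)
        calc ((2 : ℝ) ^ (2 * t)) ^ (1 / (k : ℝ)) ≤ ((2 : ℝ) ^ (2 * t)) ^ (1 : ℝ) := by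
              refine Real.rpow_le_rpow_of_exponent_le (one_le_pow₀ (by norm_num)) ?_
              rw [div_le_one hk0]
              exact hk1.le
          _ = _ := Real.rpow_one _
      have e3 : (1 : ℝ) ≤ ((2 : ℝ) ^ (2 * t)) * ((2 : ℝ) ^ (t * j)) ^ (1 / (k : ℝ)) := by
        have g1 : (1 : ℝ) ≤ (2 : ℝ) ^ (2 * t) := one_le_pow₀ (by norm_num)
        have g2 : (1 : ℝ) ≤ ((2 : ℝ) ^ (t * j)) ^ (1 / (k : ℝ)) := Real.one_le_rpow (one_le_pow₀ (by norm_num)) (by positivity)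
        nlinarith
      simp only
      nlinarith
    refine Summable.of_nonneg_of_le (fun j => ?_) (fun j => ?_) (h3.mul_left (2 * (q + 1) * ((2 : ℝ) ^ (2 * t))))
    · exact div_nonneg (sub_nonneg.2 (hd (Nat.pow_le_pow_right (by norm_num) (Nat.mul_le_mul_left _ (by omega))))) (by positivity)
    · have g1 : e (j + 1) = d (2 ^ (t * (j + 1))) - d (2 ^ (t * j)) := by
        rw [hed, hyd]
        simp only [Nat.add_sub_cancel]
      rw [← g1, div_le_iff₀ (by positivity)]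
      have g2 := hR j
      calc e (j + 1) = e (j + 1) / Λ (j + 1) * Λ (j + 1) := (div_mul_cancel₀ _ (hΛ0 _).ne').symm
        _ ≤ e (j + 1) / Λ (j + 1) * (2 * (q + 1) * ((2 : ℝ) ^ (2 * t)) * ((2 : ℝ) ^ (t * j)) ^ (1 / (k : ℝ))) :=
            mul_le_mul_of_nonneg_left g2 (div_nonneg (he0 _) (hΛ0 _).le)
        _ = _ := by ring
  have hcost : ∀ j, w j ≠ 0 → ∑ n ∈ Ico (y j) (y (j + 1)), (if n ∈ UU k q then -Real.log (1 - prob k q n) else 0) ≤ Λ j := by
    intro j hj
    have hjJ : J ≤ j := by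
      by_contra hcon
      apply hj
      rw [hwd]
      simp only
      rw [if_neg hcon]
    have h1 : ∀ n ∈ Ico (y j) (y (j + 1)), (if n ∈ UU k q then -Real.log (1 - prob k q n) else 0) ≤ 2 * prob k q n := by
      intro n hn
      rw [mem_Ico] at hn
      split_ifs with h
      · exact Pool.Agent.Q96.ME.neg_log_le h.1 (hN₀ n ((hyJ j hjJ).trans hn.1))
      · have := prob_nonneg k q n
        linarith
    refine (sum_le_sum h1).trans ?_
    rw [← mul_sum, hΛd]
    refine mul_le_mul_of_nonneg_left ?_ (by norm_num)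
    have h2 := mean_le hk hq (y (j + 1))
    refine le_trans (sum_le_sum_of_subset_of_nonneg (t := Icc 1 (y (j + 1))) ?_ (fun n _ _ => prob_nonneg k q n)) (h2.trans (le_of_eq ?_))
    · intro n hn
      rw [mem_Ico] at hn
      rw [mem_Icc]
      have : 1 ≤ y j := by rw [hyd]; exact Nat.one_le_two_pow
      omega
    · rw [hyd]
  obtain ⟨Ω, i1, μ, i2, A, hA, hent, hsub, hfree⟩ := deletion (U := UU k q) (p := prob k q) (d := d) hy hw01 hw0 hns' (fun n hn => hn) hd hd0 hcost hsum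
  refine ⟨Ω, i1, μ, i2, A, hA, hent, hsub, ?_⟩
  filter_upwards [hfree] with ω hω c
  rw [Filter.frequently_atTop]
  intro N
  obtain ⟨j, hj, hj2⟩ := (hω.and_eventually (eventually_ge_atTop (N + q))).exists
  -- an integer of the class
  have hyj : j < y j := by
    rw [hyd]
    exact Nat.lt_two_pow_self.trans_le (Nat.pow_le_pow_right (by norm_num) (Nat.le_mul_of_pos_left _ ht1))
  obtain ⟨z, hz⟩ : ∃ z, z = (s + 1) * y j := ⟨_, rfl⟩
  have hz2 : z + y j ≤ y (j + 1) := by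
    have e1 : y (j + 1) = 2 ^ t * y j := by
      rw [hyd]
      simp only
      rw [← pow_add]
      congr 1
      ring
    rw [hz, e1]
    calc (s + 1) * y j + y j = (s + 2) * y j := by ring
      _ ≤ 2 ^ t * y j := Nat.mul_le_mul_right _ hst
  have hz3 : y j ≤ z := by
    rw [hz]
    exact Nat.le_mul_of_pos_left _ (by omega)
  obtain ⟨n, hn1, hn2, hn3⟩ : ∃ n, z ≤ n ∧ n < z + q ∧ n ≡ c [MOD q] := by
    refine ⟨z + (c + (q - z % q)) % q, by omega, by have := Nat.mod_lt (c + (q - z % q)) hq; omega, ?_⟩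
    have h1 : z + (c + (q - z % q)) % q ≡ z + (c + (q - z % q)) [MOD q] := Nat.ModEq.add_left _ (Nat.mod_modEq _ _)
    refine h1.trans ?_
    have h2 : z % q ≤ q := (Nat.mod_lt _ hq).le
    have h3 : z + (c + (q - z % q)) = c + (z / q + 1) * q := by
      have h4 := Nat.div_add_mod z q
      have h5 : (z / q + 1) * q = q * (z / q) + q := by ring
      omega
    rw [h3]
    unfold Nat.ModEq
    rw [Nat.add_mul_mod_self_right]
  refine ⟨n, by omega, hn3, ?_⟩
  rintro ⟨a, ha, hsum'⟩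
  have hlt : ∀ i, a i < y j := by
    intro i
    have h1 := single_le_sum (f := a) (fun j _ => Nat.zero_le _) (mem_univ i)
    rcases ha i with h | h
    · omega
    · by_contra hcon
      exact hj (a i) h ⟨by omega, by omega⟩
  have h2 : ∑ i, a i ≤ s * y j := by
    calc ∑ i, a i ≤ ∑ _i : Fin s, y j := sum_le_sum (fun i _ => (hlt i).le)
      _ = s * y j := by rw [sum_const, card_univ, Fintype.card_fin, smul_eq_mul]
  have h3 : z = s * y j + y j := by rw [hz]; ring
  omega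

end Pool.Agent.Q106.WG
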