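import Pool.Agent.Q106.UR.Up
import Pool.Agent.Q120.GM.Exists

/-!
# Janson's inequality for the lower tail
-/

set_option autoImplicit false

namespace Pool.Agent.Q106.WG

open Finset MeasureTheory ProbabilityTheory Filter Pool.Agent.Q120.GM
open Pool.Agent.Q106.UR (ind nm pT cf pT_nonneg pT_le_one ind_zero_or ind_nonneg ind_le_one janson' sum_cf)

variable {Ω : Type*} [MeasurableSpace Ω] {μ : Measure Ω} [IsProbabilityMeasure μ] {ι κ : Type*}
  {p : ι → ℝ} {A : Ω → Set ι}

omit [MeasurableSpace Ω] in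
theorem prod_ind [DecidableEq ι] [DecidableEq κ] (S : Finset κ) (T : κ → Finset ι) (ω : Ω) :
    ∏ j ∈ S, ind A (T j) ω = ind A (S.biUnion T) ω := by
  induction S using Finset.induction_on with
  | empty =>
    have : ω ∈ all A ((∅ : Finset κ).biUnion T) := fun i hi => by simp at hi
    rcases ind_zero_or (A := A) ((∅ : Finset κ).biUnion T) ω with h | h
    · exact absurd this h.2
    · rw [prod_empty, h.1]
  | insert a S ha ih =>
    rw [prod_insert ha, ih, Pool.Agent.Q106.UR.ind_mul, biUnion_insert]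

theorem int_ind (hA : IsModel μ p A) (T : Finset ι) : ∫ ω, ind A T ω ∂μ = pT p T := by
  unfold ind
  rw [integral_indicator (meas_all hA T), setIntegral_const, smul_eq_mul, mul_one, real_all hA]
  rfl

theorem integrable_ind (hA : IsModel μ p A) (T : Finset ι) : Integrable (fun ω => ind A T ω) μ :=
  (integrable_const (1 : ℝ)).indicator (meas_all hA T)

/-- Inclusion and exclusion. -/
theorem int_prod (hA : IsModel μ p A) [DecidableEq ι] [DecidableEq κ] (J : Finset κ) (T : κ → Finset ι) (x : ℝ) :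
    ∫ ω, ∏ j ∈ J, (1 - x * ind A (T j) ω) ∂μ = ∑ S ∈ J.powerset, (-x) ^ S.card * pT p (S.biUnion T) := by
  have h1 : ∀ ω, ∏ j ∈ J, (1 - x * ind A (T j) ω) = ∑ S ∈ J.powerset, (-x) ^ S.card * ind A (S.biUnion T) ω := by
    intro ω
    have h2 : ∀ j ∈ J, 1 - x * ind A (T j) ω = 1 + (-x) * ind A (T j) ω := fun j _ => by ring
    rw [prod_congr rfl h2, Finset.prod_one_add]
    refine sum_congr rfl (fun S _ => ?_)
    rw [prod_mul_distrib, prod_const, prod_ind]
  simp_rw [h1]
  rw [integral_finset_sum _ (fun S _ => (integrable_ind hA _).const_mul _)]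
  refine sum_congr rfl (fun S _ => ?_)
  rw [integral_const_mul, int_ind hA]

theorem real_none (hA : IsModel μ p A) [DecidableEq ι] [DecidableEq κ] (J : Finset κ) (T : κ → Finset ι) :
    μ.real (none A J T) = ∑ S ∈ J.powerset, (-1) ^ S.card * pT p (S.biUnion T) := by
  have h1 : ∀ ω, ∏ j ∈ J, (1 - 1 * ind A (T j) ω) = (none A J T).indicator (fun _ => (1 : ℝ)) ω := by
    intro ω
    by_cases h : ω ∈ none A J T
    · rw [Set.indicator_of_mem h]
      refine prod_eq_one (fun j hj => ?_)
      rcases ind_zero_or (A := A) (T j) ω with h' | h'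
      · rw [h'.1]; ring
      · exact absurd h'.2 (h j hj)
    · rw [Set.indicator_of_notMem h]
      have : ∃ j ∈ J, ω ∈ all A (T j) := by
        by_contra hcon
        push Not at hcon
        exact h hcon
      obtain ⟨j, hj, hj'⟩ := this
      refine prod_eq_zero hj ?_
      rcases ind_zero_or (A := A) (T j) ω with h' | h'
      · exact absurd hj' h'.2
      · rw [h'.1]; ring
  have h2 := int_prod hA J T 1
  simp_rw [h1] at h2
  rw [integral_indicator (meas_none hA _ _), setIntegral_const, smul_eq_mul, mul_one] at h2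
  exact h2

/-- **Janson's inequality for the generating function.** -/
theorem janson_gen (hA : IsModel μ p A) [DecidableEq ι] [DecidableEq κ] (J : Finset κ) (T : κ → Finset ι) {x : ℝ}
    (hx0 : 0 ≤ x) (hx1 : x ≤ 1) : ∫ ω, ∏ j ∈ J, (1 - x * ind A (T j) ω) ∂μ ≤
      Real.exp (-(x * ∑ j ∈ J, pT p (T j)) + x ^ 2 * ∑ e ∈ cf J T, pT p (T e.1 ∪ T e.2)) := by
  obtain ⟨q, hq⟩ : ∃ q : ι ⊕ κ → ℝ, q = Sum.elim p (fun _ => x) := ⟨_, rfl⟩
  obtain ⟨U, hU⟩ : ∃ U : κ → Finset (ι ⊕ κ), U = fun j => (T j).disjSum {j} := ⟨_, rfl⟩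
  have hB : IsModel (prodMeasure q) q (trueSet (ι := ι ⊕ κ)) := by
    refine isModel q ?_ ?_
    · rintro (i | j)
      · rw [hq]; exact p_nonneg hA i
      · rw [hq]; exact hx0
    · rintro (i | j)
      · rw [hq]; exact p_le_one hA i
      · rw [hq]; exact hx1
  have hp : ∀ (S : Finset ι) (V : Finset κ), pT q (S.disjSum V) = x ^ V.card * pT p S := by
    intro S V
    unfold pT
    rw [prod_disjSum, hq]
    simp only [Sum.elim_inl, Sum.elim_inr, prod_const]
    ring
  have hbi : ∀ S : Finset κ, S.biUnion U = (S.biUnion T).disjSum S := by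
    intro S
    ext a
    rcases a with i | j
    · simp only [mem_biUnion, hU, inl_mem_disjSum]
    · simp only [mem_biUnion, hU, inr_mem_disjSum, mem_singleton]
      constructor
      · rintro ⟨b, hb, rfl⟩
        exact hb
      · intro h
        exact ⟨j, h, rfl⟩
  have h1 := real_none hB J U
  rw [int_prod hA]
  have h2 : ∑ S ∈ J.powerset, (-x) ^ S.card * pT p (S.biUnion T) = ∑ S ∈ J.powerset, (-1) ^ S.card * pT q (S.biUnion U) := by
    refine sum_congr rfl (fun S _ => ?_)
    rw [hbi, hp, neg_pow x]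
    ring
  rw [h2, ← h1]
  refine (janson' hB J U).trans (le_of_eq ?_)
  have h3 : ∑ j ∈ J, pT q (U j) = x * ∑ j ∈ J, pT p (T j) := by
    rw [mul_sum]
    refine sum_congr rfl (fun j _ => ?_)
    rw [hU]
    simp only
    rw [hp, card_singleton, pow_one]
  have h4 : cf J U = cf J T := by
    unfold cf
    ext e
    rw [mem_filter, mem_filter]
    refine and_congr_right (fun _ => and_congr_right (fun he => ?_))
    rw [not_iff_not, hU, Finset.disjoint_left, Finset.disjoint_left]
    simp only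
    constructor
    · intro h i hi hi'
      exact h (inl_mem_disjSum.2 hi) (inl_mem_disjSum.2 hi')
    · rintro h (i | j) hi hi'
      · exact h (inl_mem_disjSum.1 hi) (inl_mem_disjSum.1 hi')
      · have e1 := mem_singleton.1 (inr_mem_disjSum.1 hi)
        have e2 := mem_singleton.1 (inr_mem_disjSum.1 hi')
        exact he (e1.symm.trans e2)
  have h5 : ∑ e ∈ cf J T, pT q (U e.1 ∪ U e.2) = x ^ 2 * ∑ e ∈ cf J T, pT p (T e.1 ∪ T e.2) := by
    rw [mul_sum]
    refine sum_congr rfl (fun e he => ?_)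
    have he' : e.1 ≠ e.2 := by
      unfold cf at he
      rw [mem_filter] at he
      exact he.2.1
    have h6 : U e.1 ∪ U e.2 = (T e.1 ∪ T e.2).disjSum {e.1, e.2} := by
      rw [hU]
      ext a
      rcases a with i | j
      · simp only [mem_union, inl_mem_disjSum]
      · simp only [mem_union, inr_mem_disjSum, mem_singleton, mem_insert]
    rw [h6, hp, card_pair he']
  rw [h3, h4, h5]

/-- **The lower tail.** -/
theorem lower_tail (hA : IsModel μ p A) [DecidableEq ι] [DecidableEq κ] (J : Finset κ) (T : κ → Finset ι) {m R : ℝ}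
    (hm : m = ∑ j ∈ J, pT p (T j)) (hR : 0 ≤ R) (hD : ∑ e ∈ cf J T, pT p (T e.1 ∪ T e.2) ≤ R * m) {v : ℝ}
    (hv : v ≤ m / 2) : μ.real {ω | nm A J T ω ≤ v} ≤ Real.exp (-(m / (8 * (2 * R + 1)))) := by
  obtain ⟨x, hx⟩ : ∃ x, x = 1 / (2 * (2 * R + 1)) := ⟨_, rfl⟩
  have hR1 : 0 < 2 * R + 1 := by linarith
  have hx0 : 0 < x := by rw [hx]; positivity
  have hx2 : x ≤ 1 / 2 := by
    rw [hx, div_le_div_iff₀ (by positivity) (by norm_num)]
    linarith
  have hm0 : 0 ≤ m := by rw [hm]; exact sum_nonneg (fun j _ => pT_nonneg hA _)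
  have hint : Integrable (fun ω => ∏ j ∈ J, (1 - x * ind A (T j) ω)) μ := by
    refine Integrable.of_bound (C := 1) ?_ ?_
    · exact (Finset.measurable_fun_prod J (fun j _ =>
        ((measurable_const.indicator (meas_all hA (T j))).const_mul _).const_sub _)).aestronglyMeasurable
    · refine Eventually.of_forall (fun ω => ?_)
      have h1 : ∀ j ∈ J, 0 ≤ 1 - x * ind A (T j) ω := fun j _ => by
        have := ind_le_one (A := A) (T j) ω
        nlinarith
      rw [Real.norm_of_nonneg (prod_nonneg h1)]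
      refine prod_le_one h1 (fun j _ => ?_)
      have := ind_nonneg (A := A) (T j) ω
      nlinarith
  -- the generating function
  have key : ∀ ω, nm A J T ω ≤ v → Real.exp (-((x + x ^ 2) * v)) ≤ ∏ j ∈ J, (1 - x * ind A (T j) ω) := by
    intro ω hω
    have h1 : ∀ j ∈ J, Real.exp (-((x + x ^ 2) * ind A (T j) ω)) ≤ 1 - x * ind A (T j) ω := by
      intro j _
      rcases ind_zero_or (A := A) (T j) ω with h | h
      · rw [h.1]; simp
      · rw [h.1, mul_one, mul_one, Real.exp_neg]
        have h2 : 1 + (x + x ^ 2) + (x + x ^ 2) ^ 2 / 2 ≤ Real.exp (x + x ^ 2) :=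
          Real.quadratic_le_exp_of_nonneg (by positivity)
        have h3 : 0 < 1 - x := by linarith
        rw [inv_le_comm₀ (Real.exp_pos _) h3]
        refine le_trans ?_ h2
        rw [inv_le_iff_one_le_mul₀ h3]
        nlinarith [mul_nonneg hx0.le (sub_nonneg.2 hx2), sq_nonneg x, mul_pos hx0 hx0, mul_pos (mul_pos hx0 hx0) hx0]
    calc Real.exp (-((x + x ^ 2) * v)) ≤ Real.exp (-((x + x ^ 2) * nm A J T ω)) := by
          refine Real.exp_le_exp.2 ?_
          have : 0 < x + x ^ 2 := by positivity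
          nlinarith
      _ = ∏ j ∈ J, Real.exp (-((x + x ^ 2) * ind A (T j) ω)) := by
          rw [← Real.exp_sum, sum_neg_distrib, ← mul_sum]
          rfl
      _ ≤ _ := prod_le_prod (fun j _ => (Real.exp_pos _).le) h1
  have hmark : μ.real {ω | nm A J T ω ≤ v} * Real.exp (-((x + x ^ 2) * v)) ≤
      ∫ ω, ∏ j ∈ J, (1 - x * ind A (T j) ω) ∂μ := by
    have h1 := mul_meas_ge_le_integral_of_nonneg (μ := μ) (f := fun ω => ∏ j ∈ J, (1 - x * ind A (T j) ω))
      (Eventually.of_forall (fun ω => prod_nonneg (fun j _ => by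
        have := ind_le_one (A := A) (T j) ω
        nlinarith))) hint (Real.exp (-((x + x ^ 2) * v)))
    rw [mul_comm]
    refine le_trans ?_ h1
    refine mul_le_mul_of_nonneg_left ?_ (Real.exp_pos _).le
    exact measureReal_mono (fun ω hω => key ω hω) (measure_ne_top _ _)
  have hg := janson_gen hA J T hx0.le (by linarith)
  rw [← hm] at hg
  have h1 : μ.real {ω | nm A J T ω ≤ v} ≤ Real.exp ((x + x ^ 2) * v) *
      Real.exp (-(x * m) + x ^ 2 * ∑ e ∈ cf J T, pT p (T e.1 ∪ T e.2)) := by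
    have h2 := hmark.trans hg
    have h3 : μ.real {ω | nm A J T ω ≤ v} = Real.exp ((x + x ^ 2) * v) *
        (μ.real {ω | nm A J T ω ≤ v} * Real.exp (-((x + x ^ 2) * v))) := by
      rw [mul_comm (μ.real _), ← mul_assoc, ← Real.exp_add, add_neg_cancel, Real.exp_zero, one_mul]
    rw [h3]
    exact mul_le_mul_of_nonneg_left h2 (Real.exp_pos _).le
  refine h1.trans ?_
  rw [← Real.exp_add]
  refine Real.exp_le_exp.2 ?_
  have h4 : x * (2 * R + 1) = 1 / 2 := by rw [hx]; field_simp
  have h5 : m / (8 * (2 * R + 1)) = x * m / 4 := by rw [hx]; field_simp; ring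
  rw [h5]
  have h6 : (x + x ^ 2) * v ≤ (x + x ^ 2) * (m / 2) := mul_le_mul_of_nonneg_left hv (by positivity)
  have h7 : x ^ 2 * ∑ e ∈ cf J T, pT p (T e.1 ∪ T e.2) ≤ x ^ 2 * (R * m) := mul_le_mul_of_nonneg_left hD (by positivity)
  have h8 : x ^ 2 * (R * m) + x ^ 2 * (m / 2) = x * m / 4 := by
    have : x ^ 2 * (R * m) + x ^ 2 * (m / 2) = x * m / 2 * (x * (2 * R + 1)) := by ring
    rw [this, h4]
    ring
  nlinarith

end Pool.Agent.Q106.WG
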