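import Pool.Agent.Q106.WG.Gen
import Pool.Agent.Q106.WG.Gk

/-!
# The sieved models of growing level: all congruences at once
-/

set_option autoImplicit false

namespace Pool.Agent.Q106.WG

open Finset MeasureTheory ProbabilityTheory Filter Pool.Agent.Q120.GM
open scoped Topology

/-- The level `Q n` at `n`: each `Q m` divides the later `Q n`, and `Q n = n^o(1)`. -/
structure Levels (Q : ℕ → ℕ) : Prop where
  pos : ∀ n, 1 ≤ Q n
  dvd : ∀ m n, m ≤ n → Q m ∣ Q n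
  slow : ∀ ε : ℝ, 0 < ε → ∀ᶠ n : ℕ in atTop, (Q n : ℝ) ≤ (n : ℝ) ^ ε

/-- The probabilities of the sieved model whose level at `n` is `Q n`. -/
noncomputable def lprob (k : ℕ) (Q : ℕ → ℕ) (n : ℕ) : ℝ := prob k (Q n) n

theorem Levels.mono {Q : ℕ → ℕ} (hQ : Levels Q) {m n : ℕ} (h : m ≤ n) : Q m ≤ Q n :=
  Nat.le_of_dvd (hQ.pos n) (hQ.dvd m n h)

/-- Residues modulo a divisor. -/
theorem pw_dvd {k q q' a : ℕ} (hq' : 1 ≤ q') (h : q' ∣ q) (ha : 1 ≤ pw k q a) : 1 ≤ pw k q' a := by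
  unfold pw at ha
  obtain ⟨x, hx⟩ := card_pos.1 ha
  rw [mem_filter] at hx
  exact pw_pos hq' (hx.2.of_dvd h)

/-- The first lemma of Borel and Cantelli. -/
theorem bc_sq {Ω : Type*} [MeasurableSpace Ω] {μ : Measure Ω} [IsProbabilityMeasure μ] {E : ℕ → Set Ω}
    (h : ∀ᶠ n : ℕ in atTop, μ.real (E n) ≤ ((n : ℝ) ^ 2)⁻¹) : ∀ᵐ ω ∂μ, ∀ᶠ n : ℕ in atTop, ω ∉ E n := by
  obtain ⟨N₀, hN⟩ := eventually_atTop.1 h
  obtain ⟨E', hE'⟩ : ∃ E' : ℕ → Set Ω, E' = fun n => {ω | N₀ ≤ n ∧ ω ∈ E n} := ⟨_, rfl⟩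
  have hsum : ∑' n, μ (E' n) ≠ ⊤ := by
    have hb : ∀ n, μ (E' n) ≤ ENNReal.ofReal (((n : ℝ) ^ 2)⁻¹) := by
      intro n
      by_cases hn : N₀ ≤ n
      · have h2 : μ.real (E' n) ≤ ((n : ℝ) ^ 2)⁻¹ := by
          refine le_trans (measureReal_mono ?_ (measure_ne_top _ _)) (hN n hn)
          intro ω hω
          rw [hE'] at hω
          exact hω.2
        rw [← ENNReal.ofReal_toReal (measure_ne_top μ (E' n))]
        exact ENNReal.ofReal_le_ofReal h2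
      · have : E' n = ∅ := by
          rw [hE']
          ext ω
          simp only [Set.mem_ofPred_eq, Set.mem_empty_iff_false, iff_false]
          exact fun h => hn h.1
        rw [this, measure_empty]
        exact zero_le
    have hs2 : Summable (fun n : ℕ => ((n : ℝ) ^ 2)⁻¹) := by simp
    refine ne_top_of_le_ne_top ?_ (ENNReal.tsum_le_tsum hb)
    exact hs2.tsum_ofReal_ne_top
  filter_upwards [ae_eventually_notMem hsum] with ω hω
  filter_upwards [hω, eventually_ge_atTop N₀] with n g1 g2 g3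
  refine g1 ?_
  rw [hE']
  exact ⟨g2, g3⟩

variable {k r : ℕ} {Q : ℕ → ℕ}

/-- The sizes of the probabilities of the elements comparable with `n`. -/
theorem lprob_bounds (hk : 2 ≤ k) (hQ : Levels Q) {n a : ℕ} (hn : 1 ≤ n) (h1 : n ≤ 4 * (r + 1) ^ 2 * a) (h2 : a ≤ n)
    (h3 : 1 ≤ pw k (Q n) a) : 1 / k * (n : ℝ) ^ (1 / (k : ℝ) - 1) ≤ lprob k Q a ∧
      lprob k Q a ≤ c1 k (Q n) r * (n : ℝ) ^ (1 / (k : ℝ) - 1) := by
  have hk0 : (0 : ℝ) < k := by positivity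
  have hk1 : (1 : ℝ) ≤ k := by exact_mod_cast (by omega : 1 ≤ k)
  have hex : 1 / (k : ℝ) - 1 ≤ 0 := by
    rw [sub_nonpos, div_le_one hk0]
    exact hk1
  have ha0 : 1 ≤ a := by
    rcases Nat.eq_zero_or_pos a with h | h
    · rw [h, mul_zero] at h1
      omega
    · exact h
  have ha0' : (0 : ℝ) < a := by exact_mod_cast ha0
  have hn0 : (0 : ℝ) < n := by exact_mod_cast hn
  have hq0 : (0 : ℝ) < Q n := by exact_mod_cast hQ.pos n
  have hpw : 1 ≤ pw k (Q a) a := pw_dvd (hQ.pos a) (hQ.dvd a n h2) h3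
  have hpw' : (1 : ℝ) ≤ pw k (Q a) a := by exact_mod_cast hpw
  have hpq : (pw k (Q a) a : ℝ) ≤ Q n := by exact_mod_cast (pw_le k (Q a) a).trans (hQ.mono h2)
  constructor
  · unfold lprob prob
    have h3 : (n : ℝ) ^ (1 / (k : ℝ) - 1) ≤ (a : ℝ) ^ (1 / (k : ℝ) - 1) :=
      Real.rpow_le_rpow_of_nonpos ha0' (by exact_mod_cast h2) hex
    refine le_min ?_ ?_
    · have h4 : (n : ℝ) ^ (1 / (k : ℝ) - 1) ≤ 1 := Real.rpow_le_one_of_one_le_of_nonpos (by exact_mod_cast hn) hex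
      have h5 : 1 / (k : ℝ) ≤ 1 := by rw [div_le_one hk0]; exact hk1
      calc 1 / (k : ℝ) * (n : ℝ) ^ (1 / (k : ℝ) - 1) ≤ 1 * 1 := mul_le_mul h5 h4 (by positivity) zero_le_one
        _ = 1 := by ring
    · calc 1 / (k : ℝ) * (n : ℝ) ^ (1 / (k : ℝ) - 1) ≤ 1 / (k : ℝ) * (a : ℝ) ^ (1 / (k : ℝ) - 1) :=
            mul_le_mul_of_nonneg_left h3 (by positivity)
        _ = 1 * (1 / (k : ℝ) * (a : ℝ) ^ (1 / (k : ℝ) - 1)) := by ring
        _ ≤ _ := mul_le_mul_of_nonneg_right hpw' (by positivity)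
  · unfold lprob prob
    refine (min_le_right _ _).trans ?_
    have h3 : (a : ℝ) ^ (1 / (k : ℝ) - 1) ≤ (1 / (4 * ((r : ℝ) + 1) ^ 2) * n) ^ (1 / (k : ℝ) - 1) := by
      refine Real.rpow_le_rpow_of_nonpos (by positivity) ?_ hex
      have h4 : (n : ℝ) ≤ 4 * ((r : ℝ) + 1) ^ 2 * a := by exact_mod_cast h1
      rw [div_mul_eq_mul_div, one_mul, div_le_iff₀ (by positivity)]
      linarith
    rw [Real.mul_rpow (by positivity) hn0.le] at h3
    calc (pw k (Q a) a : ℝ) * (1 / k * (a : ℝ) ^ (1 / (k : ℝ) - 1)) ≤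
        Q n * (1 / k * ((1 / (4 * ((r : ℝ) + 1) ^ 2)) ^ (1 / (k : ℝ) - 1) * (n : ℝ) ^ (1 / (k : ℝ) - 1))) :=
          mul_le_mul hpq (mul_le_mul_of_nonneg_left h3 (by positivity)) (by positivity) hq0.le
      _ = _ := by
          unfold c1
          ring

/-- The exponent. -/
theorem exponent (hk : 2 ≤ k) (hr : 1 ≤ r) : ∃ γ > 0, ∀ q : ℕ, 1 ≤ q →
    γ / (q : ℝ) ^ (2 * r) ≤ d2 k q r / (8 * (2 * d3 r (c1 k q r) + 1)) := by
  have hk0 : (0 : ℝ) < k := by positivity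
  obtain ⟨B, hB⟩ : ∃ B : ℝ, B = (1 / (4 * ((r : ℝ) + 1) ^ 2)) ^ (1 / (k : ℝ) - 1) := ⟨_, rfl⟩
  have hB0 : 0 < B := by rw [hB]; positivity
  obtain ⟨α, hα⟩ : ∃ α : ℝ, α = (1 / (4 * ((r : ℝ) + 1) ^ 2)) ^ r * (1 / (k : ℝ)) ^ (r + 1) := ⟨_, rfl⟩
  have hα0 : 0 < α := by rw [hα]; positivity
  obtain ⟨β, hβ⟩ : ∃ β : ℝ, β = 8 * (2 * (2 ^ (r + 1) * (B / k) ^ r) + 1) := ⟨_, rfl⟩
  have hβ0 : 0 < β := by rw [hβ]; positivity
  refine ⟨α / β, by positivity, fun q hq => ?_⟩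
  have hq0 : (0 : ℝ) < q := by exact_mod_cast hq
  have hq1 : (1 : ℝ) ≤ (q : ℝ) ^ r := one_le_pow₀ (by exact_mod_cast hq)
  have e1 : d2 k q r = α / (q : ℝ) ^ r := by
    rw [hα]
    unfold d2
    rw [show (1 : ℝ) / (4 * ((q : ℝ) * ((r : ℝ) + 1) ^ 2)) = 1 / (4 * ((r : ℝ) + 1) ^ 2) * (1 / q) by field_simp, mul_pow,
      one_div_pow (q : ℝ)]
    ring
  have e2 : d3 r (c1 k q r) = 2 ^ (r + 1) * (B / k) ^ r * (q : ℝ) ^ r := by
    unfold d3
    rw [← pow_succ', Nat.sub_add_cancel hr]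
    unfold c1
    rw [← hB, show (q : ℝ) / k * B = B / k * q by ring, mul_pow]
    ring
  have e3 : 8 * (2 * d3 r (c1 k q r) + 1) ≤ β * (q : ℝ) ^ r := by
    rw [e2, hβ]
    nlinarith
  have e4 : 0 < 8 * (2 * d3 r (c1 k q r) + 1) := by
    rw [e2]
    positivity
  rw [e1, div_div, div_div]
  refine div_le_div_of_nonneg_left hα0.le (by positivity) ?_
  calc (q : ℝ) ^ r * (8 * (2 * d3 r (c1 k q r) + 1)) ≤ (q : ℝ) ^ r * (β * (q : ℝ) ^ r) :=
        mul_le_mul_of_nonneg_left e3 (by positivity)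
    _ = β * (q : ℝ) ^ (2 * r) := by rw [two_mul, pow_add]; ring

/-- **The probability of no representation by large elements.** -/
theorem lev_prob {Ω : Type*} [MeasurableSpace Ω] {μ : Measure Ω} [IsProbabilityMeasure μ] {A : Ω → Set ℕ}
    (hA : IsModel μ (lprob k Q) A) (hk : 2 ≤ k) (hQ : Levels Q) (hr : k ≤ r) : ∀ᶠ n : ℕ in atTop,
      SumMod k (Q n) (r + 1) n → μ.real {ω | reps (big r n (A ω)) (r + 1) n = 0} ≤
        Real.exp (-((n : ℝ) ^ (1 / (2 * (k : ℝ))))) := by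
  have hk0 : (0 : ℝ) < k := by positivity
  have hk2 : (2 : ℝ) ≤ k := by exact_mod_cast hk
  have hr0 : (0 : ℝ) < r := by exact_mod_cast (by omega : 0 < r)
  obtain ⟨γ, hγ, hexp⟩ := exponent hk (show 1 ≤ r by omega)
  obtain ⟨B, hB⟩ : ∃ B : ℝ, B = (1 / (4 * ((r : ℝ) + 1) ^ 2)) ^ (1 / (k : ℝ) - 1) := ⟨_, rfl⟩
  have hB0 : 0 < B := by rw [hB]; positivity
  have hδ : (0 : ℝ) < 1 / (8 * r * k) := by positivity
  have t1 : Tendsto (fun n : ℕ => γ * (n : ℝ) ^ (1 / (4 * (k : ℝ)))) atTop atTop :=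
    ((tendsto_rpow_atTop (by positivity)).comp tendsto_natCast_atTop_atTop).const_mul_atTop hγ
  have t2 : Tendsto (fun n : ℕ => (1 / (4 * ((r : ℝ) + 1) ^ 2) * (B / k)) * (n : ℝ) ^ (1 / (k : ℝ))) atTop atTop :=
    ((tendsto_rpow_atTop (by positivity)).comp tendsto_natCast_atTop_atTop).const_mul_atTop (by positivity)
  have t3 : Tendsto (fun n : ℕ => (n : ℝ) ^ (1 / 4 : ℝ)) atTop atTop :=
    (tendsto_rpow_atTop (by positivity)).comp tendsto_natCast_atTop_atTop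
  filter_upwards [hQ.slow _ hδ, hQ.slow (1 / 4) (by norm_num), t1.eventually_ge_atTop 1, t2.eventually_ge_atTop 1,
    t3.eventually_ge_atTop (B / k), t3.eventually_ge_atTop (4 * ((r : ℝ) + 1) ^ 2), eventually_ge_atTop 1] with n s1 s2 s3 s4 s5 s6 s7 hs
  have hn0 : (0 : ℝ) < n := by exact_mod_cast s7
  have hn1 : (1 : ℝ) ≤ n := by exact_mod_cast s7
  obtain ⟨q, hq⟩ : ∃ q, q = Q n := ⟨_, rfl⟩
  have hq1 : 1 ≤ q := by rw [hq]; exact hQ.pos n
  have hq0 : (0 : ℝ) < q := by exact_mod_cast hq1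
  rw [← hq] at s1 s2 hs
  have hhalf : (n : ℝ) ^ (1 / 4 : ℝ) * (n : ℝ) ^ (1 / 4 : ℝ) = (n : ℝ) ^ (1 / 2 : ℝ) := by
    rw [← Real.rpow_add hn0]
    norm_num
  have hle1 : (n : ℝ) ^ (1 / 2 : ℝ) ≤ n := by
    calc (n : ℝ) ^ (1 / 2 : ℝ) ≤ (n : ℝ) ^ (1 : ℝ) := Real.rpow_le_rpow_of_exponent_le hn1 (by norm_num)
      _ = n := Real.rpow_one _
  have g1 : 4 * (q * (r + 1) ^ 2) ≤ n := by
    have : (4 * ((q : ℝ) * ((r : ℝ) + 1) ^ 2)) ≤ n := by
      calc (4 * ((q : ℝ) * ((r : ℝ) + 1) ^ 2)) = q * (4 * ((r : ℝ) + 1) ^ 2) := by ring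
        _ ≤ (n : ℝ) ^ (1 / 4 : ℝ) * (n : ℝ) ^ (1 / 4 : ℝ) := mul_le_mul s2 s6 (by positivity) (by positivity)
        _ = (n : ℝ) ^ (1 / 2 : ℝ) := hhalf
        _ ≤ n := hle1
    exact_mod_cast this
  have g2 : c1 k q r * (n : ℝ) ^ (1 / (k : ℝ) - 1) ≤ 1 := by
    have e1 : c1 k q r ≤ (n : ℝ) ^ (1 / 2 : ℝ) := by
      unfold c1
      rw [← hB, show (q : ℝ) / k * B = q * (B / k) by ring, ← hhalf]
      exact mul_le_mul s2 s5 (by positivity) (by positivity)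
    have e2 : (n : ℝ) ^ (1 / (k : ℝ) - 1) ≤ (n : ℝ) ^ (-(1 / 2) : ℝ) := by
      refine Real.rpow_le_rpow_of_exponent_le hn1 ?_
      have : 1 / (k : ℝ) ≤ 1 / 2 := one_div_le_one_div_of_le (by norm_num) hk2
      linarith
    calc c1 k q r * (n : ℝ) ^ (1 / (k : ℝ) - 1) ≤ (n : ℝ) ^ (1 / 2 : ℝ) * (n : ℝ) ^ (-(1 / 2) : ℝ) :=
          mul_le_mul e1 e2 (by positivity) (by positivity)
      _ = 1 := by rw [← Real.rpow_add hn0]; norm_num
  have g3 : 1 ≤ 1 / (4 * ((q : ℝ) * ((r : ℝ) + 1) ^ 2)) * c1 k q r * (n : ℝ) ^ (1 / (k : ℝ)) := by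
    refine s4.trans (le_of_eq ?_)
    unfold c1
    rw [← hB]
    field_simp
  have hb := gen_bound hA hk hq1 hr g1 hs (c1_pos hk hq1)
    (fun a h1 h2 h3 => by
      have := lprob_bounds (r := r) hk hQ s7 h1 h2 (by rw [← hq]; exact h3)
      rw [← hq] at this
      exact this) g2 g3
  refine le_trans (measureReal_mono ?_ (measure_ne_top _ _)) (hb.trans (Real.exp_le_exp.2 (neg_le_neg ?_)))
  · intro ω hω
    simp only [Set.mem_ofPred_eq] at hω ⊢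
    rw [hω]
    have := d2_pos (r := r) hk hq1
    push_cast
    positivity
  · have e1 : (q : ℝ) ^ (2 * r) ≤ (n : ℝ) ^ (1 / (4 * (k : ℝ))) := by
      calc (q : ℝ) ^ (2 * r) ≤ ((n : ℝ) ^ (1 / (8 * (r : ℝ) * k))) ^ (2 * r) := pow_le_pow_left₀ hq0.le s1 _
        _ = _ := by
            rw [← Real.rpow_natCast, ← Real.rpow_mul hn0.le]
            congr 1
            push_cast
            field_simp
            norm_num
    have e2 : γ / (n : ℝ) ^ (1 / (4 * (k : ℝ))) ≤ d2 k q r / (8 * (2 * d3 r (c1 k q r) + 1)) :=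
      (div_le_div_of_nonneg_left hγ.le (by positivity) e1).trans (hexp q hq1)
    refine le_trans ?_ (mul_le_mul_of_nonneg_right e2 (by positivity))
    have e3 : (n : ℝ) ^ (1 / (k : ℝ)) = (n : ℝ) ^ (1 / (2 * (k : ℝ))) * ((n : ℝ) ^ (1 / (4 * (k : ℝ))) * (n : ℝ) ^ (1 / (4 * (k : ℝ)))) := by
      rw [← Real.rpow_add hn0, ← Real.rpow_add hn0]
      congr 1
      field_simp
      norm_num
    rw [e3]
    obtain ⟨u, hu⟩ : ∃ u, u = (n : ℝ) ^ (1 / (4 * (k : ℝ))) := ⟨_, rfl⟩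
    obtain ⟨w, hw⟩ : ∃ w, w = (n : ℝ) ^ (1 / (2 * (k : ℝ))) := ⟨_, rfl⟩
    have hu0 : 0 < u := by rw [hu]; positivity
    have hw0 : 0 < w := by rw [hw]; positivity
    rw [← hu] at s3 ⊢
    rw [← hw]
    calc w = w * 1 := by ring
      _ ≤ w * (γ * u) := mul_le_mul_of_nonneg_left s3 hw0.le
      _ = γ / u * (w * (u * u)) := by field_simp

/-- **Almost surely all large integers without a congruence obstruction are sums of large elements.** -/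
theorem lev_many {Ω : Type*} [MeasurableSpace Ω] {μ : Measure Ω} [IsProbabilityMeasure μ] {A : Ω → Set ℕ}
    (hA : IsModel μ (lprob k Q) A) (hk : 2 ≤ k) (hQ : Levels Q) {s : ℕ} (hs : k + 1 ≤ s) : ∀ᵐ ω ∂μ, ∀ m : ℕ, ∀ᶠ n : ℕ in atTop,
      SumMod k (Q n) s n → SumOf (A ω ∩ Set.Ici m) s n := by
  obtain ⟨r, rfl⟩ : ∃ r, s = r + 1 := ⟨s - 1, by omega⟩
  have hk0 : (0 : ℝ) < k := by positivity
  have hlog : ∀ᶠ n : ℕ in atTop, Real.exp (-((n : ℝ) ^ (1 / (2 * (k : ℝ))))) ≤ ((n : ℝ) ^ 2)⁻¹ := by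
    have h1 := (isLittleO_log_rpow_atTop (r := 1 / (2 * (k : ℝ))) (by positivity)).def (c := 1 / 2) (by positivity)
    have h2 := tendsto_natCast_atTop_atTop (R := ℝ) |>.eventually h1
    filter_upwards [h2, eventually_ge_atTop 1] with n h3 h4
    have hn0 : (0 : ℝ) < n := by exact_mod_cast h4
    have hn1 : (1 : ℝ) ≤ n := by exact_mod_cast h4
    rw [Real.norm_of_nonneg (Real.log_nonneg hn1), Real.norm_of_nonneg (by positivity)] at h3
    rw [← Real.exp_log (show 0 < ((n : ℝ) ^ 2)⁻¹ by positivity), Real.log_inv, Real.log_pow]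
    refine Real.exp_le_exp.2 ?_
    push_cast
    linarith
  have hbc := bc_sq (μ := μ) (E := fun n => {ω | SumMod k (Q n) (r + 1) n ∧ reps (big r n (A ω)) (r + 1) n = 0}) (by
    filter_upwards [hlog, lev_prob hA hk hQ (show k ≤ r by omega)] with n h1 h2
    by_cases h3 : SumMod k (Q n) (r + 1) n
    · refine le_trans (measureReal_mono ?_ (measure_ne_top _ _)) ((h2 h3).trans h1)
      intro ω hω
      exact hω.2
    · have : {ω | SumMod k (Q n) (r + 1) n ∧ reps (big r n (A ω)) (r + 1) n = 0} = (∅ : Set Ω) := by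
        ext ω
        simp only [Set.mem_ofPred_eq, Set.mem_empty_iff_false, iff_false]
        exact fun h => h3 h.1
      rw [this, measureReal_empty]
      positivity)
  filter_upwards [hbc] with ω hω m
  filter_upwards [hω, eventually_ge_atTop (4 * (r + 1) ^ 2 * m)] with n h1 h2 h3
  have h4 : ¬ reps (big r n (A ω)) (r + 1) n = 0 := fun h => h1 ⟨h3, h⟩
  have h5 := sumOf_of_reps (Nat.pos_of_ne_zero h4)
  obtain ⟨a, ha, hsum⟩ := h5
  refine ⟨a, fun i => ?_, hsum⟩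
  rcases ha i with h | h
  · left; exact h
  · right
    refine ⟨h.1, ?_⟩
    rw [Set.mem_Ici]
    have h6 := h2.trans h.2
    exact Nat.le_of_mul_le_mul_left h6 (by positivity)

end Pool.Agent.Q106.WG
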