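import Pool.Agent.Q106.WG.LevLow

/-!
# The number `G` in the sieved models of growing level
-/

set_option autoImplicit false

namespace Pool.Agent.Q106.WG

open Finset MeasureTheory ProbabilityTheory Filter Pool.Agent.Q120.GM
open scoped Topology
open Pool.Agent.Q106.UR (ind nm pT cf oc mem_oc)

variable {k r : ℕ} {Q : ℕ → ℕ}

/-- The number of the elements, for all probabilities with a small sum. -/
theorem few_gen {Ω : Type*} [MeasurableSpace Ω] {μ : Measure Ω} [IsProbabilityMeasure μ] {A : Ω → Set ℕ} {p : ℕ → ℝ}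
    (hA : IsModel μ p A) (hk : 2 ≤ k) (hm : ∀ᶠ N : ℕ in atTop, ∑ n ∈ Icc 1 N, p n ≤ 21 / 20 * (N : ℝ) ^ (1 / (k : ℝ))) :
    ∀ᵐ ω ∂μ, ∀ᶠ N : ℕ in atTop, (cntA (A ω) N : ℝ) ≤ 6 / 5 * (N : ℝ) ^ (1 / (k : ℝ)) := by
  classical
  have hk0 : (0 : ℝ) < k := by positivity
  -- one length
  have h1 : ∀ N : ℕ, ∑ n ∈ Icc 1 N, p n ≤ 21 / 20 * (N : ℝ) ^ (1 / (k : ℝ)) →
      μ.real {ω | 6 / 5 * (N : ℝ) ^ (1 / (k : ℝ)) < (cntA (A ω) N : ℝ)} ≤
      Real.exp (1 / 10 * (21 / 20 * (N : ℝ) ^ (1 / (k : ℝ))) - 1 / 11 * (6 / 5 * (N : ℝ) ^ (1 / (k : ℝ)))) := by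
    intro N hN
    obtain ⟨y, hy⟩ : ∃ y : ℝ, y = 6 / 5 * (N : ℝ) ^ (1 / (k : ℝ)) := ⟨_, rfl⟩
    have hy0 : 0 ≤ y := by rw [hy]; positivity
    obtain ⟨Y, hY⟩ : ∃ Y : ℝ, Y = 21 / 20 * (N : ℝ) ^ (1 / (k : ℝ)) := ⟨_, rfl⟩
    rw [← hY] at hN ⊢
    have h2 := Pool.Agent.Q106.UR.fam hA (Icc 1 N) (fun n => ({n} : Finset ℕ)) (m := Y) (z := 11 / 10)
      (by
        refine le_trans (le_of_eq ?_) hN
        refine sum_congr rfl (fun n _ => ?_)
        unfold pT
        rw [prod_singleton]) (by norm_num) ⌈y⌉₊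
    rw [← hy]
    refine le_trans (measureReal_mono ?_ (measure_ne_top _ _)) (h2.trans ?_)
    · intro ω hω
      refine ⟨oc A (Icc 1 N) (fun n => ({n} : Finset ℕ)) ω, subset_rfl, ?_, ?_⟩
      · have h3 : (oc A (Icc 1 N) (fun n => ({n} : Finset ℕ)) ω).card = cntA (A ω) N := by
          unfold cntA
          congr 1
          ext n
          rw [mem_oc, mem_filter]
          refine and_congr_right (fun _ => ?_)
          exact ⟨fun h => h n (mem_singleton_self n), fun h i hi => by rw [mem_singleton.1 hi]; exact h⟩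
        rw [h3]
        exact Nat.ceil_le.2 (le_of_lt hω)
      · intro i _ j _ hij
        rw [disjoint_singleton]
        exact hij
    · have h3 : Real.exp (1 / 11 * y) ≤ (11 / 10 : ℝ) ^ ⌈y⌉₊ := by
        have h4 : Real.exp (1 / 11) ≤ 11 / 10 := by
          have h5 : (1 : ℝ) - 1 / 11 ≤ Real.exp (-(1 / 11)) := by
            have := Real.add_one_le_exp (-(1 / 11 : ℝ))
            linarith
          rw [Real.exp_neg] at h5
          have h6 : (0 : ℝ) < Real.exp (1 / 11) := Real.exp_pos _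
          rw [le_inv_comm₀ (by norm_num) h6] at h5
          refine h5.trans (by norm_num)
        calc Real.exp (1 / 11 * y) ≤ Real.exp (1 / 11 * (⌈y⌉₊ : ℝ)) :=
              Real.exp_le_exp.2 (mul_le_mul_of_nonneg_left (Nat.le_ceil y) (by norm_num))
          _ = Real.exp (1 / 11) ^ ⌈y⌉₊ := by rw [← Real.exp_nat_mul]; congr 1; ring
          _ ≤ _ := pow_le_pow_left₀ (Real.exp_pos _).le h4 _
      rw [div_le_iff₀ (by positivity), Real.exp_sub]
      have h5 : (0 : ℝ) < Real.exp (1 / 11 * y) := Real.exp_pos _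
      rw [div_mul_eq_mul_div, le_div_iff₀ h5]
      have h6 : ((11 : ℝ) / 10 - 1) = 1 / 10 := by norm_num
      rw [h6]
      exact mul_le_mul_of_nonneg_left h3 (Real.exp_pos _).le
  -- summable
  have hlog : ∀ᶠ n : ℕ in atTop, Real.exp (1 / 10 * (21 / 20 * (n : ℝ) ^ (1 / (k : ℝ))) - 1 / 11 * (6 / 5 * (n : ℝ) ^ (1 / (k : ℝ)))) ≤
      ((n : ℝ) ^ 2)⁻¹ := by
    have g1 := (isLittleO_log_rpow_atTop (r := 1 / (k : ℝ)) (by positivity)).def (c := 1 / 1000) (by norm_num)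
    have g2 := tendsto_natCast_atTop_atTop (R := ℝ) |>.eventually g1
    filter_upwards [g2, eventually_ge_atTop 1] with n h3 h4
    have hn0 : (0 : ℝ) < n := by exact_mod_cast h4
    have hn1 : (1 : ℝ) ≤ n := by exact_mod_cast h4
    rw [Real.norm_of_nonneg (Real.log_nonneg hn1), Real.norm_of_nonneg (by positivity)] at h3
    rw [← Real.exp_log (show 0 < ((n : ℝ) ^ 2)⁻¹ by positivity), Real.log_inv, Real.log_pow]
    refine Real.exp_le_exp.2 ?_
    push_cast
    have : (0 : ℝ) ≤ (n : ℝ) ^ (1 / (k : ℝ)) := by positivity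
    linarith
  have hbc := bc_sq (μ := μ) (E := fun n => {ω | 6 / 5 * (n : ℝ) ^ (1 / (k : ℝ)) < (cntA (A ω) n : ℝ)}) (by
    filter_upwards [hlog, hm] with n h2 h3
    exact (h1 n h3).trans h2)
  filter_upwards [hbc] with ω hω
  filter_upwards [hω] with n g1
  by_contra hcon
  push Not at hcon
  exact g1 hcon

/-- A positive proportion of the integers are not sums of at most `k` elements of a thin set. -/
theorem nonsums_det {S : Set ℕ} (hk : 2 ≤ k) (h : ∀ᶠ N : ℕ in atTop, (cntA S N : ℝ) ≤ 6 / 5 * (N : ℝ) ^ (1 / (k : ℝ))) :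
    ∀ᶠ N : ℕ in atTop, (N : ℝ) / 5 ≤ ({n : ℕ | 1 ≤ n ∧ n ≤ N ∧ ¬ SumOf S k n}.ncard : ℝ) := by
  classical
  have hk0 : (0 : ℝ) < k := by positivity
  have hfac : ∀ j : ℕ, 2 ≤ j → (5 / 4 : ℝ) ^ j / j.factorial ≤ 25 / 32 := by
    intro j hj
    induction j, hj using Nat.le_induction with
    | base => norm_num [Nat.factorial]
    | succ j hj ih =>
      rw [pow_succ, Nat.factorial_succ]
      push_cast
      have h1 : (0 : ℝ) < j.factorial := by exact_mod_cast Nat.factorial_pos j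
      have h2 : (2 : ℝ) ≤ j := by exact_mod_cast hj
      calc (5 / 4 : ℝ) ^ j * (5 / 4) / (((j : ℝ) + 1) * j.factorial) = (5 / 4 : ℝ) ^ j / j.factorial * ((5 / 4) / (j + 1)) := by
            field_simp
        _ ≤ 25 / 32 * 1 := by
            refine mul_le_mul ih ?_ (by positivity) (by norm_num)
            rw [div_le_one (by positivity)]
            linarith
        _ = 25 / 32 := by ring
  have g3 : Tendsto (fun n : ℕ => (n : ℝ) ^ (1 / (k : ℝ))) atTop atTop :=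
    (tendsto_rpow_atTop (by positivity)).comp tendsto_natCast_atTop_atTop
  filter_upwards [h, g3.eventually_ge_atTop (20 * k), eventually_ge_atTop 1] with N h1 h2 h3
  have hN0 : (0 : ℝ) < N := by exact_mod_cast h3
  obtain ⟨y, hy⟩ : ∃ y, y = (N : ℝ) ^ (1 / (k : ℝ)) := ⟨_, rfl⟩
  rw [← hy] at h1 h2
  have hyk : y ^ k = N := by
    rw [hy, ← Real.rpow_natCast, ← Real.rpow_mul hN0.le]
    rw [one_div, inv_mul_cancel₀ hk0.ne', Real.rpow_one]
  have hy0 : 0 < y := by rw [hy]; positivity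
  have h4 : ((((Icc 1 N).filter (fun n => SumOf S k n)).card : ℕ) : ℝ) ≤ 25 / 32 * N := by
    have h5 := sums_le S k N
    have h6 : (((cntA S N + k).choose k : ℕ) : ℝ) ≤ (((cntA S N + k : ℕ) : ℝ)) ^ k / k.factorial :=
      Nat.choose_le_pow_div k _
    calc ((((Icc 1 N).filter (fun n => SumOf S k n)).card : ℕ) : ℝ) ≤ (((cntA S N + k).choose k : ℕ) : ℝ) := by
          exact_mod_cast h5
      _ ≤ _ := h6
      _ ≤ (5 / 4 * y) ^ k / k.factorial := by
          refine div_le_div_of_nonneg_right (pow_le_pow_left₀ (by positivity) ?_ k) (by positivity)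
          push_cast
          linarith
      _ = (5 / 4 : ℝ) ^ k / k.factorial * N := by rw [mul_pow, hyk]; ring
      _ ≤ _ := mul_le_mul_of_nonneg_right (hfac k hk) hN0.le
  have h5 : {n : ℕ | 1 ≤ n ∧ n ≤ N ∧ ¬ SumOf S k n} = (((Icc 1 N).filter (fun n => ¬ SumOf S k n) : Finset ℕ) : Set ℕ) := by
    ext n
    rw [mem_coe, mem_filter, mem_Icc]
    simp only [Set.mem_ofPred_eq]
    tauto
  rw [h5, Set.ncard_coe_finset]
  have h6 := Finset.card_filter_add_card_filter_not (s := Icc 1 N) (fun n => SumOf S k n)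
  rw [Nat.card_Icc, Nat.add_sub_cancel] at h6
  have h7 : ((((Icc 1 N).filter (fun n => SumOf S k n)).card : ℕ) : ℝ) +
      ((((Icc 1 N).filter (fun n => ¬ SumOf S k n)).card : ℕ) : ℝ) = N := by exact_mod_cast h6
  linarith

/-- The least `s` such that for every `m` all large integers are sums of at most `s` elements `≥ m` of `S`. -/
noncomputable def gnumL (S : Set ℕ) : ℕ := sInf {s | ∀ m : ℕ, ∀ᶠ n in atTop, SumOf (S ∩ Set.Ici m) s n}

/-- The least `s` such that every class modulo every level contains a sum of `s` `k`-th powers. -/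
noncomputable def gamL (k : ℕ) (Q : ℕ → ℕ) : ℕ := sInf {s | ∀ N n, SumMod k (Q N) s n}

/-- The least `s` such that every class modulo every integer contains a sum of `s` `k`-th powers. -/
noncomputable def gamAll (k : ℕ) : ℕ := sInf {s | ∀ q, 1 ≤ q → ∀ n, SumMod k q s n}

theorem gamL_spec (hk : 1 ≤ k) (hQ : Levels Q) (N n : ℕ) : SumMod k (Q N) (gamL k Q) n := by
  have : gamL k Q ∈ {s | ∀ N n, SumMod k (Q N) s n} := Nat.sInf_mem ⟨4 * k, fun N n => sumMod_four_mul hk (hQ.pos N) n⟩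
  exact this N n

theorem SumMod.dvd {q q' s n : ℕ} (h : SumMod k q s n) (hd : q' ∣ q) : SumMod k q' s n := by
  obtain ⟨x, hx⟩ := h
  exact ⟨x, hx.of_dvd hd⟩

theorem gamL_eq_gamAll (hQ : Levels Q) (hall : ∀ m, 1 ≤ m → ∃ n, m ∣ Q n) : gamL k Q = gamAll k := by
  unfold gamL gamAll
  congr 1
  ext s
  constructor
  · intro h q hq n
    obtain ⟨N, hN⟩ := hall q hq
    exact (h N n).dvd hN
  · intro h N n
    exact h (Q N) (hQ.pos N) n

theorem gamAll_le_four_mul (hk : 1 ≤ k) : gamAll k ≤ 4 * k := Nat.sInf_le (fun q hq n => sumMod_four_mul hk hq n)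

theorem gamAll_le_two_mul (hk : 2 ≤ k) (hk2 : ∀ m, 2 ≤ m → k ≠ 2 ^ m) : gamAll k ≤ 2 * k :=
  Nat.sInf_le (fun q hq n => sumMod_two_mul hk hk2 hq n)

theorem gamAll_eq {m : ℕ} (hm : 3 ≤ m) : gamAll (2 ^ m) = 4 * 2 ^ m := by
  have h1 : 1 ≤ 2 ^ m := Nat.one_le_pow _ _ (by norm_num)
  refine le_antisymm (gamAll_le_four_mul h1) ?_
  have h2 : gamAll (2 ^ m) ∈ {s | ∀ q, 1 ≤ q → ∀ n, SumMod (2 ^ m) q s n} :=
    Nat.sInf_mem ⟨4 * 2 ^ m, fun q hq n => sumMod_four_mul h1 hq n⟩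
  have h3 : 1 ≤ 8 * 2 ^ m := by omega
  rw [← gam_eq hm h3 (dvd_refl _)]
  exact gam_le (fun n => h2 _ h3 n)

variable {Ω : Type*} [MeasurableSpace Ω] {μ : Measure Ω} [IsProbabilityMeasure μ] {A : Ω → Set ℕ}

/-- Almost surely all elements are `k`-th power residues modulo their levels. -/
theorem lev_residues (hA : IsModel μ (lprob k Q) A) : ∀ᵐ ω ∂μ, ∀ m ∈ A ω, 1 ≤ pw k (Q m) m := by
  rw [ae_all_iff]
  intro m
  by_cases h : 1 ≤ pw k (Q m) m
  · exact Eventually.of_forall (fun _ _ => h)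
  · have h1 : pw k (Q m) m = 0 := by omega
    have h2 : μ.real {ω | m ∈ A ω} = 0 := by
      rw [hA.prob m]
      unfold lprob prob
      rw [h1]
      simp
    have h3 : μ {ω | m ∈ A ω} = 0 := by
      rw [measureReal_def, ENNReal.toReal_eq_zero_iff] at h2
      exact h2.resolve_right (measure_ne_top _ _)
    rw [← compl_mem_ae_iff] at h3
    filter_upwards [h3] with ω hω hm
    exact absurd hm hω

theorem SumOf.subset {S S' : Set ℕ} {s n : ℕ} (h : SumOf S s n) (hS : S ⊆ S') : SumOf S' s n := by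
  obtain ⟨a, ha, hn⟩ := h
  exact ⟨a, fun i => (ha i).imp_right (fun h => hS h), hn⟩

/-- **The number `G` for large summands in the sieved model of growing level.** -/
theorem lev_gnum (hA : IsModel μ (lprob k Q) A) (hk : 2 ≤ k) (hQ : Levels Q) :
    ∀ᵐ ω ∂μ, gnumL (A ω) = max (k + 1) (gamL k Q) := by
  have hk0 : k ≠ 0 := by omega
  filter_upwards [lev_many hA hk hQ (le_max_left (k + 1) (gamL k Q)), few_gen hA hk (lmean hk hQ), lev_residues hA] with ω h1 h2 h3
  have h2' := nonsums_det hk h2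
  have hmem : (max (k + 1) (gamL k Q)) ∈ {s | ∀ m : ℕ, ∀ᶠ n in atTop, SumOf (A ω ∩ Set.Ici m) s n} := by
    intro m
    filter_upwards [h1 m] with n h4
    exact h4 ((gamL_spec (by omega) hQ n n).mono hk0 (le_max_right _ _))
  refine le_antisymm (Nat.sInf_le hmem) ?_
  have hg : ∀ m : ℕ, ∀ᶠ n in atTop, SumOf (A ω ∩ Set.Ici m) (gnumL (A ω)) n := by
    have : gnumL (A ω) ∈ {s | ∀ m : ℕ, ∀ᶠ n in atTop, SumOf (A ω ∩ Set.Ici m) s n} := Nat.sInf_mem ⟨_, hmem⟩
    exact this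
  refine max_le ?_ ?_
  · by_contra hcon
    have hle : gnumL (A ω) ≤ k := by omega
    obtain ⟨N₀, hN₀⟩ := eventually_atTop.1 (hg 0)
    obtain ⟨N, hN1, hN2⟩ := (h2'.and (eventually_ge_atTop (5 * N₀ + 5))).exists
    have h4 : {n : ℕ | 1 ≤ n ∧ n ≤ N ∧ ¬ SumOf (A ω) k n} ⊆ ((Finset.range N₀ : Finset ℕ) : Set ℕ) := by
      rintro n ⟨_, _, h5⟩
      rw [mem_coe, mem_range]
      by_contra h6
      push Not at h6
      exact h5 (((hN₀ n h6).mono hle).subset Set.inter_subset_left)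
    have h5 := Set.ncard_le_ncard h4 (Finset.finite_toSet _)
    rw [Set.ncard_coe_finset, card_range] at h5
    have h6 : ({n : ℕ | 1 ≤ n ∧ n ≤ N ∧ ¬ SumOf (A ω) k n}.ncard : ℝ) ≤ N₀ := by exact_mod_cast h5
    have h7 : (5 * (N₀ : ℝ) + 5) ≤ N := by exact_mod_cast hN2
    linarith
  · refine Nat.sInf_le (fun N n => ?_)
    obtain ⟨N₀, hN₀⟩ := eventually_atTop.1 (hg N)
    have h4 := hN₀ (n + Q N * N₀) (by
      have : N₀ ≤ Q N * N₀ := Nat.le_mul_of_pos_left _ (hQ.pos N)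
      omega)
    obtain ⟨x, hx⟩ := sumMod_of_sumOf (q := Q N) hk0
      (fun m hm => pw_dvd (hQ.pos N) (hQ.dvd N m hm.2) (h3 m hm.1)) h4
    refine ⟨x, hx.trans ?_⟩
    unfold Nat.ModEq
    rw [Nat.add_mul_mod_self_left]

/-- A sequence of levels which is divisible by every integer from some point on. -/
theorem exists_levels : Levels (fun n => (Nat.log 2 (Nat.log 2 n)).factorial) ∧
    ∀ m : ℕ, 1 ≤ m → ∃ n : ℕ, m ∣ (Nat.log 2 (Nat.log 2 n)).factorial := by
  have hmono : ∀ m n : ℕ, m ≤ n → Nat.log 2 (Nat.log 2 m) ≤ Nat.log 2 (Nat.log 2 n) := fun m n h =>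
    Nat.log_mono_right (Nat.log_mono_right h)
  have hval : ∀ i : ℕ, Nat.log 2 (Nat.log 2 (2 ^ (2 ^ i))) = i := by
    intro i
    rw [Nat.log_pow (by norm_num), Nat.log_pow (by norm_num)]
  refine ⟨⟨fun n => Nat.factorial_pos _, fun m n h => Nat.factorial_dvd_factorial (hmono m n h), ?_⟩, ?_⟩
  · intro ε hε
    have hM : Tendsto (fun n : ℕ => Nat.log 2 (Nat.log 2 n)) atTop atTop := by
      refine tendsto_atTop.2 (fun b => (eventually_ge_atTop (2 ^ (2 ^ b))).mono (fun n hn => ?_))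
      calc b = Nat.log 2 (Nat.log 2 (2 ^ (2 ^ b))) := (hval b).symm
        _ ≤ Nat.log 2 (Nat.log 2 n) := hmono _ _ hn
    have hev : ∀ᶠ i : ℕ in atTop, ((i : ℝ)) ^ 2 ≤ ε * 2 ^ i := by
      have h1 := isLittleO_pow_const_const_pow_of_one_lt (R := ℝ) 2 (r := 2) (by norm_num)
      have h2 := h1.def hε
      filter_upwards [h2] with i hi
      rw [Real.norm_of_nonneg (by positivity), Real.norm_of_nonneg (by positivity)] at hi
      exact hi
    filter_upwards [hM.eventually hev, eventually_ge_atTop 4] with n h1 h4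
    obtain ⟨i, hi⟩ : ∃ i, i = Nat.log 2 (Nat.log 2 n) := ⟨_, rfl⟩
    rw [← hi] at h1 ⊢
    have hn0 : (0 : ℝ) < n := by exact_mod_cast (by omega : 0 < n)
    have h5 : 2 ^ i ≤ Nat.log 2 n := by
      rw [hi]
      exact Nat.pow_log_le_self 2 (Nat.log_pos (by norm_num) (by omega)).ne'
    have h6 : 2 ^ (2 ^ i) ≤ n := (Nat.pow_le_pow_right (by norm_num) h5).trans (Nat.pow_log_le_self 2 (by omega))
    have h7 : i.factorial ≤ 2 ^ (i ^ 2) := by
      calc i.factorial ≤ i ^ i := Nat.factorial_le_pow i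
        _ ≤ (2 ^ i) ^ i := Nat.pow_le_pow_left Nat.lt_two_pow_self.le _
        _ = 2 ^ (i ^ 2) := by rw [← pow_mul, sq]
    calc ((i.factorial : ℕ) : ℝ) ≤ ((2 ^ (i ^ 2) : ℕ) : ℝ) := by exact_mod_cast h7
      _ = (2 : ℝ) ^ ((i : ℝ) ^ 2) := by
          push_cast
          rw [← Real.rpow_natCast]
          push_cast
          rfl
      _ ≤ (2 : ℝ) ^ (ε * 2 ^ i) := Real.rpow_le_rpow_of_exponent_le (by norm_num) h1
      _ = ((2 : ℝ) ^ ((2 : ℝ) ^ i)) ^ ε := by rw [← Real.rpow_mul (by norm_num), mul_comm]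
      _ ≤ (n : ℝ) ^ ε := by
          refine Real.rpow_le_rpow (by positivity) ?_ hε.le
          calc (2 : ℝ) ^ ((2 : ℝ) ^ i) = ((2 ^ (2 ^ i) : ℕ) : ℝ) := by
                rw [show ((2 : ℝ) ^ i) = ((2 ^ i : ℕ) : ℝ) by push_cast; rfl, Real.rpow_natCast]
                push_cast
                rfl
            _ ≤ n := by exact_mod_cast h6
  · intro m hm
    exact ⟨2 ^ (2 ^ m), by rw [hval]; exact Nat.dvd_factorial hm le_rfl⟩

end Pool.Agent.Q106.WG
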