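import Pool.Agent.Q106.WG.Lev

/-!
# The sieved models of growing level: the number `G`
-/

set_option autoImplicit false

namespace Pool.Agent.Q106.WG

open Finset MeasureTheory ProbabilityTheory Filter Pool.Agent.Q120.GM
open scoped Topology
open Pool.Agent.Q106.UR (ind nm pT cf oc mem_oc)

/-- The sum over a block, for a divisor of its length. -/
theorem block_dvd {k q' q : ℕ} (h : q' ∣ q) (J : ℕ) : ∑ n ∈ Ioc (J * q) ((J + 1) * q), pw k q' n ≤ q := by
  obtain ⟨m, rfl⟩ := h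
  have h1 : ∀ a i : ℕ, ∑ n ∈ Ioc (a * q') ((a + i) * q'), pw k q' n ≤ i * q' := by
    intro a i
    induction i with
    | zero => simp
    | succ i ih =>
      have e1 : a * q' ≤ (a + i) * q' := Nat.mul_le_mul_right _ (by omega)
      have e2 : (a + i) * q' ≤ (a + (i + 1)) * q' := Nat.mul_le_mul_right _ (by omega)
      rw [← sum_Ioc_consecutive _ e1 e2]
      have e3 := block k q' (a + i)
      rw [show a + i + 1 = a + (i + 1) by ring] at e3
      have e4 : (i + 1) * q' = i * q' + q' := by ring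
      omega
  have h2 := h1 (J * m) m
  rw [show J * (q' * m) = J * m * q' by ring, show (J + 1) * (q' * m) = (J * m + m) * q' by ring, mul_comm q' m]
  exact h2

variable {k r : ℕ} {Q : ℕ → ℕ}

theorem lprob_nonneg (k : ℕ) (Q : ℕ → ℕ) (n : ℕ) : 0 ≤ lprob k Q n := prob_nonneg _ _ _

theorem lprob_le_one (k : ℕ) (Q : ℕ → ℕ) (n : ℕ) : lprob k Q n ≤ 1 := prob_le_one _ _ _

theorem lblocks (hk : 2 ≤ k) (hQ : Levels Q) {q : ℕ} (hq : 1 ≤ q) (J : ℕ) (hall : ∀ n ≤ (J + 1) * q, Q n ∣ q) :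
    ∑ n ∈ Ioc 0 ((J + 1) * q), lprob k Q n ≤
      q * (1 + (Nat.log 2 (Q ((J + 1) * q)) : ℝ)) + ((J * q : ℕ) : ℝ) ^ (1 / (k : ℝ)) := by
  have hk0 : (0 : ℝ) < k := by positivity
  have hk1 : (1 : ℝ) ≤ k := by exact_mod_cast (by omega : 1 ≤ k)
  have hq0 : (0 : ℝ) < q := by positivity
  have hex : 1 / (k : ℝ) - 1 ≤ 0 := by
    rw [sub_nonpos, div_le_one hk0]
    exact hk1
  have h1k : 1 / (k : ℝ) ≤ 1 := by rw [div_le_one hk0]; exact hk1
  induction J with
  | zero =>
    have h1 : ∑ n ∈ Ioc 0 ((0 + 1) * q), lprob k Q n ≤ q := by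
      refine (sum_le_sum (g := fun _ => (1 : ℝ)) (fun n _ => lprob_le_one k Q n)).trans ?_
      rw [sum_const, Nat.card_Ioc, nsmul_eq_mul]
      simp
    have h2 : (0 : ℝ) ≤ ((0 * q : ℕ) : ℝ) ^ (1 / (k : ℝ)) := by positivity
    have h3 : (q : ℝ) * 1 ≤ q * (1 + (Nat.log 2 (Q ((0 + 1) * q)) : ℝ)) :=
      mul_le_mul_of_nonneg_left (by linarith [Nat.cast_nonneg (α := ℝ) (Nat.log 2 (Q ((0 + 1) * q)))]) hq0.le
    linarith
  | succ J ih =>
    have ih' := ih (fun n hn => hall n (hn.trans (Nat.mul_le_mul_right _ (by omega))))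
    rw [← sum_Ioc_consecutive (m := 0) (n := (J + 1) * q) (k := (J + 1 + 1) * q) _ (Nat.zero_le _)
      (Nat.mul_le_mul_right _ (by omega))]
    have hle : (J + 1) * q ≤ (J + 1 + 1) * q := Nat.mul_le_mul_right _ (by omega)
    obtain ⟨m, hm⟩ : ∃ m : ℕ, m = (J + 1) * q := ⟨_, rfl⟩
    obtain ⟨m', hm'⟩ : ∃ m' : ℕ, m' = (J + 1 + 1) * q := ⟨_, rfl⟩
    have hm1 : 1 ≤ m := by rw [hm]; exact Nat.mul_pos (by omega) hq
    have hm0 : (0 : ℝ) < m := by exact_mod_cast hm1
    have hsz : (m' : ℝ) = m + q := by rw [hm, hm']; push_cast; ring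
    by_cases hc : Q m = Q m'
    · have h3 : ∑ n ∈ Ioc ((J + 1) * q) ((J + 1 + 1) * q), lprob k Q n ≤ q * (1 / k * (m : ℝ) ^ (1 / (k : ℝ) - 1)) := by
        calc ∑ n ∈ Ioc ((J + 1) * q) ((J + 1 + 1) * q), lprob k Q n ≤
            ∑ n ∈ Ioc ((J + 1) * q) ((J + 1 + 1) * q), (pw k (Q m) n : ℝ) * (1 / k * (m : ℝ) ^ (1 / (k : ℝ) - 1)) := by
              refine sum_le_sum (fun n hn => ?_)
              rw [mem_Ioc, ← hm, ← hm'] at hn
              have hQn : Q n = Q m := by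
                refine Nat.dvd_antisymm ?_ (hQ.dvd m n hn.1.le)
                rw [hc]
                exact hQ.dvd n m' hn.2
              unfold lprob prob
              rw [hQn]
              refine (min_le_right _ _).trans (mul_le_mul_of_nonneg_left (mul_le_mul_of_nonneg_left ?_ (by positivity)) (by positivity))
              exact Real.rpow_le_rpow_of_nonpos hm0 (by exact_mod_cast hn.1.le) hex
          _ = ((∑ n ∈ Ioc ((J + 1) * q) ((J + 1 + 1) * q), pw k (Q m) n : ℕ) : ℝ) * (1 / k * (m : ℝ) ^ (1 / (k : ℝ) - 1)) := by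
              rw [← sum_mul]
              push_cast
              rfl
          _ ≤ _ := by
              refine mul_le_mul_of_nonneg_right ?_ (by positivity)
              exact_mod_cast block_dvd (hall m (by rw [hm]; exact hle)) (J + 1)
      -- Bernoulli
      have h4 : ((J * q : ℕ) : ℝ) ^ (1 / (k : ℝ)) ≤ (m : ℝ) ^ (1 / (k : ℝ)) - q * (1 / k * (m : ℝ) ^ (1 / (k : ℝ) - 1)) := by
        have h5 : ((J * q : ℕ) : ℝ) = m * (1 + (-(q : ℝ) / m)) := by
          have : (m : ℝ) = ((J * q : ℕ) : ℝ) + q := by rw [hm]; push_cast; ring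
          field_simp
          linarith
        have h6 : (-1 : ℝ) ≤ -(q : ℝ) / m := by
          rw [neg_div, neg_le_neg_iff, div_le_one hm0]
          have : q ≤ m := by rw [hm]; exact Nat.le_mul_of_pos_left _ (by omega)
          exact_mod_cast this
        have h7 := rpow_one_add_le_one_add_mul_self h6 (p := 1 / (k : ℝ)) (by positivity) h1k
        rw [h5, Real.mul_rpow hm0.le (by linarith)]
        have h8 : (m : ℝ) ^ (1 / (k : ℝ) - 1) = (m : ℝ) ^ (1 / (k : ℝ)) / m := by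
          rw [Real.rpow_sub_one hm0.ne']
        rw [h8]
        calc (m : ℝ) ^ (1 / (k : ℝ)) * (1 + -(q : ℝ) / m) ^ (1 / (k : ℝ)) ≤
            (m : ℝ) ^ (1 / (k : ℝ)) * (1 + 1 / (k : ℝ) * (-(q : ℝ) / m)) := mul_le_mul_of_nonneg_left h7 (by positivity)
          _ = _ := by ring
      rw [← hm, ← hm']
      rw [← hm, ← hm'] at h3
      rw [← hm, hc] at ih'
      linarith
    · have h3 : ∑ n ∈ Ioc ((J + 1) * q) ((J + 1 + 1) * q), lprob k Q n ≤ q := by
        refine (sum_le_sum (g := fun _ => (1 : ℝ)) (fun n _ => lprob_le_one k Q n)).trans ?_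
        rw [sum_const, Nat.card_Ioc, nsmul_eq_mul, mul_one, show (J + 1 + 1) * q - (J + 1) * q = q by
          rw [show (J + 1 + 1) * q = (J + 1) * q + q by ring]; omega]
      have h4 : (Nat.log 2 (Q m) : ℝ) + 1 ≤ Nat.log 2 (Q m') := by
        have h5 : 2 * Q m ≤ Q m' := by
          obtain ⟨t, ht⟩ := hQ.dvd m m' (by rw [hm, hm']; exact hle)
          have h6 : t ≠ 0 := by
            rintro rfl
            have := hQ.pos m'
            omega
          have h7 : t ≠ 1 := by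
            rintro rfl
            rw [mul_one] at ht
            exact hc ht.symm
          rw [ht, mul_comm 2]
          exact Nat.mul_le_mul_left _ (by omega)
        have h6 : Nat.log 2 (Q m) + 1 ≤ Nat.log 2 (Q m') := by
          have h7 : Nat.log 2 (Q m * 2) = Nat.log 2 (Q m) + 1 := Nat.log_mul_base (by norm_num) (by have := hQ.pos m; omega)
          rw [← h7]
          exact Nat.log_mono_right (by omega)
        exact_mod_cast h6
      have h5 : ((J * q : ℕ) : ℝ) ^ (1 / (k : ℝ)) ≤ (m : ℝ) ^ (1 / (k : ℝ)) := by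
        refine Real.rpow_le_rpow (by positivity) ?_ (by positivity)
        have : J * q ≤ m := by rw [hm]; exact Nat.mul_le_mul_right _ (by omega)
        exact_mod_cast this
      rw [← hm, ← hm']
      rw [← hm, ← hm'] at h3
      rw [← hm] at ih'
      have h6 : (q : ℝ) * (Nat.log 2 (Q m) + 1) ≤ q * Nat.log 2 (Q m') := mul_le_mul_of_nonneg_left h4 hq0.le
      linarith

/-- The expected number of elements. -/
theorem lmean (hk : 2 ≤ k) (hQ : Levels Q) : ∀ᶠ N : ℕ in atTop,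
    ∑ n ∈ Icc 1 N, lprob k Q n ≤ 21 / 20 * (N : ℝ) ^ (1 / (k : ℝ)) := by
  have hk0 : (0 : ℝ) < k := by positivity
  have hk2 : (2 : ℝ) ≤ k := by exact_mod_cast hk
  have t2 : Tendsto (fun N : ℕ => 2 * N) atTop atTop := tendsto_id.const_mul_atTop' (by norm_num)
  have t3 : Tendsto (fun n : ℕ => (n : ℝ) ^ (1 / (2 * (k : ℝ)))) atTop atTop :=
    (tendsto_rpow_atTop (by positivity)).comp tendsto_natCast_atTop_atTop
  filter_upwards [t2.eventually (hQ.slow (1 / (4 * (k : ℝ))) (by positivity)), t3.eventually_ge_atTop 80,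
    eventually_ge_atTop 1] with N h1 h2 h3
  have hN0 : (0 : ℝ) < N := by exact_mod_cast h3
  have hN1 : (1 : ℝ) ≤ N := by exact_mod_cast h3
  obtain ⟨q, hq⟩ : ∃ q, q = Q (2 * N) := ⟨_, rfl⟩
  have hq1 : 1 ≤ q := by rw [hq]; exact hQ.pos _
  have hq0 : (0 : ℝ) < q := by exact_mod_cast hq1
  rw [← hq] at h1
  -- q ^ 2 ≤ 2 N ^ (1 / (2 k))
  have h4 : (q : ℝ) ^ 2 ≤ 2 * (N : ℝ) ^ (1 / (2 * (k : ℝ))) := by
    calc (q : ℝ) ^ 2 ≤ (((2 * N : ℕ) : ℝ) ^ (1 / (4 * (k : ℝ)))) ^ 2 := pow_le_pow_left₀ hq0.le h1 _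
      _ = ((2 * N : ℕ) : ℝ) ^ (1 / (2 * (k : ℝ))) := by
          rw [← Real.rpow_natCast, ← Real.rpow_mul (by positivity)]
          congr 1
          push_cast
          field_simp
          norm_num
      _ = (2 : ℝ) ^ (1 / (2 * (k : ℝ))) * (N : ℝ) ^ (1 / (2 * (k : ℝ))) := by
          push_cast
          rw [Real.mul_rpow (by norm_num) hN0.le]
      _ ≤ 2 * (N : ℝ) ^ (1 / (2 * (k : ℝ))) := by
          refine mul_le_mul_of_nonneg_right ?_ (by positivity)
          calc (2 : ℝ) ^ (1 / (2 * (k : ℝ))) ≤ (2 : ℝ) ^ (1 : ℝ) := by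
                refine Real.rpow_le_rpow_of_exponent_le (by norm_num) ?_
                rw [div_le_one (by positivity)]
                linarith
            _ = 2 := Real.rpow_one _
  have h5 : (N : ℝ) ^ (1 / (k : ℝ)) = (N : ℝ) ^ (1 / (2 * (k : ℝ))) * (N : ℝ) ^ (1 / (2 * (k : ℝ))) := by
    rw [← Real.rpow_add hN0]
    congr 1
    field_simp
    norm_num
  have h6 : 2 * (q : ℝ) ^ 2 ≤ 1 / 20 * (N : ℝ) ^ (1 / (k : ℝ)) := by
    rw [h5]
    obtain ⟨u, hu⟩ : ∃ u, u = (N : ℝ) ^ (1 / (2 * (k : ℝ))) := ⟨_, rfl⟩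
    rw [← hu] at h2 h4 ⊢
    nlinarith
  -- q ≤ N
  have h7 : q ≤ N := by
    have e1 : (q : ℝ) ≤ (q : ℝ) ^ 2 := by
      have : (1 : ℝ) ≤ q := by exact_mod_cast hq1
      nlinarith
    have e2 : (N : ℝ) ^ (1 / (k : ℝ)) ≤ N := by
      calc (N : ℝ) ^ (1 / (k : ℝ)) ≤ (N : ℝ) ^ (1 : ℝ) := by
            refine Real.rpow_le_rpow_of_exponent_le hN1 ?_
            rw [div_le_one hk0]
            linarith
        _ = N := Real.rpow_one _
    have e3 : (q : ℝ) ≤ N := by nlinarith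
    exact_mod_cast e3
  obtain ⟨J, hJ⟩ : ∃ J, J = N / q := ⟨_, rfl⟩
  have g1 : J * q ≤ N := by rw [hJ]; exact Nat.div_mul_le_self _ _
  have g2 : N < (J + 1) * q := by
    rw [hJ]
    have := Nat.lt_div_mul_add (a := N) (b := q) hq1
    linarith [this, show (N / q + 1) * q = N / q * q + q by ring]
  have g3 : (J + 1) * q ≤ 2 * N := by
    have : (J + 1) * q = J * q + q := by ring
    omega
  have g4 := lblocks hk hQ hq1 J (fun n hn => by rw [hq]; exact hQ.dvd n _ (hn.trans g3))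
  refine le_trans (sum_le_sum_of_subset_of_nonneg (t := Ioc 0 ((J + 1) * q)) ?_ (fun n _ _ => lprob_nonneg k Q n)) (g4.trans ?_)
  · intro n hn
    rw [mem_Icc] at hn
    rw [mem_Ioc]
    omega
  · have e1 : ((J * q : ℕ) : ℝ) ^ (1 / (k : ℝ)) ≤ (N : ℝ) ^ (1 / (k : ℝ)) :=
      Real.rpow_le_rpow (by positivity) (by exact_mod_cast g1) (by positivity)
    have e2 : (Nat.log 2 (Q ((J + 1) * q)) : ℝ) + 1 ≤ q := by
      have e3 : Q ((J + 1) * q) ≤ q := (hQ.mono g3).trans hq.ge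
      have e4 : Nat.log 2 (Q ((J + 1) * q)) < Q ((J + 1) * q) := Nat.log_lt_self 2 (by have := hQ.pos ((J + 1) * q); omega)
      exact_mod_cast (show Nat.log 2 (Q ((J + 1) * q)) + 1 ≤ q by omega)
    have e3 : (q : ℝ) * (1 + (Nat.log 2 (Q ((J + 1) * q)) : ℝ)) ≤ q * q := mul_le_mul_of_nonneg_left (by linarith) hq0.le
    nlinarith

end Pool.Agent.Q106.WG
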