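import Pool.Agent.Q106.WG.Ch

/-!
# Every class is a sum of few `k`-th powers
-/

set_option autoImplicit false

namespace Pool.Agent.Q106.WG

open Finset

theorem sumMod_one (k s n : ℕ) : SumMod k 1 s n := ⟨fun _ => 0, Nat.modEq_one⟩

theorem SumMod.mono {k q s t n : ℕ} (hk : k ≠ 0) (h : SumMod k q s n) (hst : s ≤ t) : SumMod k q t n := by
  obtain ⟨x, hx⟩ := h
  obtain ⟨d, rfl⟩ := Nat.exists_eq_add_of_le hst
  refine ⟨Fin.append x (fun _ => 0), ?_⟩
  rw [Fin.sum_univ_add]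
  simp only [Fin.append_left, Fin.append_right]
  rw [zero_pow hk]
  simpa using hx

theorem sumMod_of_card {k q : ℕ} (hk : k ≠ 0) (hq : 1 ≤ q) {H : Finset (ZMod q)} (hu : ∀ x ∈ H, IsUnit x)
    (hH : ∀ b ∈ H, ∃ x : ℕ, b = (x : ZMod q) ^ k) {s : ℕ} (hs : q ≤ s * H.card + 1) (n : ℕ) : SumMod k q s n := by
  haveI : NeZero q := ⟨by omega⟩
  rcases Nat.lt_or_ge 1 q with h1 | h1
  · haveI : Fact (1 < q) := ⟨h1⟩
    have h0 : (0 : ZMod q) ∉ H := fun h => not_isUnit_zero (hu 0 h)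
    have e1 : (insert 0 H).card - 1 = H.card := by
      rw [card_insert_of_notMem h0, Nat.add_sub_cancel]
    have e2 := ms_univ (B := insert 0 H) (mem_insert_self 0 H) (fun x hx hx0 => by
      rw [mem_insert] at hx
      rcases hx with hx | hx
      · exact absurd hx hx0
      · exact hu x hx) (s := s) (by rw [e1]; exact hs)
    rw [sumMod_iff]
    refine mem_ms (B := insert 0 H) ?_ s _ (by rw [e2]; exact mem_univ _)
    intro b hb
    rw [mem_insert] at hb
    rcases hb with hb | hb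
    · exact ⟨0, by rw [hb, Nat.cast_zero, zero_pow hk]⟩
    · exact hH b hb
  · obtain rfl : q = 1 := by omega
    exact sumMod_one k s n

/-- Odd prime powers. -/
theorem sumMod_odd {k p e : ℕ} (hk : k ≠ 0) (hp : p.Prime) (hp2 : p ≠ 2) (n : ℕ) : SumMod k (p ^ e) (2 * k) n := by
  rcases Nat.eq_zero_or_pos e with rfl | he
  · rw [pow_zero]
    exact sumMod_one _ _ _
  have hq : 1 ≤ p ^ e := Nat.one_le_pow _ _ hp.pos
  haveI : NeZero (p ^ e) := ⟨by omega⟩
  haveI : IsCyclic (ZMod (p ^ e))ˣ := ZMod.isCyclic_units_of_prime_pow p hp hp2 e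
  classical
  obtain ⟨H, hH⟩ : ∃ H : Finset (ZMod (p ^ e)), H = (univ : Finset ((ZMod (p ^ e))ˣ)).image (fun x : (ZMod (p ^ e))ˣ => ((x : ZMod (p ^ e))) ^ k) :=
    ⟨_, rfl⟩
  have h1 : (univ : Finset ((ZMod (p ^ e))ˣ)).card ≤ k * H.card := by
    rw [hH]
    refine card_le_mul_card_image _ _ (fun b hb => ?_)
    rw [mem_image] at hb
    obtain ⟨x, _, rfl⟩ := hb
    refine le_trans (card_le_card_of_injOn (t := univ.filter (fun a : (ZMod (p ^ e))ˣ => a ^ k = 1)) (fun y => y * x⁻¹) ?_ ?_)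
      (IsCyclic.card_pow_eq_one_le (α := (ZMod (p ^ e))ˣ) (Nat.pos_of_ne_zero hk))
    · intro y hy
      rw [mem_coe, mem_filter] at hy ⊢
      refine ⟨mem_univ _, ?_⟩
      have h2 : y ^ k = x ^ k := Units.ext (by push_cast; exact hy.2)
      rw [mul_pow, h2, ← mul_pow, mul_inv_cancel, one_pow]
    · intro y _ z _ h
      exact mul_right_cancel h
  rw [card_univ, ZMod.card_units_eq_totient, Nat.totient_prime_pow hp he] at h1
  refine sumMod_of_card hk hq (H := H) ?_ ?_ ?_ n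
  · intro x hx
    rw [hH, mem_image] at hx
    obtain ⟨y, _, hy⟩ := hx
    rw [← hy]
    exact (Units.isUnit y).pow k
  · intro b hb
    rw [hH, mem_image] at hb
    obtain ⟨y, _, rfl⟩ := hb
    exact ⟨(y : ZMod (p ^ e)).val, by rw [ZMod.natCast_zmod_val]⟩
  · have h3 : p ≤ 2 * (p - 1) := by have := hp.two_le; omega
    have h4 : p ^ e = p ^ (e - 1) * p := by
      rw [← pow_succ, Nat.sub_add_cancel he]
    have h5 : p ^ (e - 1) * p ≤ p ^ (e - 1) * (2 * (p - 1)) := Nat.mul_le_mul_left _ h3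
    nlinarith [h1, h4, h5]

/-- Powers of two. -/
theorem sumMod_two_pow {k e : ℕ} (hk : k ≠ 0) (n : ℕ) : SumMod k (2 ^ (e + 2)) (4 * Nat.gcd (2 ^ e) k) n := by
  have hq : 1 ≤ 2 ^ (e + 2) := Nat.one_le_pow _ _ (by norm_num)
  haveI : NeZero (2 ^ (e + 2)) := ⟨by omega⟩
  classical
  have h5 := ZMod.orderOf_five e
  have hcop : Nat.Coprime 5 (2 ^ (e + 2)) := Nat.Coprime.pow_right _ (by norm_num)
  obtain ⟨u, hu⟩ : IsUnit ((5 : ℕ) : ZMod (2 ^ (e + 2))) := (ZMod.unitOfCoprime 5 hcop).isUnit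
  have hu5 : orderOf u = 2 ^ e := by
    rw [← orderOf_units, hu]
    exact_mod_cast h5
  have ho : orderOf (u ^ k) = 2 ^ e / Nat.gcd (2 ^ e) k := by rw [orderOf_pow, hu5]
  obtain ⟨H, hH⟩ : ∃ H : Finset (ZMod (2 ^ (e + 2))),
      H = (range (orderOf (u ^ k))).image (fun j => (((u ^ k) ^ j : (ZMod (2 ^ (e + 2)))ˣ) : ZMod (2 ^ (e + 2)))) := ⟨_, rfl⟩
  have hc : H.card = 2 ^ e / Nat.gcd (2 ^ e) k := by
    rw [hH, card_image_of_injOn, card_range, ho]
    intro i hi j hj h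
    rw [mem_coe, mem_range] at hi hj
    exact pow_injOn_Iio_orderOf (x := u ^ k) hi hj (Units.ext h)
  refine sumMod_of_card hk hq (H := H) ?_ ?_ ?_ n
  · intro x hx
    rw [hH, mem_image] at hx
    obtain ⟨j, _, hj⟩ := hx
    rw [← hj]
    exact Units.isUnit _
  · intro b hb
    rw [hH, mem_image] at hb
    obtain ⟨j, _, hj⟩ := hb
    refine ⟨((u ^ j : (ZMod (2 ^ (e + 2)))ˣ) : ZMod (2 ^ (e + 2))).val, ?_⟩
    rw [ZMod.natCast_zmod_val, ← hj]
    push_cast
    rw [← pow_mul, ← pow_mul, mul_comm]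
  · rw [hc]
    have h1 : Nat.gcd (2 ^ e) k * (2 ^ e / Nat.gcd (2 ^ e) k) = 2 ^ e := Nat.mul_div_cancel' (Nat.gcd_dvd_left _ _)
    have h2 : 4 * Nat.gcd (2 ^ e) k * (2 ^ e / Nat.gcd (2 ^ e) k) = 4 * 2 ^ e := by rw [mul_assoc, h1]
    rw [h2, pow_add]
    omega

/-- All prime powers, all exponents. -/
theorem sumMod_prime_pow {k p e : ℕ} (hk : 1 ≤ k) (hp : p.Prime) (n : ℕ) : SumMod k (p ^ e) (4 * k) n := by
  have hk0 : k ≠ 0 := by omega
  rcases eq_or_ne p 2 with rfl | hp2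
  · rcases Nat.lt_or_ge e 2 with h | h
    · have h1 : (2 : ℕ) ^ e ≤ 2 := by
        calc (2 : ℕ) ^ e ≤ 2 ^ 1 := Nat.pow_le_pow_right (by norm_num) (by omega)
          _ = 2 := by norm_num
      refine sumMod_of_card hk0 (Nat.one_le_pow _ _ (by norm_num)) (H := {1}) ?_ ?_ ?_ n
      · intro x hx
        rw [mem_singleton] at hx
        rw [hx]
        exact isUnit_one
      · intro b hb
        rw [mem_singleton] at hb
        exact ⟨1, by rw [hb, Nat.cast_one, one_pow]⟩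
      · rw [card_singleton]
        omega
    · obtain ⟨d, rfl⟩ := Nat.exists_eq_add_of_le' h
      exact (sumMod_two_pow hk0 n).mono hk0 (Nat.mul_le_mul_left _ (Nat.gcd_le_right _ (by omega)))
  · exact (sumMod_odd hk0 hp hp2 n).mono hk0 (by omega)

/-- Exponents which are not powers of two. -/
theorem sumMod_prime_pow' {k p e : ℕ} (hk : 1 ≤ k) (hk2 : ∀ m, k ≠ 2 ^ m) (hp : p.Prime) (n : ℕ) :
    SumMod k (p ^ e) (2 * k) n := by
  have hk0 : k ≠ 0 := by omega
  have h1 : k ≠ 1 := by simpa using hk2 0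
  have h2 : k ≠ 2 := by simpa using hk2 1
  rcases eq_or_ne p 2 with rfl | hp2
  · rcases Nat.lt_or_ge e 2 with h | h
    · have h3 : (2 : ℕ) ^ e ≤ 2 := by
        calc (2 : ℕ) ^ e ≤ 2 ^ 1 := Nat.pow_le_pow_right (by norm_num) (by omega)
          _ = 2 := by norm_num
      refine sumMod_of_card hk0 (Nat.one_le_pow _ _ (by norm_num)) (H := {1}) ?_ ?_ ?_ n
      · intro x hx
        rw [mem_singleton] at hx
        rw [hx]
        exact isUnit_one
      · intro b hb
        rw [mem_singleton] at hb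
        exact ⟨1, by rw [hb, Nat.cast_one, one_pow]⟩
      · rw [card_singleton]
        omega
    · obtain ⟨d, rfl⟩ := Nat.exists_eq_add_of_le' h
      refine (sumMod_two_pow hk0 n).mono hk0 ?_
      obtain ⟨g, hg⟩ : ∃ g, g = Nat.gcd (2 ^ d) k := ⟨_, rfl⟩
      obtain ⟨c, hc⟩ : g ∣ k := by rw [hg]; exact Nat.gcd_dvd_right _ _
      obtain ⟨j, _, hj⟩ := (Nat.dvd_prime_pow Nat.prime_two).1 (show g ∣ 2 ^ d by rw [hg]; exact Nat.gcd_dvd_left _ _)
      rw [← hg]
      have hc2 : 2 ≤ c := by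
        rcases Nat.lt_or_ge c 2 with h4 | h4
        · exfalso
          interval_cases c
          · omega
          · rw [mul_one] at hc
            exact hk2 j (hc.trans hj)
        · exact h4
      rw [hc]
      nlinarith
  · exact sumMod_odd hk0 hp hp2 n

/-- Coprime moduli. -/
theorem sumMod_mul {k a b s n : ℕ} (hab : a.Coprime b) (h1 : SumMod k a s n) (h2 : SumMod k b s n) :
    SumMod k (a * b) s n := by
  obtain ⟨x, hx⟩ := h1
  obtain ⟨y, hy⟩ := h2
  refine ⟨fun i => Nat.chineseRemainder hab (x i) (y i), ?_⟩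
  rw [← Nat.modEq_and_modEq_iff_modEq_mul hab]
  constructor
  · refine Nat.ModEq.trans ?_ hx
    have h3 : ∀ i ∈ (univ : Finset (Fin s)), ((Nat.chineseRemainder hab (x i) (y i) : ℕ)) ^ k ≡ x i ^ k [MOD a] :=
      fun i _ => (Nat.chineseRemainder hab (x i) (y i)).2.1.pow k
    exact Nat.ModEq.sum h3
  · refine Nat.ModEq.trans ?_ hy
    have h3 : ∀ i ∈ (univ : Finset (Fin s)), ((Nat.chineseRemainder hab (x i) (y i) : ℕ)) ^ k ≡ y i ^ k [MOD b] :=
      fun i _ => (Nat.chineseRemainder hab (x i) (y i)).2.2.pow k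
    exact Nat.ModEq.sum h3

theorem sumMod_all {k s : ℕ} (h : ∀ p e n : ℕ, p.Prime → SumMod k (p ^ e) s n) : ∀ q : ℕ, 1 ≤ q → ∀ n, SumMod k q s n := by
  intro q
  induction q using Nat.recOnPrimeCoprime with
  | zero => intro h0; omega
  | prime_pow p e hp => intro _ n; exact h p e n hp
  | coprime a b ha hb hab iha ihb =>
    intro _ n
    exact sumMod_mul hab (iha (by omega) n) (ihb (by omega) n)

/-- **Every class is a sum of `4 k` `k`-th powers.** -/
theorem sumMod_four_mul {k q : ℕ} (hk : 1 ≤ k) (hq : 1 ≤ q) (n : ℕ) : SumMod k q (4 * k) n :=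
  sumMod_all (fun _ _ n hp => sumMod_prime_pow hk hp n) q hq n

/-- **If `k` is not `2 ^ m`, `m ≥ 2`, then every class is a sum of `2 k` `k`-th powers.** -/
theorem sumMod_two_mul {k q : ℕ} (hk : 2 ≤ k) (hk2 : ∀ m, 2 ≤ m → k ≠ 2 ^ m) (hq : 1 ≤ q) (n : ℕ) : SumMod k q (2 * k) n := by
  rcases eq_or_ne k 2 with rfl | h2
  · obtain ⟨a, b, c, d, h⟩ := Nat.sum_four_squares n
    refine ⟨![a, b, c, d], ?_⟩
    have h3 : ∑ i : Fin (2 * 2), (![a, b, c, d] : Fin 4 → ℕ) i ^ 2 = n := by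
      show ∑ i : Fin 4, (![a, b, c, d] : Fin 4 → ℕ) i ^ 2 = n
      rw [Fin.sum_univ_four]
      simpa using h
    rw [h3]
  · refine sumMod_all (fun _ _ n hp => sumMod_prime_pow' (by omega) ?_ hp n) q hq n
    intro m hm
    rcases Nat.lt_or_ge m 2 with h | h
    · interval_cases m
      · simp at hm; omega
      · simp at hm; omega
    · exact hk2 m h hm

/-- The local obstruction for `k = 2 ^ m`, `m ≥ 3`. -/
theorem not_sumMod {k q m s : ℕ} (hm : 3 ≤ m) (hk : k = 2 ^ m) (hq : 8 * k ∣ q) (h : SumMod k q s (4 * k)) : 4 * k ≤ s := by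
  obtain ⟨x, hx⟩ := h
  have hx8 := hx.of_dvd hq
  -- the values
  have hmk : m + 3 ≤ k := by
    rw [hk]
    have : ∀ j : ℕ, 3 ≤ j → j + 3 ≤ 2 ^ j := by
      intro j hj
      induction j, hj using Nat.le_induction with
      | base => norm_num
      | succ j hj ih => rw [pow_succ]; omega
    exact this m hm
  have he : ∀ y : ℕ, Even y → y ^ k ≡ 0 [MOD 8 * k] := by
    intro y hy
    have h1 : 2 ^ k ∣ y ^ k := pow_dvd_pow_of_dvd hy.two_dvd k
    have h2 : 8 * k ∣ 2 ^ k := by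
      have : 8 * k = 2 ^ (m + 3) := by rw [hk, pow_add]; ring
      rw [this]
      exact pow_dvd_pow 2 hmk
    exact (Nat.modEq_zero_iff_dvd).2 (h2.trans h1)
  have ho : ∀ y : ℕ, ¬ Even y → y ^ k ≡ 1 [MOD 4 * k] := by
    intro y hy
    have h1 : ∀ j : ℕ, y ^ 2 ^ (j + 1) ≡ 1 [MOD 2 ^ (j + 3)] := by
      intro j
      induction j with
      | zero =>
        have h2 : y % 8 = 1 ∨ y % 8 = 3 ∨ y % 8 = 5 ∨ y % 8 = 7 := by
          rw [Nat.even_iff] at hy; omega
        unfold Nat.ModEq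
        rw [zero_add, pow_one, zero_add, Nat.pow_mod]
        norm_num
        rcases h2 with h2 | h2 | h2 | h2 <;> rw [h2]
      | succ j ih =>
        obtain ⟨z, hz⟩ : ∃ z, z = y ^ 2 ^ (j + 1) := ⟨_, rfl⟩
        have h3 : y ^ 2 ^ (j + 1 + 1) = z * z := by rw [hz, ← pow_add]; congr 1; ring
        rw [h3]
        rw [← hz] at ih
        have hz1 : 1 ≤ z := by
          rw [hz]
          refine Nat.one_le_pow _ _ ?_
          rcases Nat.eq_zero_or_pos y with h0 | h0
          · rw [h0] at hy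
            exact absurd (by norm_num) hy
          · exact h0
        obtain ⟨c, hc⟩ := (Nat.modEq_iff_dvd' hz1).1 ih.symm
        have h4 : z = 1 + 2 ^ (j + 3) * c := by omega
        have h5 : z * z = 1 + 2 ^ (j + 1 + 3) * (c + 2 ^ (j + 2) * c * c) := by
          rw [h4]
          ring
        rw [h5]
        unfold Nat.ModEq
        rw [Nat.add_mul_mod_self_left]
    have h2 := h1 (m - 1)
    have h3 : m - 1 + 1 = m := by omega
    have h4 : 2 ^ (m - 1 + 3) = 4 * k := by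
      rw [hk, show m - 1 + 3 = m + 2 by omega, pow_add]
      ring
    rw [h3, h4, ← hk] at h2
    exact h2
  classical
  obtain ⟨T, hT⟩ : ∃ T : Finset (Fin s), T = univ.filter (fun i => ¬ Even (x i)) := ⟨_, rfl⟩
  have h1 : ∑ i, x i ^ k ≡ T.card [MOD 4 * k] := by
    have h2 : ∑ i, x i ^ k ≡ ∑ i : Fin s, (if i ∈ T then 1 else 0) [MOD 4 * k] := by
      refine Nat.ModEq.sum (fun i _ => ?_)
      split_ifs with h3
      · rw [hT, mem_filter] at h3
        exact ho _ h3.2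
      · rw [hT, mem_filter] at h3
        have : Even (x i) := by
          by_contra h4
          exact h3 ⟨mem_univ _, h4⟩
        exact (he _ this).of_dvd ⟨2, by ring⟩
    rw [sum_ite_mem, univ_inter, sum_const, smul_eq_mul, mul_one] at h2
    exact h2
  have h2 : T.card ≡ 0 [MOD 4 * k] := by
    refine (h1.symm.trans (hx8.of_dvd ⟨2, by ring⟩)).trans ?_
    exact (Nat.modEq_zero_iff_dvd).2 (dvd_refl _)
  rw [Nat.modEq_zero_iff_dvd] at h2
  have hs : T.card ≤ s := by
    have := card_le_univ T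
    rwa [Fintype.card_fin] at this
  have hk1 : 1 ≤ k := by omega
  rcases Nat.eq_zero_or_pos T.card with h0 | h0
  · exfalso
    rw [card_eq_zero] at h0
    have h3 : ∑ i, x i ^ k ≡ ∑ i : Fin s, 0 [MOD 8 * k] := by
      refine Nat.ModEq.sum (fun i _ => he _ ?_)
      by_contra h4
      have : i ∈ T := by rw [hT, mem_filter]; exact ⟨mem_univ _, h4⟩
      rw [h0] at this
      exact notMem_empty _ this
    rw [sum_const_zero] at h3
    have h4 := (h3.symm.trans hx8).symm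
    rw [Nat.modEq_zero_iff_dvd] at h4
    have := Nat.le_of_dvd (by omega) h4
    omega
  · exact (Nat.le_of_dvd h0 h2).trans hs

end Pool.Agent.Q106.WG
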