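import Pool.Agent.Q106.WG.Fam
import Pool.Agent.Q106.WG.Loc

/-!
# The number of the representations in the sieved model of the `k`-th powers
-/

set_option autoImplicit false

namespace Pool.Agent.Q106.WG

open Finset MeasureTheory ProbabilityTheory Filter Pool.Agent.Q120.GM
open scoped Topology
open Pool.Agent.Q106.UR (ind nm pT cf pT_nonneg pT_le_one ind_zero_or ind_nonneg ind_le_one)

/-- The number of the classes `x` modulo `q` with `x ^ k ≡ a`. -/
def pw (k q a : ℕ) : ℕ := ((range q).filter (fun x => x ^ k ≡ a [MOD q])).card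

/-- The probabilities of the sieved model of the `k`-th powers. -/
noncomputable def prob (k q n : ℕ) : ℝ := min 1 (pw k q n * (1 / k * (n : ℝ) ^ (1 / (k : ℝ) - 1)))

/-- The number of the representations of `n` as a sum of `s` elements of `S`. -/
noncomputable def reps (S : Set ℕ) (s n : ℕ) : ℕ := {a : Fin s → ℕ | (∀ i, a i ∈ S) ∧ ∑ i, a i = n}.ncard

theorem pw_le (k q a : ℕ) : pw k q a ≤ q := by
  unfold pw
  exact (card_filter_le _ _).trans (card_range q).le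

theorem pw_pos {k q a x : ℕ} (hq : 1 ≤ q) (h : x ^ k ≡ a [MOD q]) : 1 ≤ pw k q a := by
  unfold pw
  refine card_pos.2 ⟨x % q, ?_⟩
  rw [mem_filter, mem_range]
  exact ⟨Nat.mod_lt _ hq, ((Nat.mod_modEq x q).pow k).trans h⟩

theorem prob_nonneg (k q n : ℕ) : 0 ≤ prob k q n := le_min zero_le_one (by positivity)

theorem prob_le_one (k q n : ℕ) : prob k q n ≤ 1 := min_le_left _ _

theorem reps_finite (S : Set ℕ) (s n : ℕ) : {a : Fin s → ℕ | (∀ i, a i ∈ S) ∧ ∑ i, a i = n}.Finite := by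
  refine Set.Finite.subset (Set.finite_coe_iff.1 (inferInstance : Finite (Fintype.piFinset (fun _ : Fin s => range (n + 1)) : Set (Fin s → ℕ)))) ?_
  rintro a ⟨_, h⟩
  rw [mem_coe, Fintype.mem_piFinset]
  intro i
  rw [mem_range]
  have := single_le_sum (f := a) (fun j _ => Nat.zero_le _) (mem_univ i)
  omega

theorem nm_le_reps {Ω : Type*} {A : Ω → Set ℕ} {r L q n : ℕ} {c : Fin r → ℕ} (h : Ok L q n c) (hr : 1 ≤ r) (ω : Ω) :
    nm A (JJ r L) (TT L q n c) ω ≤ reps (A ω) (r + 1) n := by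
  classical
  have h1 : nm A (JJ r L) (TT L q n c) ω = (((JJ r L).filter (fun t => ω ∈ all A (TT L q n c t))).card : ℝ) := by
    unfold nm
    rw [card_filter]
    push_cast
    refine sum_congr rfl (fun t _ => ?_)
    rcases ind_zero_or (A := A) (TT L q n c t) ω with h | h
    · rw [h.1, if_neg h.2]
    · rw [h.1, if_pos h.2]
  rw [h1]
  have h2 : ((JJ r L).filter (fun t => ω ∈ all A (TT L q n c t))).card ≤ reps (A ω) (r + 1) n := by
    unfold reps
    rw [← Set.ncard_coe_finset]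
    refine Set.ncard_le_ncard_of_injOn (vv L q n c) ?_ ?_ (reps_finite _ _ _)
    · intro t ht
      rw [mem_coe, mem_filter] at ht
      refine ⟨fun i => ht.2 _ ?_, h.sum_vv ht.1⟩
      unfold TT
      exact mem_image_of_mem _ (mem_univ i)
    · intro t _ t' _ e
      funext i
      have := congrFun e i.castSucc
      rw [vv_cast, vv_cast] at this
      exact av_inj (h.q_pos hr) this
  exact_mod_cast h2

variable {k q r : ℕ}

/-- The residues of the summands. -/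
theorem residues (hq : 1 ≤ q) {n L : ℕ} {x : Fin (r + 1) → ℕ} (hx : ∑ i, x i ^ k ≡ n [MOD q])
    (h : Ok L q n (fun i : Fin r => x i.castSucc ^ k % q)) {t : Fin r → ℕ} (ht : t ∈ JJ r L) (i : Fin (r + 1)) :
    x i ^ k ≡ vv L q n (fun i : Fin r => x i.castSucc ^ k % q) t i [MOD q] := by
  have hcast : ∀ i : Fin r, x i.castSucc ^ k ≡ av L q (fun i : Fin r => x i.castSucc ^ k % q) t i [MOD q] := by
    intro i
    unfold av
    unfold Nat.ModEq
    rw [Nat.add_mul_mod_self_left, Nat.mod_mod]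
  induction i using Fin.lastCases with
  | cast i => rw [vv_cast]; exact hcast i
  | last =>
    have h1 := h.sum_vv ht
    rw [Fin.sum_univ_castSucc] at h1 hx
    simp only [vv_cast] at h1
    have h2 : ∑ i : Fin r, x i.castSucc ^ k ≡ ∑ i, av L q (fun i : Fin r => x i.castSucc ^ k % q) t i [MOD q] :=
      Nat.ModEq.sum (fun i _ => hcast i)
    rw [← h1] at hx
    exact Nat.ModEq.add_left_cancel h2 hx

/-- The constants. -/
noncomputable def c1 (k q r : ℕ) : ℝ := q / k * (1 / (4 * ((r : ℝ) + 1) ^ 2)) ^ (1 / (k : ℝ) - 1)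

theorem c1_pos (hk : 2 ≤ k) (hq : 1 ≤ q) : 0 < c1 k q r := by
  unfold c1
  have : (0 : ℝ) < k := by positivity
  have : (0 : ℝ) < q := by positivity
  positivity

theorem sizes (hk : 2 ≤ k) (hq : 1 ≤ q) {n : ℕ} (hn : 4 * (q * (r + 1) ^ 2) ≤ n) {x : Fin (r + 1) → ℕ}
    (hx : ∑ i, x i ^ k ≡ n [MOD q]) : ∃ L : ℕ, Ok L q n (fun i : Fin r => x i.castSucc ^ k % q) ∧ (L : ℝ) ≤ n ∧
      (n : ℝ) / (4 * (q * (r + 1) ^ 2)) ≤ L ∧ ∀ t ∈ JJ r L, ∀ i,
        1 / k * (n : ℝ) ^ (1 / (k : ℝ) - 1) ≤ prob k q (vv L q n (fun i : Fin r => x i.castSucc ^ k % q) t i) ∧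
        prob k q (vv L q n (fun i : Fin r => x i.castSucc ^ k % q) t i) ≤ c1 k q r * (n : ℝ) ^ (1 / (k : ℝ) - 1) := by
  have hk0 : (0 : ℝ) < k := by positivity
  have hk1 : (1 : ℝ) ≤ k := by exact_mod_cast (by omega : 1 ≤ k)
  have hq0 : (0 : ℝ) < q := by positivity
  have hex : 1 / (k : ℝ) - 1 ≤ 0 := by
    rw [sub_nonpos, div_le_one hk0]
    exact hk1
  have hM : 0 < 2 * (q * (r + 1) ^ 2) := by positivity
  obtain ⟨L, hL⟩ : ∃ L, L = n / (2 * (q * (r + 1) ^ 2)) := ⟨_, rfl⟩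
  have h1 : L * (2 * (q * (r + 1) ^ 2)) ≤ n := by rw [hL]; exact Nat.div_mul_le_self _ _
  have h2 : n < L * (2 * (q * (r + 1) ^ 2)) + 2 * (q * (r + 1) ^ 2) := by
    rw [hL]
    exact Nat.lt_div_mul_add hM
  have hL1 : 1 ≤ L := by
    by_contra hcon
    have : L = 0 := by omega
    rw [this] at h2
    omega
  have hn1 : 1 ≤ n := by
    have : 0 < 4 * (q * (r + 1) ^ 2) := by positivity
    omega
  have hn0 : (0 : ℝ) < n := by exact_mod_cast hn1
  have hok : Ok L q n (fun i : Fin r => x i.castSucc ^ k % q) := by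
    refine ⟨fun i => Nat.mod_lt _ hq, ?_, hL1⟩
    calc 2 * (q * L * (r + 1) ^ 2) = L * (2 * (q * (r + 1) ^ 2)) := by ring
      _ ≤ n := h1
  have hLn : (n : ℝ) / (4 * (q * (r + 1) ^ 2)) ≤ L := by
    rw [div_le_iff₀ (by positivity)]
    have h3 : n ≤ L * (4 * (q * (r + 1) ^ 2)) := by
      have : 2 * (q * (r + 1) ^ 2) ≤ L * (2 * (q * (r + 1) ^ 2)) := Nat.le_mul_of_pos_left _ hL1
      have e : L * (4 * (q * (r + 1) ^ 2)) = L * (2 * (q * (r + 1) ^ 2)) + L * (2 * (q * (r + 1) ^ 2)) := by ring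
      omega
    exact_mod_cast h3
  refine ⟨L, hok, ?_, hLn, ?_⟩
  · have : L ≤ n := by
      calc L ≤ L * (2 * (q * (r + 1) ^ 2)) := Nat.le_mul_of_pos_right _ hM
        _ ≤ n := h1
    exact_mod_cast this
  · intro t ht i
    obtain ⟨a, ha⟩ : ∃ a, a = vv L q n (fun i : Fin r => x i.castSucc ^ k % q) t i := ⟨_, rfl⟩
    have ha1 : q * L ≤ a := by
      rw [ha]
      induction i using Fin.lastCases with
      | last =>
        have := hok.le_last ht
        have e : q * L ≤ q * L * (r + 1) := Nat.le_mul_of_pos_right _ (by omega)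
        omega
      | cast i =>
        rw [vv_cast]
        have := le_av (L := L) (q := q) (c := fun i : Fin r => x i.castSucc ^ k % q) t i
        have e : q * L ≤ q * L * (i.1 + 1) := Nat.le_mul_of_pos_right _ (by omega)
        omega
    have ha2 : a ≤ n := by
      rw [ha]
      have h3 := hok.sum_vv ht
      have := single_le_sum (f := vv L q n (fun i : Fin r => x i.castSucc ^ k % q) t) (fun j _ => Nat.zero_le _) (mem_univ i)
      omega
    have ha0 : 1 ≤ a := by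
      have : 1 ≤ q * L := Nat.mul_pos hq hL1
      omega
    have ha0' : (0 : ℝ) < a := by exact_mod_cast ha0
    have hpw : 1 ≤ pw k q a := by
      have := residues hq hx hok ht i
      rw [← ha] at this
      exact pw_pos hq this
    have hpw' : (1 : ℝ) ≤ pw k q a := by exact_mod_cast hpw
    have hpq : (pw k q a : ℝ) ≤ q := by exact_mod_cast pw_le k q a
    rw [← ha]
    constructor
    · unfold prob
      have h3 : (n : ℝ) ^ (1 / (k : ℝ) - 1) ≤ (a : ℝ) ^ (1 / (k : ℝ) - 1) :=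
        Real.rpow_le_rpow_of_nonpos ha0' (by exact_mod_cast ha2) hex
      refine le_min ?_ ?_
      · have h4 : (n : ℝ) ^ (1 / (k : ℝ) - 1) ≤ 1 := Real.rpow_le_one_of_one_le_of_nonpos (by exact_mod_cast hn1) hex
        have h5 : 1 / (k : ℝ) ≤ 1 := by rw [div_le_one hk0]; exact hk1
        calc 1 / (k : ℝ) * (n : ℝ) ^ (1 / (k : ℝ) - 1) ≤ 1 * 1 := mul_le_mul h5 h4 (by positivity) zero_le_one
          _ = 1 := by ring
      · calc 1 / (k : ℝ) * (n : ℝ) ^ (1 / (k : ℝ) - 1) ≤ 1 / (k : ℝ) * (a : ℝ) ^ (1 / (k : ℝ) - 1) :=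
              mul_le_mul_of_nonneg_left h3 (by positivity)
          _ = 1 * (1 / (k : ℝ) * (a : ℝ) ^ (1 / (k : ℝ) - 1)) := by ring
          _ ≤ _ := mul_le_mul_of_nonneg_right hpw' (by positivity)
    · unfold prob
      refine (min_le_right _ _).trans ?_
      have h3 : (a : ℝ) ^ (1 / (k : ℝ) - 1) ≤ (1 / (4 * ((r : ℝ) + 1) ^ 2) * n) ^ (1 / (k : ℝ) - 1) := by
        refine Real.rpow_le_rpow_of_nonpos (by positivity) ?_ hex
        have h4 : ((q * L : ℕ) : ℝ) ≤ a := by exact_mod_cast ha1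
        refine le_trans ?_ h4
        push_cast
        calc 1 / (4 * ((r : ℝ) + 1) ^ 2) * (n : ℝ) = (q : ℝ) * ((n : ℝ) / (4 * ((q : ℝ) * ((r : ℝ) + 1) ^ 2))) := by
              field_simp
          _ ≤ (q : ℝ) * (L : ℝ) := mul_le_mul_of_nonneg_left hLn hq0.le
      rw [Real.mul_rpow (by positivity) hn0.le] at h3
      calc (pw k q a : ℝ) * (1 / k * (a : ℝ) ^ (1 / (k : ℝ) - 1)) ≤
          q * (1 / k * ((1 / (4 * ((r : ℝ) + 1) ^ 2)) ^ (1 / (k : ℝ) - 1) * (n : ℝ) ^ (1 / (k : ℝ) - 1))) :=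
            mul_le_mul hpq (mul_le_mul_of_nonneg_left h3 (by positivity)) (by positivity) hq0.le
        _ = _ := by
            unfold c1
            ring

/-- **The probability of few representations.** -/
theorem ev_prob {Ω : Type*} [MeasurableSpace Ω] {μ : Measure Ω} [IsProbabilityMeasure μ] {A : Ω → Set ℕ}
    (hA : IsModel μ (prob k q) A) (hk : 2 ≤ k) (hq : 1 ≤ q) (hr : k ≤ r) : ∃ c > 0, ∃ C > 0, ∀ᶠ n : ℕ in atTop,
      SumMod k q (r + 1) n → μ.real {ω | (reps (A ω) (r + 1) n : ℝ) < c * (n : ℝ) ^ (((r : ℝ) + 1) / k - 1)} ≤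
        Real.exp (-(C * (n : ℝ) ^ (1 / (k : ℝ)))) := by
  have hk0 : (0 : ℝ) < k := by positivity
  have hk1 : (1 : ℝ) < k := by exact_mod_cast (by omega : 1 < k)
  have hq0 : (0 : ℝ) < q := by positivity
  have hex : 1 / (k : ℝ) - 1 < 0 := by
    rw [sub_neg, div_lt_one hk0]
    exact hk1
  obtain ⟨M, hM⟩ : ∃ M : ℝ, M = 4 * (q * ((r : ℝ) + 1) ^ 2) := ⟨_, rfl⟩
  have hM0 : 0 < M := by rw [hM]; positivity
  obtain ⟨c₁, hc₁⟩ : ∃ c₁, c₁ = c1 k q r := ⟨_, rfl⟩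
  have hc₁0 : 0 < c₁ := by rw [hc₁]; exact c1_pos hk hq
  obtain ⟨c₂, hc₂⟩ : ∃ c₂ : ℝ, c₂ = (1 / M) ^ r * (1 / k) ^ (r + 1) := ⟨_, rfl⟩
  have hc₂0 : 0 < c₂ := by rw [hc₂]; positivity
  obtain ⟨c₃, hc₃⟩ : ∃ c₃ : ℝ, c₃ = 2 ^ (r + 1) * (c₁ * c₁ ^ (r - 1)) := ⟨_, rfl⟩
  have hc₃0 : 0 < c₃ := by rw [hc₃]; positivity
  have t1 : Tendsto (fun n : ℕ => c₁ * (n : ℝ) ^ (1 / (k : ℝ) - 1)) atTop (𝓝 (c₁ * 0)) := by
    refine Tendsto.const_mul _ ?_
    have := (tendsto_rpow_neg_atTop (y := -(1 / (k : ℝ) - 1)) (by linarith)).comp tendsto_natCast_atTop_atTop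
    rw [neg_neg] at this
    exact this
  rw [mul_zero] at t1
  have t2 : Tendsto (fun n : ℕ => (1 / M * c₁) * (n : ℝ) ^ (1 / (k : ℝ))) atTop atTop :=
    ((tendsto_rpow_atTop (by positivity)).comp tendsto_natCast_atTop_atTop).const_mul_atTop (by positivity)
  refine ⟨c₂ / 2, by positivity, c₂ / (8 * (2 * c₃ + 1)), by positivity, ?_⟩
  filter_upwards [t1.eventually_le_const zero_lt_one, t2.eventually_ge_atTop 1, eventually_ge_atTop (4 * (q * (r + 1) ^ 2)),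
    eventually_ge_atTop 1] with n h1 h2 h3 h4 hs
  have hn0 : (0 : ℝ) < n := by exact_mod_cast h4
  have hn1 : (1 : ℝ) ≤ n := by exact_mod_cast h4
  obtain ⟨x, hx⟩ := hs
  obtain ⟨L, hok, hLn, hL, hp⟩ := sizes hk hq h3 hx
  obtain ⟨c, hc⟩ : ∃ c : Fin r → ℕ, c = fun i : Fin r => x i.castSucc ^ k % q := ⟨_, rfl⟩
  rw [← hc] at hok hp
  rw [← hc₁] at hp
  obtain ⟨P, hP⟩ : ∃ P, P = c₁ * (n : ℝ) ^ (1 / (k : ℝ) - 1) := ⟨_, rfl⟩
  rw [← hP] at hp h1
  have hP0 : 0 < P := by rw [hP]; positivity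
  rw [← hM] at hL
  have hL0 : (0 : ℝ) < L := lt_of_lt_of_le (by positivity) hL
  have hnn : (n : ℝ) * (n : ℝ) ^ (1 / (k : ℝ) - 1) = (n : ℝ) ^ (1 / (k : ℝ)) := by
    rw [← Real.rpow_one_add' hn0.le]
    · congr 1
      ring
    · have : (0 : ℝ) < 1 / k := by positivity
      linarith
  have hLP : 1 ≤ L * P := by
    refine h2.trans ?_
    calc 1 / M * c₁ * (n : ℝ) ^ (1 / (k : ℝ)) = (n / M) * P := by rw [← hnn, hP]; ring
      _ ≤ L * P := mul_le_mul_of_nonneg_right hL hP0.le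
  have hpair := hok.pairs (by omega) (prob_nonneg k q) h1 (fun t ht i => (hp t ht i).2) hLP
  have hmean := hok.mean (lo := 1 / k * (n : ℝ) ^ (1 / (k : ℝ) - 1)) (by positivity) (fun t ht i => (hp t ht i).1)
  obtain ⟨m, hm⟩ : ∃ m, m = ∑ t ∈ JJ r L, pT (prob k q) (TT L q n c t) := ⟨_, rfl⟩
  rw [← hm] at hpair hmean
  -- the mean
  have hm1 : c₂ * (n : ℝ) ^ (((r : ℝ) + 1) / k - 1) ≤ m := by
    refine le_trans (le_of_eq ?_) ((mul_le_mul_of_nonneg_right (pow_le_pow_left₀ (by positivity) hL r) (by positivity)).trans hmean)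
    have e0 : ((n : ℝ) / M) ^ r = (1 / M) ^ r * (n : ℝ) ^ (r : ℝ) := by
      rw [Real.rpow_natCast, ← mul_pow]
      congr 1
      ring
    rw [hc₂, mul_pow, e0, ← Real.rpow_natCast ((n : ℝ) ^ (1 / (k : ℝ) - 1)), ← Real.rpow_mul hn0.le]
    have e1 : (n : ℝ) ^ (((r : ℝ) + 1) / k - 1) = (n : ℝ) ^ (r : ℝ) * (n : ℝ) ^ ((1 / (k : ℝ) - 1) * ((r + 1 : ℕ) : ℝ)) := by
      rw [← Real.rpow_add hn0]
      congr 1
      push_cast
      field_simp
      ring
    rw [e1]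
    ring
  -- the ratio
  obtain ⟨R, hR⟩ : ∃ R, R = 2 ^ (r + 1) * (P * (L * P) ^ (r - 1)) := ⟨_, rfl⟩
  rw [← hR] at hpair
  have hR0 : 0 ≤ R := by rw [hR]; positivity
  have hRn : R ≤ c₃ * (n : ℝ) ^ ((r : ℝ) / k - 1) := by
    have e1 : L * P ≤ c₁ * (n : ℝ) ^ (1 / (k : ℝ)) := by
      calc L * P ≤ n * P := mul_le_mul_of_nonneg_right hLn hP0.le
        _ = c₁ * (n : ℝ) ^ (1 / (k : ℝ)) := by rw [← hnn, hP]; ring
    have e2 : (L * P) ^ (r - 1) ≤ (c₁ * (n : ℝ) ^ (1 / (k : ℝ))) ^ (r - 1) := pow_le_pow_left₀ (by positivity) e1 _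
    rw [hR]
    refine (mul_le_mul_of_nonneg_left (mul_le_mul_of_nonneg_left e2 hP0.le) (by positivity)).trans (le_of_eq ?_)
    rw [hP, hc₃, mul_pow, ← Real.rpow_natCast ((n : ℝ) ^ (1 / (k : ℝ))), ← Real.rpow_mul hn0.le]
    have e3 : (n : ℝ) ^ ((r : ℝ) / k - 1) = (n : ℝ) ^ (1 / (k : ℝ) - 1) * (n : ℝ) ^ (1 / (k : ℝ) * ((r - 1 : ℕ) : ℝ)) := by
      rw [← Real.rpow_add hn0, Nat.cast_sub (by omega)]
      congr 1
      push_cast
      field_simp
      ring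
    rw [e3]
    ring
  have hone : 1 ≤ (n : ℝ) ^ ((r : ℝ) / k - 1) := by
    refine Real.one_le_rpow hn1 ?_
    rw [sub_nonneg, one_le_div hk0]
    exact_mod_cast hr
  have h2R : 8 * (2 * R + 1) ≤ 8 * (2 * c₃ + 1) * (n : ℝ) ^ ((r : ℝ) / k - 1) := by nlinarith
  have hfin := lower_tail hA (JJ r L) (TT L q n c) (m := m) (R := R) hm hR0 hpair (v := c₂ / 2 * (n : ℝ) ^ (((r : ℝ) + 1) / k - 1))
    (by linarith)
  refine le_trans (measureReal_mono (fun ω hω => ?_) (measure_ne_top _ _)) (hfin.trans (Real.exp_le_exp.2 ?_))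
  · exact (nm_le_reps hok (by omega) ω).trans (le_of_lt hω)
  · rw [neg_le_neg_iff]
    have e4 : (n : ℝ) ^ (((r : ℝ) + 1) / k - 1) = (n : ℝ) ^ (1 / (k : ℝ)) * (n : ℝ) ^ ((r : ℝ) / k - 1) := by
      rw [← Real.rpow_add hn0]
      congr 1
      ring
    rw [le_div_iff₀ (by positivity)]
    calc c₂ / (8 * (2 * c₃ + 1)) * (n : ℝ) ^ (1 / (k : ℝ)) * (8 * (2 * R + 1)) ≤
        c₂ / (8 * (2 * c₃ + 1)) * (n : ℝ) ^ (1 / (k : ℝ)) * (8 * (2 * c₃ + 1) * (n : ℝ) ^ ((r : ℝ) / k - 1)) :=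
          mul_le_mul_of_nonneg_left h2R (by positivity)
      _ = c₂ * (n : ℝ) ^ (((r : ℝ) + 1) / k - 1) := by
          rw [e4]
          field_simp
      _ ≤ m := hm1

/-- **Many representations, almost surely.** -/
theorem many {Ω : Type*} [MeasurableSpace Ω] {μ : Measure Ω} [IsProbabilityMeasure μ] {A : Ω → Set ℕ}
    (hA : IsModel μ (prob k q) A) (hk : 2 ≤ k) (hq : 1 ≤ q) : ∀ s : ℕ, k + 1 ≤ s → ∃ c > 0, ∀ᵐ ω ∂μ, ∀ᶠ n : ℕ in atTop,
      SumMod k q s n → c * (n : ℝ) ^ ((s : ℝ) / k - 1) ≤ reps (A ω) s n := by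
  intro s hs
  obtain ⟨r, rfl⟩ : ∃ r, s = r + 1 := ⟨s - 1, by omega⟩
  obtain ⟨c, hc, C, hC, hev⟩ := ev_prob hA hk hq (show k ≤ r by omega)
  refine ⟨c, hc, ?_⟩
  have hk0 : (0 : ℝ) < k := by positivity
  -- a summable bound
  have hlog : ∀ᶠ n : ℕ in atTop, Real.exp (-(C * (n : ℝ) ^ (1 / (k : ℝ)))) ≤ ((n : ℝ) ^ 2)⁻¹ := by
    have h1 := (isLittleO_log_rpow_atTop (r := 1 / (k : ℝ)) (by positivity)).def (c := C / 2) (by positivity)
    have h2 := tendsto_natCast_atTop_atTop (R := ℝ) |>.eventually h1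
    filter_upwards [h2, eventually_ge_atTop 1] with n h3 h4
    have hn0 : (0 : ℝ) < n := by exact_mod_cast h4
    have hn1 : (1 : ℝ) ≤ n := by exact_mod_cast h4
    rw [Real.norm_of_nonneg (Real.log_nonneg hn1), Real.norm_of_nonneg (by positivity)] at h3
    rw [← Real.exp_log (show 0 < ((n : ℝ) ^ 2)⁻¹ by positivity), Real.log_inv, Real.log_pow]
    refine Real.exp_le_exp.2 ?_
    push_cast
    linarith
  obtain ⟨N, hN⟩ := eventually_atTop.1 (hev.and hlog)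
  obtain ⟨E, hE⟩ : ∃ E : ℕ → Set Ω, E = fun n => {ω | N ≤ n ∧ SumMod k q (r + 1) n ∧
      (reps (A ω) (r + 1) n : ℝ) < c * (n : ℝ) ^ (((r : ℝ) + 1) / k - 1)} := ⟨_, rfl⟩
  have hsum : ∑' n, μ (E n) ≠ ⊤ := by
    have hb : ∀ n, μ (E n) ≤ ENNReal.ofReal (((n : ℝ) ^ 2)⁻¹) := by
      intro n
      by_cases hn : N ≤ n ∧ SumMod k q (r + 1) n
      · have h1 := (hN n hn.1).1 hn.2
        have h2 : μ.real (E n) ≤ ((n : ℝ) ^ 2)⁻¹ := by
          refine le_trans (measureReal_mono ?_ (measure_ne_top _ _)) (h1.trans (hN n hn.1).2)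
          intro ω hω
          rw [hE] at hω
          exact hω.2.2
        rw [← ENNReal.ofReal_toReal (measure_ne_top μ (E n))]
        exact ENNReal.ofReal_le_ofReal h2
      · have : E n = ∅ := by
          rw [hE]
          ext ω
          simp only [Set.mem_ofPred_eq, Set.mem_empty_iff_false, iff_false]
          exact fun h => hn ⟨h.1, h.2.1⟩
        rw [this, measure_empty]
        exact zero_le
    have hs2 : Summable (fun n : ℕ => ((n : ℝ) ^ 2)⁻¹) := by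
      simp
    refine ne_top_of_le_ne_top ?_ (ENNReal.tsum_le_tsum hb)
    exact hs2.tsum_ofReal_ne_top
  have hae : ∀ᵐ ω ∂μ, ∀ᶠ n in atTop, ω ∉ E n := ae_eventually_notMem hsum
  filter_upwards [hae] with ω hω
  filter_upwards [hω, eventually_ge_atTop N] with n h1 h2 h3
  by_contra hcon
  push Not at hcon
  refine h1 ?_
  rw [hE]
  refine ⟨h2, h3, ?_⟩
  push_cast at hcon
  exact hcon

end Pool.Agent.Q106.WG
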